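import Pool.Agent.H.MP_b2838e_lc.C.BDef

/-!
# Module BAb: absorbing strings

Proof. `k = 0`: no `π` as `π b < 0` is impossible for `r > 0`, and `r = 0`, `k = 0`: see below. One step, for one
`π` (with the three properties): let `y n = π (x n)` for `n < m` and `0` otherwise. If `k > 0`, `KPart k y`
(numbering: `i < π (x n)`, so `i = π b'` with `b' < x n`, and `b' = x n'` with `n' < n` by `Str.num`; all pieces occur
below `m` by `Str.all`). `Bk.dns` gives `y'`, `m'`. Let `x' n = x n` for `n < m`, and for `n ≥ m` some `b < r` with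
`π b = y' n`. Then `π (x' n) = y' n` for all `n`, so `D s (π ∘ x') m'` (`Bk.cgr`); `Str r x' m'`: clear.
If `k = 0` use that `π b < k` for `b < r` forces `r = 0`; then `m = 0` (`Str.lt`); a `y` with `KPart 0 y` does not exist, so
this case is excluded by the hypothesis `0 < k`.
All `π`: induction over the finset of all functions `Fin r → Fin k` (or over a list of them); `D s (π ∘ x) m` is preserved by
the later steps (`Bk.cgr`, `Bk.mon`). `D s (fun n => π (x' n)) m'` depends only on `π` below `r` (`Str.lt`, `Bk.cgr`).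
-/

set_option autoImplicit false

namespace Pool.Agent.DC

open Pool.Agent.DR

/-- the three properties of the maps `π` -/
private def Ok (k r : ℕ) (π : ℕ → ℕ) : Prop :=
  (∀ b < r, ∀ i < π b, ∃ b' < b, π b' = i) ∧ (∀ b < r, π b < k) ∧ (∀ i < k, ∃ b < r, π b = i)

private theorem one {k l : ℕ} (hk : 0 < k) {c : (ℕ → ℕ) → Fin l} {D : ℕ → (ℕ → ℕ) → ℕ → Prop}
    (hD : Bk k c D) (s r : ℕ) {x : ℕ → ℕ} {m : ℕ} (hx : Str r x m) {π : ℕ → ℕ}
    (hπ : Ok k r π) :
    ∃ x' m', m ≤ m' ∧ (∀ n < m, x' n = x n) ∧ Str r x' m' ∧ D s (fun n => π (x' n)) m' := by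
  classical
  obtain ⟨h1, h2, h3⟩ := hπ
  obtain ⟨y, hy⟩ : ∃ y : ℕ → ℕ, ∀ n, y n = if n < m then π (x n) else 0 := ⟨_, fun _ => rfl⟩
  have hylt : ∀ n < m, y n = π (x n) := fun n hn => by rw [hy, if_pos hn]
  have hyge : ∀ n, ¬ n < m → y n = 0 := fun n hn => by rw [hy, if_neg hn]
  have hall : ∀ i < k, ∃ n < m, y n = i := by
    intro i hi
    obtain ⟨b, hb, hbi⟩ := h3 i hi
    obtain ⟨n, hn, hnb⟩ := hx.all b hb
    exact ⟨n, hn, by rw [hylt n hn, hnb, hbi]⟩
  have hK : KPart k y := by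
    refine ⟨fun n i hi => ?_, fun n => ?_, fun i hi => ?_⟩
    · by_cases hn : n < m
      · rw [hylt n hn] at hi
        obtain ⟨b', hb', hbi⟩ := h1 (x n) (hx.lt n hn) i hi
        obtain ⟨n', hn', hnb⟩ := hx.num n hn b' hb'
        exact ⟨n', hn', by rw [hylt n' (hn'.trans hn), hnb, hbi]⟩
      · rw [hyge n hn] at hi
        exact absurd hi (Nat.not_lt_zero _)
    · by_cases hn : n < m
      · rw [hylt n hn]
        exact h2 _ (hx.lt n hn)
      · rw [hyge n hn]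
        exact hk
    · obtain ⟨n, _, hn⟩ := hall i hi
      exact ⟨n, hn⟩
  obtain ⟨y', hK', hy', m', hm', hDy⟩ := hD.dns s y m hK hall
  have hb : ∀ n, ∃ b < r, π b = y' n := fun n => h3 _ (hK'.2.1 n)
  choose b hbr hbπ using hb
  obtain ⟨x', hx'⟩ : ∃ x' : ℕ → ℕ, ∀ n, x' n = if n < m then x n else b n := ⟨_, fun _ => rfl⟩
  have hxlt : ∀ n < m, x' n = x n := fun n hn => by rw [hx', if_pos hn]
  have hxge : ∀ n, ¬ n < m → x' n = b n := fun n hn => by rw [hx', if_neg hn]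
  have hr : ∀ n, x' n < r := by
    intro n
    by_cases hn : n < m
    · rw [hxlt n hn]
      exact hx.lt n hn
    · rw [hxge n hn]
      exact hbr n
  have hπx : ∀ n, π (x' n) = y' n := by
    intro n
    by_cases hn : n < m
    · rw [hxlt n hn, hy' n hn, hylt n hn]
    · rw [hxge n hn, hbπ]
  refine ⟨x', m', hm', hxlt, ⟨fun n _ i hi => ?_, fun n _ => hr n, fun i hi => ?_⟩, ?_⟩
  · by_cases hn : n < m
    · rw [hxlt n hn] at hi
      obtain ⟨n', hn', h⟩ := hx.num n hn i hi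
      exact ⟨n', hn', by rw [hxlt n' (hn'.trans hn), h]⟩
    · obtain ⟨n', hn', h⟩ := hx.all i (hi.trans (hr n))
      exact ⟨n', by omega, by rw [hxlt n' hn', h]⟩
  · obtain ⟨n', hn', h⟩ := hx.all i hi
    exact ⟨n', by omega, by rw [hxlt n' hn', h]⟩
  · exact hD.cgr s y' _ m' hDy fun n _ => hπx n

/-- the map given by a function `Fin r → Fin k` -/
private def ext {k r : ℕ} (f : Fin r → Fin k) (b : ℕ) : ℕ := if h : b < r then (f ⟨b, h⟩).1 else 0

private theorem some {k l : ℕ} (hk : 0 < k) {c : (ℕ → ℕ) → Fin l}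
    {D : ℕ → (ℕ → ℕ) → ℕ → Prop} (hD : Bk k c D) (s r : ℕ) {x : ℕ → ℕ} {m : ℕ}
    (hx : Str r x m) (F : Finset (Fin r → Fin k)) :
    ∃ x' m', m ≤ m' ∧ (∀ n < m, x' n = x n) ∧ Str r x' m' ∧
      ∀ f ∈ F, Ok k r (ext f) → D s (fun n => ext f (x' n)) m' := by
  classical
  induction F using Finset.induction_on with
  | empty => exact ⟨x, m, le_rfl, fun _ _ => rfl, hx, fun f hf => absurd hf (Finset.notMem_empty f)⟩
  | insert f F _ ih =>
    obtain ⟨x₁, m₁, h1, h2, h3, h4⟩ := ih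
    by_cases hf : Ok k r (ext f)
    · obtain ⟨x₂, m₂, g1, g2, g3, g4⟩ := one hk hD s r h3 hf
      refine ⟨x₂, m₂, h1.trans g1, fun n hn => ?_, g3, fun f' hf' ho => ?_⟩
      · rw [g2 n (lt_of_lt_of_le hn h1), h2 n hn]
      · rcases Finset.mem_insert.1 hf' with rfl | hf'
        · exact g4
        · refine hD.mon s _ m₁ m₂ ?_ g1
          refine hD.cgr s _ _ m₁ (h4 f' hf' ho) fun n hn => ?_
          show ext f' (x₂ n) = ext f' (x₁ n)
          rw [g2 n hn]
    · refine ⟨x₁, m₁, h1, h2, h3, fun f' hf' ho => ?_⟩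
      rcases Finset.mem_insert.1 hf' with rfl | hf'
      · exact absurd ho hf
      · exact h4 f' hf' ho

theorem absorb {k l : ℕ} (hk : 0 < k) {c : (ℕ → ℕ) → Fin l} {D : ℕ → (ℕ → ℕ) → ℕ → Prop}
    (hD : Bk k c D) (s r : ℕ) {x : ℕ → ℕ} {m : ℕ} (hx : Str r x m) :
    ∃ x' m', m ≤ m' ∧ (∀ n < m, x' n = x n) ∧ Str r x' m' ∧
      ∀ π : ℕ → ℕ, (∀ b < r, ∀ i < π b, ∃ b' < b, π b' = i) → (∀ b < r, π b < k) →
        (∀ i < k, ∃ b < r, π b = i) → D s (fun n => π (x' n)) m' := by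
  obtain ⟨x', m', h1, h2, h3, h4⟩ := some hk hD s r hx Finset.univ
  refine ⟨x', m', h1, h2, h3, fun π p1 p2 p3 => ?_⟩
  obtain ⟨f, hf⟩ : ∃ f : Fin r → Fin k, ∀ b, (f b).1 = π b.1 :=
    ⟨fun b => ⟨π b.1, p2 b.1 b.2⟩, fun _ => rfl⟩
  have he : ∀ b < r, ext f b = π b := fun b hb => by
    unfold ext
    rw [dif_pos hb, hf]
  have ho : Ok k r (ext f) := by
    refine ⟨fun b hb i hi => ?_, fun b hb => ?_, fun i hi => ?_⟩
    · rw [he b hb] at hi
      obtain ⟨b', hb', h⟩ := p1 b hb i hi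
      exact ⟨b', hb', by rw [he b' (hb'.trans hb), h]⟩
    · rw [he b hb]
      exact p2 b hb
    · obtain ⟨b, hb, h⟩ := p3 i hi
      exact ⟨b, hb, by rw [he b hb, h]⟩
  exact hD.cgr s _ _ m' (h4 f (Finset.mem_univ f) ho) fun n hn => (he _ (h3.lt n hn)).symm

end Pool.Agent.DC
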