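import Pool.Agent.H.MP_b2838e_lc.C.BDef

/-!
# Module BBa: the Baire property

Model: B/Bp.lean (the case `k = 2`). `k = 0`: there is no `y` with `KPart 0 y` (`y 0 < 0`), take `D` false. Let `k > 0`,
`φ w n = (w n).val` for `w : ℕ → Fin k` (continuous, so measurable). `B j = {w | KPart k (φ w) ∧ c (φ w) = j}` is Borel; take
open sets `V j` with `B j =ᵇ V j` (`MeasurableSet.residualEq_isOpen`), and open dense sets `O s` with
`(⋂ s, O s) ⊆ ⋂ j, {w | w ∈ B j ↔ w ∈ V j}`. `Cyl y m = {w | ∀ n < m, (w n).val = y n}`,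
`D s y m := (∀ s' ≤ s, Cyl y m ⊆ O s') ∧ ∃ j, Cyl y m ⊆ V j`. `cgr`, `mon`: clear (`Cyl y m' ⊆ Cyl y m`).
`lim`: `w n = ⟨y n, _⟩`, `w' n = ⟨z n, _⟩` are in all `O s` and both in the `V j` of `D s y m`, so both in `B j`.
`dns`: `Cyl y m` is open and nonempty, so there is `w ∈ Cyl y m` in all `O s` (Baire). `KPart k (φ w)`: for
`n < m` from `y`, for `n ≥ m` since all `k` pieces have begun before `m`. So `w ∈ B j` for `j = c (φ w)`, `w ∈ V j`.
`V j ∩ ⋂ s' ≤ s, O s'` is open, so it contains `Cyl (φ w) m'` for some `m' ≥ m` (product topology). `y' = φ w`.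
-/

set_option autoImplicit false

namespace Pool.Agent.DC

open Pool.Agent.DR

open Set Filter Topology

/-- open sets and a dense sequence of open sets -/
private theorem BBa_open {k l : ℕ} (B : Fin l → Set (ℕ → Fin k))
    (hB : ∀ j, BaireMeasurableSet (B j)) :
    ∃ (V : Fin l → Set (ℕ → Fin k)) (O : ℕ → Set (ℕ → Fin k)), (∀ j, IsOpen (V j)) ∧
      (∀ s, IsOpen (O s)) ∧ Dense (⋂ s, O s) ∧
      ∀ Z ∈ ⋂ s, O s, ∀ j, Z ∈ B j ↔ Z ∈ V j := by
  choose V hV hBV using fun j => (hB j).residualEq_isOpen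
  have h1 : {Z | ∀ j, Z ∈ B j ↔ Z ∈ V j} ∈ residual (ℕ → Fin k) := by
    have h2 : ∀ᶠ Z in residual (ℕ → Fin k), ∀ j, (B j Z ↔ V j Z) := by
      rw [Filter.eventually_all]
      intro j
      filter_upwards [hBV j] with Z hZ
      exact iff_of_eq hZ
    exact h2
  obtain ⟨S, hSo, hSd, hSc, hS⟩ := mem_residual_iff.1 h1
  obtain ⟨O, hO⟩ := (hSc.insert Set.univ).exists_eq_range (Set.insert_nonempty _ _)
  have hOo : ∀ s, IsOpen (O s) := by
    intro s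
    have h3 : O s ∈ insert Set.univ S := by
      rw [hO]
      exact Set.mem_range_self s
    rcases h3 with h3 | h3
    · rw [h3]
      exact isOpen_univ
    · exact hSo _ h3
  have hOd : ∀ s, Dense (O s) := by
    intro s
    have h3 : O s ∈ insert Set.univ S := by
      rw [hO]
      exact Set.mem_range_self s
    rcases h3 with h3 | h3
    · rw [h3]
      exact dense_univ
    · exact hSd _ h3
  refine ⟨V, O, hV, hOo, dense_iInter_of_isOpen_nat hOo hOd, fun Z hZ => ?_⟩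
  refine hS ?_
  intro t ht
  have h3 : t ∈ Set.range O := by
    rw [← hO]
    exact Or.inr ht
  obtain ⟨s, rfl⟩ := h3
  exact Set.mem_iInter.1 hZ s

/-- a point of an open set and a bound for the coordinates which matter -/
private theorem BBa_nhd {k : ℕ} {W : Set (ℕ → Fin k)} (hW : IsOpen W) {Z : ℕ → Fin k}
    (hZ : Z ∈ W) : ∃ a₀, ∀ Z' : ℕ → Fin k, (∀ a < a₀, Z' a = Z a) → Z' ∈ W := by
  obtain ⟨I, u, h1, h2⟩ := isOpen_pi_iff.1 hW Z hZ
  refine ⟨I.sup id + 1, fun Z' hZ' => h2 ?_⟩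
  intro a ha
  rw [hZ' a (Nat.lt_succ_of_le (Finset.le_sup (f := id) ha))]
  exact (h1 a ha).2

/-- the partition given by a sequence in `Fin k` -/
private def BBa_phi {k : ℕ} (w : ℕ → Fin k) (n : ℕ) : ℕ := (w n).val

private theorem BBa_cont {k : ℕ} : Continuous (BBa_phi : (ℕ → Fin k) → (ℕ → ℕ)) :=
  continuous_pi fun n => continuous_of_discreteTopology.comp (continuous_apply n)

private def BBa_cyl (k : ℕ) (y : ℕ → ℕ) (m : ℕ) : Set (ℕ → Fin k) :=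
  {w | ∀ n < m, BBa_phi w n = y n}

private theorem BBa_cyl_open (k : ℕ) (y : ℕ → ℕ) (m : ℕ) : IsOpen (BBa_cyl k y m) := by
  have h1 : BBa_cyl k y m = BBa_phi ⁻¹' (Set.pi (Set.Iio m) fun n => {v | v = y n}) := by
    ext w
    rfl
  rw [h1]
  exact (isOpen_set_pi (Set.finite_Iio m) fun n _ => isOpen_discrete _).preimage BBa_cont

private theorem BBa_part {k : ℕ} {y : ℕ → ℕ} {m : ℕ} (hy : KPart k y)
    (hm : ∀ i < k, ∃ n < m, y n = i) {w : ℕ → Fin k} (hw : w ∈ BBa_cyl k y m) :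
    KPart k (BBa_phi w) := by
  refine ⟨fun n i hi => ?_, fun n => (w n).2, fun i hi => ?_⟩
  · by_cases h : n < m
    · rw [hw n h] at hi
      obtain ⟨n', h1, h2⟩ := hy.1 n i hi
      exact ⟨n', h1, by rw [hw n' (h1.trans h), h2]⟩
    · obtain ⟨n', h1, h2⟩ := hm i (hi.trans (w n).2)
      exact ⟨n', by omega, by rw [hw n' h1, h2]⟩
  · obtain ⟨n', h1, h2⟩ := hm i hi
    exact ⟨n', by rw [hw n' h1, h2]⟩

theorem baireP {k l : ℕ} {c : (ℕ → ℕ) → Fin l} (hc : BaireCol k c) :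
    ∃ D : ℕ → (ℕ → ℕ) → ℕ → Prop, Bk k c D := by
  obtain ⟨V, O, hV, hO, hd, hBV⟩ := BBa_open
    (fun j => (BBa_phi : (ℕ → Fin k) → (ℕ → ℕ)) ⁻¹' {y : ℕ → ℕ | KPart k y ∧ c y = j})
    (fun j => hc j)
  have hmono : ∀ (y : ℕ → ℕ) (m m' : ℕ), m ≤ m' → BBa_cyl k y m' ⊆ BBa_cyl k y m :=
    fun y m m' h w hw n hn => hw n (lt_of_lt_of_le hn h)
  have hlim : ∀ (y : ℕ → ℕ) (hy : KPart k y),
      (∀ S, ∃ s ≥ S, ∃ m, (∀ s' ≤ s, BBa_cyl k y m ⊆ O s') ∧ ∃ j, BBa_cyl k y m ⊆ V j) →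
      ∀ j, (fun n => (⟨y n, hy.2.1 n⟩ : Fin k)) ∈ V j → c y = j := by
    intro y hy h j hj
    have hmem : (fun n => (⟨y n, hy.2.1 n⟩ : Fin k)) ∈ ⋂ s, O s := by
      rw [Set.mem_iInter]
      intro s
      obtain ⟨s', hs', m, h1, -⟩ := h s
      exact h1 s hs' (fun n _ => rfl)
    exact ((hBV _ hmem j).2 hj).2
  refine ⟨fun s y m => (∀ s' ≤ s, BBa_cyl k y m ⊆ O s') ∧ ∃ j, BBa_cyl k y m ⊆ V j,
    ?_, ?_, ?_, ?_⟩
  · rintro s y z m ⟨h1, j, h2⟩ h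
    have h3 : BBa_cyl k z m ⊆ BBa_cyl k y m := fun w hw n hn => by rw [hw n hn, h n hn]
    exact ⟨fun s' hs' => h3.trans (h1 s' hs'), j, h3.trans h2⟩
  · rintro s y m m' ⟨h1, j, h2⟩ h
    exact ⟨fun s' hs' => (hmono y m m' h).trans (h1 s' hs'), j, (hmono y m m' h).trans h2⟩
  · intro s y m hy hm
    obtain ⟨w, hw, hwO⟩ := hd.inter_open_nonempty _ (BBa_cyl_open k y m)
      ⟨fun n => ⟨y n, hy.2.1 n⟩, fun n _ => rfl⟩
    have hpart := BBa_part hy hm hw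
    have hwV : w ∈ V (c (BBa_phi w)) := (hBV w hwO _).1 ⟨hpart, rfl⟩
    have hop : IsOpen (⋂ s' ∈ Set.Iic s, O s') :=
      (Set.finite_Iic s).isOpen_biInter fun i _ => hO i
    obtain ⟨a₀, ha₀⟩ := BBa_nhd (hop.inter (hV (c (BBa_phi w))))
      ⟨Set.mem_iInter₂.2 fun s' _ => Set.mem_iInter.1 hwO s', hwV⟩
    have hcyl : ∀ w' ∈ BBa_cyl k (BBa_phi w) (max m a₀),
        w' ∈ (⋂ s' ∈ Set.Iic s, O s') ∩ V (c (BBa_phi w)) := by
      intro w' hw'
      refine ha₀ w' fun a ha => Fin.ext ?_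
      exact hw' a (lt_of_lt_of_le ha (le_max_right _ _))
    refine ⟨BBa_phi w, hpart, fun n hn => hw n hn, max m a₀, le_max_left _ _, ?_, ?_⟩
    · intro s' hs' w' hw'
      exact Set.mem_iInter₂.1 (hcyl w' hw').1 s' hs'
    · exact ⟨_, fun w' hw' => (hcyl w' hw').2⟩
  · rintro y z s m hy hz ⟨-, j, hj⟩ hyz h1 h2
    rw [hlim y hy h1 j (hj fun n _ => rfl)]
    exact (hlim z hz h2 j (hj fun n hn => hyz n hn)).symm

theorem baireCol_of_bor {k l : ℕ} {c : (ℕ → ℕ) → Fin l} (hc : Pool.Agent.DB.Bor k c) :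
    BaireCol k c := fun j =>
  ((BBa_cont (k := k)).measurable (hc j)).baireMeasurableSet

theorem baire {k l : ℕ} {c : (ℕ → ℕ) → Fin l} (hc : Pool.Agent.DB.Bor k c) :
    ∃ D : ℕ → (ℕ → ℕ) → ℕ → Prop, Bk k c D := baireP (baireCol_of_bor hc)

end Pool.Agent.DC
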