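import Pool.Agent.H.MP_b2838e_lc.Def
import Pool.Agent.H.MP_b2838e_lc.B.Bd

/-!
# Module BDef: definitions for the reduction of Borel colourings
-/

set_option autoImplicit false

namespace Pool.Agent.DC

open Pool.Agent.DR

/-- Dense sets `D s` of finite approximations `(y, m)` (only the values of `y` below `m` matter), which
decide the colouring `c` of the partitions into `k` pieces. -/
structure Bk (k : ℕ) {l : ℕ} (c : (ℕ → ℕ) → Fin l) (D : ℕ → (ℕ → ℕ) → ℕ → Prop) : Prop where
  cgr : ∀ s y z m, D s y m → (∀ n < m, z n = y n) → D s z m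
  mon : ∀ s y m m', D s y m → m ≤ m' → D s y m'
  dns : ∀ s y m, KPart k y → (∀ i < k, ∃ n < m, y n = i) →
    ∃ y', KPart k y' ∧ (∀ n < m, y' n = y n) ∧ ∃ m' ≥ m, D s y' m'
  lim : ∀ y z s m, KPart k y → KPart k z → D s y m → (∀ n < m, z n = y n) →
    (∀ S, ∃ s ≥ S, ∃ m, D s y m) → (∀ S, ∃ s ≥ S, ∃ m, D s z m) → c y = c z

/-- `x` restricted to `[0, m)` is a partition into the `r` pieces `0, ..., r - 1`. -/
structure Str (r : ℕ) (x : ℕ → ℕ) (m : ℕ) : Prop where
  num : ∀ n < m, ∀ i < x n, ∃ n' < n, x n' = i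
  lt : ∀ n < m, x n < r
  all : ∀ i < r, ∃ n < m, x n = i

/-- The classes of the colouring of the partitions into `k` pieces have the property of Baire, where the
partitions into `k` pieces are regarded as sequences in `Fin k`. -/
def BaireCol (k : ℕ) {l : ℕ} (c : (ℕ → ℕ) → Fin l) : Prop :=
  ∀ j, BaireMeasurableSet
    {w : ℕ → Fin k | KPart k (fun n => (w n).val) ∧ c (fun n => (w n).val) = j}

end Pool.Agent.DC
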