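import Pool.Agent.H.MP_b2838e_lc.C.BAb

/-!
# Module BSq: the sequence of windows and absorbing strings

Proof. States `(r, x, m)` with `Str r x m`; start: `(0, 0, 0)`. Next state, for `s`: a window of `N m + 1` new pieces
(`x n = r + (n - m)` for `m ≤ n < m + N m + 1`, `r + N m + 1` pieces), then `absorb` for `s`. Let `(r s, x_s, m s)` be the
states; `x_(s+1)` agrees with `x_s` below `m s`, `m s < m (s+1)`, `r s < r (s+1)`, `r s ≤ m s` (or keep it in the state),
`x n = x_(n+1) n`. So `x` agrees with `x_s` below `m s` for every `s`.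
-/

set_option autoImplicit false

namespace Pool.Agent.DC

open Pool.Agent.DR

private theorem BSq_congr {r m : ℕ} {x x' : ℕ → ℕ} (h : Str r x m) (hx : ∀ n < m, x' n = x n) :
    Str r x' m := by
  refine ⟨fun n hn i hi => ?_, fun n hn => ?_, fun i hi => ?_⟩
  · rw [hx n hn] at hi
    obtain ⟨n', h1, h2⟩ := h.num n hn i hi
    exact ⟨n', h1, by rw [hx n' (h1.trans hn)]; exact h2⟩
  · rw [hx n hn]
    exact h.lt n hn
  · obtain ⟨n, h1, h2⟩ := h.all i hi
    exact ⟨n, h1, by rw [hx n h1]; exact h2⟩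

private theorem BSq_win {r m a : ℕ} {x : ℕ → ℕ} (h : Str r x m) :
    Str (r + a + 1) (fun n => if n < m then x n else r + (n - m)) (m + a + 1) := by
  refine ⟨fun n hn i hi => ?_, fun n hn => ?_, fun i hi => ?_⟩
  · by_cases hnm : n < m
    · have hi' : i < x n := by simpa [hnm] using hi
      obtain ⟨n', h1, h2⟩ := h.num n hnm i hi'
      exact ⟨n', h1, by rw [if_pos (h1.trans hnm)]; exact h2⟩
    · have hi' : i < r + (n - m) := by simpa [hnm] using hi
      by_cases hir : i < r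
      · obtain ⟨n', h1, h2⟩ := h.all i hir
        exact ⟨n', by omega, by rw [if_pos h1]; exact h2⟩
      · refine ⟨m + (i - r), by omega, ?_⟩
        rw [if_neg (by omega)]
        omega
  · show (if n < m then x n else r + (n - m)) < r + a + 1
    by_cases hnm : n < m
    · rw [if_pos hnm]
      have := h.lt n hnm
      omega
    · rw [if_neg hnm]
      omega
  · by_cases hir : i < r
    · obtain ⟨n', h1, h2⟩ := h.all i hir
      exact ⟨n', by omega, by rw [if_pos h1]; exact h2⟩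
    · refine ⟨m + (i - r), by omega, ?_⟩
      rw [if_neg (by omega)]
      omega

/-- The absorption property. -/
private def BSq_ab (k : ℕ) (D : ℕ → (ℕ → ℕ) → ℕ → Prop) (s r : ℕ) (x : ℕ → ℕ) (m : ℕ) : Prop :=
  ∀ π : ℕ → ℕ, (∀ b < r, ∀ i < π b, ∃ b' < b, π b' = i) → (∀ b < r, π b < k) →
    (∀ i < k, ∃ b < r, π b = i) → D s (fun n => π (x n)) m

/-- The states. -/
private structure BSq_st where
  r : ℕ
  x : ℕ → ℕ
  m : ℕ
  str : Str r x m
  le : r ≤ m

private theorem BSq_step {k l : ℕ} (hk : 0 < k) {c : (ℕ → ℕ) → Fin l}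
    {D : ℕ → (ℕ → ℕ) → ℕ → Prop} (hD : Bk k c D) (N : ℕ → ℕ) (s : ℕ) (p : BSq_st) :
    ∃ q : BSq_st, p.r < q.r ∧ p.m + N p.m < q.m ∧ (∀ n < p.m, q.x n = p.x n) ∧
      (∀ j ≤ N p.m, q.x (p.m + j) = p.r + j) ∧ BSq_ab k D s q.r q.x q.m := by
  obtain ⟨x', m', h1, h2, h3, h4⟩ := absorb hk hD s _ (BSq_win (a := N p.m) p.str)
  have hle := p.le
  refine ⟨⟨p.r + N p.m + 1, x', m', h3, by omega⟩, ?_, ?_, ?_, ?_, h4⟩
  · show p.r < p.r + N p.m + 1
    omega
  · show p.m + N p.m < m'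
    omega
  · intro n hn
    show x' n = p.x n
    rw [h2 n (by omega), if_pos hn]
  · intro j hj
    show x' (p.m + j) = p.r + j
    rw [h2 _ (by omega), if_neg (by omega)]
    omega

theorem seqn {k l : ℕ} (hk : 0 < k) {c : (ℕ → ℕ) → Fin l} {D : ℕ → (ℕ → ℕ) → ℕ → Prop}
    (hD : Bk k c D) (N : ℕ → ℕ) :
    ∃ (x : ℕ → ℕ) (m r : ℕ → ℕ), InfPart x ∧ (∀ s, m s < m (s + 1)) ∧ (∀ s, r s < r (s + 1)) ∧
      (∀ s, r s ≤ m s) ∧ (∀ s, Str (r s) x (m s)) ∧
      (∀ s, ∀ j ≤ N (m s), x (m s + j) = r s + j) ∧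
      ∀ s, ∀ π : ℕ → ℕ, (∀ b < r (s + 1), ∀ i < π b, ∃ b' < b, π b' = i) →
        (∀ b < r (s + 1), π b < k) → (∀ i < k, ∃ b < r (s + 1), π b = i) →
          D s (fun n => π (x n)) (m (s + 1)) := by
  choose nxt h1 h2 h3 h4 h5 using BSq_step hk hD N
  let p0 : BSq_st := ⟨0, fun _ => 0, 0, ⟨fun n hn => absurd hn (Nat.not_lt_zero n),
    fun n hn => absurd hn (Nat.not_lt_zero n), fun n hn => absurd hn (Nat.not_lt_zero n)⟩, le_rfl⟩
  let S : ℕ → BSq_st := fun s => Nat.rec p0 (fun s p => nxt s p) s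
  have hS : ∀ s, S (s + 1) = nxt s (S s) := fun s => rfl
  have a1 : ∀ s, (S s).r < (S (s + 1)).r := fun s => h1 s (S s)
  have a2 : ∀ s, (S s).m + N (S s).m < (S (s + 1)).m := fun s => h2 s (S s)
  have a3 : ∀ s, ∀ n < (S s).m, (S (s + 1)).x n = (S s).x n := fun s => h3 s (S s)
  have a4 : ∀ s, ∀ j ≤ N (S s).m, (S (s + 1)).x ((S s).m + j) = (S s).r + j := fun s => h4 s (S s)
  have a5 : ∀ s, BSq_ab k D s (S (s + 1)).r (S (s + 1)).x (S (s + 1)).m := fun s => h5 s (S s)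
  have b1 : ∀ s, s ≤ (S s).r := by
    intro s
    induction s with
    | zero => exact Nat.zero_le _
    | succ s ih =>
      have := a1 s
      omega
  have b2 : ∀ s, s ≤ (S s).m := fun s => (b1 s).trans (S s).le
  have b3 : ∀ s t, s ≤ t → (S s).m ≤ (S t).m ∧ ∀ n < (S s).m, (S t).x n = (S s).x n := by
    intro s t hst
    induction t, hst using Nat.le_induction with
    | base => exact ⟨le_rfl, fun n _ => rfl⟩
    | succ t _ ih =>
      have h6 := a2 t
      refine ⟨by omega, fun n hn => ?_⟩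
      rw [a3 t n (by omega)]
      exact ih.2 n hn
  have b4 : ∀ s, ∀ n < (S s).m, (S (n + 1)).x n = (S s).x n := by
    intro s n hn
    rcases le_total s (n + 1) with h | h
    · exact (b3 s (n + 1) h).2 n hn
    · have h6 := b2 (n + 1)
      exact ((b3 (n + 1) s h).2 n (by omega)).symm
  have b5 : ∀ s, Str (S s).r (fun n => (S (n + 1)).x n) (S s).m := fun s =>
    BSq_congr (S s).str (b4 s)
  refine ⟨fun n => (S (n + 1)).x n, fun s => (S s).m, fun s => (S s).r, ⟨fun n i hi => ?_,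
    fun i => ?_⟩, fun s => ?_, a1, fun s => (S s).le, b5, fun s j hj => ?_,
    fun s π c1 c2 c3 => ?_⟩
  · have h6 := b2 (n + 1)
    exact (b5 (n + 1)).num n (by omega) i hi
  · have h6 := b1 (i + 1)
    obtain ⟨n, -, hn⟩ := (b5 (i + 1)).all i (by omega)
    exact ⟨n, hn⟩
  · have := a2 s
    show (S s).m < (S (s + 1)).m
    omega
  · have h6 := a2 s
    have hj' : j ≤ N (S s).m := hj
    show (S ((S s).m + j + 1)).x ((S s).m + j) = (S s).r + j
    rw [b4 (s + 1) _ (by omega)]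
    exact a4 s j hj'
  · refine hD.cgr s _ _ _ (a5 s π c1 c2 c3) fun n hn => ?_
    show π ((S (n + 1)).x n) = π ((S (s + 1)).x n)
    rw [b4 (s + 1) n hn]

end Pool.Agent.DC
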