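import Pool.Agent.H.MP_b2838e_lc.C.Stg

/-!
# Module Fus: fusion

Proof of `fusion`. Let `F s` be from `stage k l s`, `G 0 i = i`, `G (s + 1) i = ∑ j ∈ range (F s i + 1), G s j`, `g i = G i i`.
Given `c`, build `x_s` (a sequence in the subtype of all `x` with `InfPart x` and `x n ≤ n`): `x_0 n = n`,
`x_(s+1) n = θ_s (x_s n)` with `θ_s` from `stage` for `x_s`. Facts, by induction:
(a) every `i` is `x_s n` for some `n ≤ G s i` (`i = θ_s i'`, `i' ≤ F s i`, `x_s n = i'`, `n ≤ G s i' ≤ G (s+1) i`);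
(b) if `x_s n ≤ s`, then `x_s' n = x_s n` for all `s' ≥ s` (`θ_s i = i` for `i ≤ s`);
(c) if `x_s m = x_s n`, then `x_s' m = x_s' n` for all `s' ≥ s`.
Let `x n = x_n n`; by (b), since `x_n n ≤ n`: `x_s n = x n` for all `s ≥ n`. So `x` agrees with `x_n` on `[0, n]`, and `InfPart x`: the
first part from `x_n`; (a) for `s = i` gives `n ≤ G i i` with `x_i n = i`, so `x n = i` by (b) (compare at the stage `max i n`).
Last part: let `x n0 = s` be the maximum of `x` on `[0, t]`; use the last part of `stage` for this `s` and `x_s`; `y, z` are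
coarser than `x_(s+1)` by (c) (compare `m, n` at the stage `max`). If `i = x_(s+1) n ≤ s`, then `x n = i` by (b), and there
is `m ≤ t` with `x m = i` (`i ≤ s = x n0`, the first part of `InfPart`), so `y n = y m = z m = z n`. If `i < k`, there is
`n ≤ t` with `y n = i`, `b = x n ≤ s`; there is `m` with `x_(s+1) m = b` (`InfPart`), `x m = b` by (b), `y m = y n = i`.

Proof of `reduction`: `g i = ∑ k ∈ range (i + 1), ∑ l ∈ range (i + 1), g_(k,l) i`, `i₀ = max k l`.
-/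

set_option autoImplicit false

namespace Pool.Agent.DC

open Pool.Agent.DR

/-- The bounds of the stages. -/
private def Fus_G (F : ℕ → ℕ → ℕ) : ℕ → ℕ → ℕ
  | 0, i => i
  | s + 1, i => ∑ j ∈ Finset.range (F s i + 1), Fus_G F s j

private theorem Fus_abs {k l : ℕ} {c : (ℕ → ℕ) → Fin l} (F x θ : ℕ → ℕ → ℕ)
    (h0 : ∀ n, x 0 n = n) (hs : ∀ s n, x (s + 1) n = θ s (x s n)) (hinf : ∀ s, InfPart (x s))
    (hle : ∀ s n, x s n ≤ n) (hθ : ∀ s, ∀ i ≤ s, θ s i = i)
    (hF : ∀ s i, ∃ i' ≤ F s i, θ s i' = i)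
    (hlast : ∀ s y z, KPart k y → KPart k z → Coarser y (x (s + 1)) → Coarser z (x (s + 1)) →
      (∀ n, x (s + 1) n ≤ s → y n = z n) → (∀ i < k, ∃ n, x (s + 1) n ≤ s ∧ y n = i) → c y = c z) :
    ∃ X, InfPart X ∧ (∀ i, ∃ n ≤ Fus_G F i i, X n = i) ∧
      ∀ y z t, KPart k y → KPart k z → Coarser y X → Coarser z X → (∀ n ≤ t, y n = z n) →
        (∀ i < k, ∃ n ≤ t, y n = i) → c y = c z := by
  -- fact (a)
  have ha : ∀ s i, ∃ n ≤ Fus_G F s i, x s n = i := by
    intro s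
    induction s with
    | zero => exact fun i => ⟨i, le_rfl, h0 i⟩
    | succ s ih =>
      intro i
      obtain ⟨i', hi', e⟩ := hF s i
      obtain ⟨n, hn, en⟩ := ih i'
      refine ⟨n, hn.trans ?_, by rw [hs, en, e]⟩
      exact Finset.single_le_sum (f := fun j => Fus_G F s j) (fun _ _ => Nat.zero_le _)
        (Finset.mem_range.2 (Nat.lt_succ_of_le hi'))
  -- fact (b)
  have hb : ∀ s n, x s n ≤ s → ∀ s', s ≤ s' → x s' n = x s n := by
    intro s n h s' hs'
    induction s', hs' using Nat.le_induction with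
    | base => rfl
    | succ s' hs' ih => rw [hs, ih, hθ s' _ (h.trans hs')]
  -- fact (c)
  have hc : ∀ s m n, x s m = x s n → ∀ s', s ≤ s' → x s' m = x s' n := by
    intro s m n h s' hs'
    induction s', hs' using Nat.le_induction with
    | base => exact h
    | succ s' hs' ih => rw [hs, hs, ih]
  have hd : ∀ n s, n ≤ s → x s n = x n n := fun n s h => hb n n (hle n n) s h
  have hbX : ∀ s n, x s n ≤ s → x n n = x s n := fun s n h => by
    rw [← hd n (max s n) (le_max_right _ _), hb s n h _ (le_max_left _ _)]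
  have hX : InfPart (fun n => x n n) := by
    refine ⟨fun n i hi => ?_, fun i => ?_⟩
    · obtain ⟨m, hm, e⟩ := (hinf n).1 n i hi
      exact ⟨m, hm, by show x m m = i; rw [← hd m n hm.le, e]⟩
    · obtain ⟨n, -, e⟩ := ha i i
      exact ⟨n, by show x n n = i; rw [hbX i n e.le, e]⟩
  refine ⟨fun n => x n n, hX, fun i => ?_, ?_⟩
  · obtain ⟨n, hn, e⟩ := ha i i
    exact ⟨n, hn, by show x n n = i; rw [hbX i n e.le, e]⟩
  · intro y z t hy hz hyX hzX hyz hk
    obtain ⟨n0, hn0, hmax⟩ := Finset.exists_max_image (Finset.range (t + 1)) (fun n => x n n)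
      ⟨0, Finset.mem_range.2 (Nat.succ_pos t)⟩
    have hn0' : n0 ≤ t := Nat.lt_succ_iff.1 (Finset.mem_range.1 hn0)
    have hmax' : ∀ n ≤ t, x n n ≤ x n0 n0 := fun n hn =>
      hmax n (Finset.mem_range.2 (Nat.lt_succ_of_le hn))
    have hcoarse : ∀ w : ℕ → ℕ, Coarser w (fun n => x n n) → ∀ s, Coarser w (x s) := by
      intro w hw s m n h
      apply hw
      show x m m = x n n
      rw [← hd m (max s (max m n)) ((le_max_left _ _).trans (le_max_right _ _)),
        ← hd n (max s (max m n)) ((le_max_right _ _).trans (le_max_right _ _))]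
      exact hc s m n h _ (le_max_left _ _)
    refine hlast (x n0 n0) y z hy hz (hcoarse y hyX _) (hcoarse z hzX _) ?_ ?_
    · intro n hn
      have e : x n n = x (x n0 n0 + 1) n := hbX _ n (hn.trans (Nat.le_succ _))
      have hm : ∃ m ≤ t, x m m = x n n := by
        rcases Nat.lt_or_ge (x n n) (x n0 n0) with h | h
        · obtain ⟨m, hm, em⟩ := hX.1 n0 (x n n) h
          exact ⟨m, hm.le.trans hn0', em⟩
        · exact ⟨n0, hn0', le_antisymm h (by rw [e]; exact hn)⟩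
      obtain ⟨m, hmt, em⟩ := hm
      rw [← hyX m n em, ← hzX m n em, hyz m hmt]
    · intro i hi
      obtain ⟨n, hn, en⟩ := hk i hi
      obtain ⟨m, em⟩ := (hinf (x n0 n0 + 1)).2 (x n n)
      have hle' : x (x n0 n0 + 1) m ≤ x n0 n0 := by rw [em]; exact hmax' n hn
      refine ⟨m, hle', ?_⟩
      have e : x m m = x n n := by rw [hbX _ m (hle'.trans (Nat.le_succ _)), em]
      rw [hyX m n e, en]

theorem fusion (k l : ℕ) : ∃ g : ℕ → ℕ, ∀ (c : (ℕ → ℕ) → Fin l), Cont k c →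
    ∃ x, InfPart x ∧ (∀ i, ∃ n ≤ g i, x n = i) ∧
      ∀ y z t, KPart k y → KPart k z → Coarser y x → Coarser z x → (∀ n ≤ t, y n = z n) →
        (∀ i < k, ∃ n ≤ t, y n = i) → c y = c z := by
  choose F hF using stage k l
  refine ⟨fun i => Fus_G F i i, fun c hc => ?_⟩
  let P : Type := {x : ℕ → ℕ // InfPart x ∧ ∀ n, x n ≤ n}
  have key : ∀ (s : ℕ) (x : P), ∃ θ : ℕ → ℕ, (∀ i ≤ s, θ i = i) ∧ (∀ i, θ i ≤ i) ∧
      InfPart (fun n => θ (x.1 n)) ∧ (∀ i, ∃ i' ≤ F s i, θ i' = i) ∧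
        ∀ y z, KPart k y → KPart k z → Coarser y (fun n => θ (x.1 n)) →
          Coarser z (fun n => θ (x.1 n)) → (∀ n, θ (x.1 n) ≤ s → y n = z n) →
            (∀ i < k, ∃ n, θ (x.1 n) ≤ s ∧ y n = i) → c y = c z :=
    fun s x => hF s c hc x.1 x.2.1 x.2.2
  choose Θ hΘ1 hΘ2 hΘ3 hΘ4 hΘ5 using key
  let X0 : P := ⟨fun n => n, ⟨fun n i hi => ⟨i, hi, rfl⟩, fun i => ⟨i, rfl⟩⟩, fun n => le_rfl⟩
  let nx : ℕ → P → P := fun s x => ⟨fun n => Θ s x (x.1 n), hΘ3 s x,
    fun n => (hΘ2 s x _).trans (x.2.2 n)⟩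
  let X : ℕ → P := fun s => Nat.rec X0 nx s
  exact Fus_abs F (fun s => (X s).1) (fun s => Θ s (X s)) (fun n => rfl) (fun s n => rfl)
    (fun s => (X s).2.1) (fun s => (X s).2.2) (fun s => hΘ1 s (X s)) (fun s => hΘ4 s (X s))
    (fun s => hΘ5 s (X s))

theorem reduction : ∃ g : ℕ → ℕ, ∀ (k l : ℕ) (c : (ℕ → ℕ) → Fin l), Cont k c →
    ∃ x, InfPart x ∧ (∃ i₀, ∀ i ≥ i₀, ∃ n ≤ g i, x n = i) ∧
      ∀ y z t, KPart k y → KPart k z → Coarser y x → Coarser z x → (∀ n ≤ t, y n = z n) →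
        (∀ i < k, ∃ n ≤ t, y n = i) → c y = c z := by
  choose g hg using fusion
  refine ⟨fun i => ∑ k ∈ Finset.range (i + 1), ∑ l ∈ Finset.range (i + 1), g k l i, ?_⟩
  intro k l c hc
  obtain ⟨x, hx, hb, hl⟩ := hg k l c hc
  refine ⟨x, hx, ⟨max k l, fun i hi => ?_⟩, hl⟩
  obtain ⟨n, hn, e⟩ := hb i
  have hk : k ≤ i := (le_max_left k l).trans hi
  have hl' : l ≤ i := (le_max_right k l).trans hi
  refine ⟨n, hn.trans ?_, e⟩
  calc g k l i ≤ ∑ l' ∈ Finset.range (i + 1), g k l' i :=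
        Finset.single_le_sum (f := fun l' => g k l' i) (fun _ _ => Nat.zero_le _)
          (Finset.mem_range.2 (Nat.lt_succ_of_le hl'))
    _ ≤ ∑ k' ∈ Finset.range (i + 1), ∑ l' ∈ Finset.range (i + 1), g k' l' i :=
        Finset.single_le_sum (f := fun k' => ∑ l' ∈ Finset.range (i + 1), g k' l' i)
          (fun _ _ => Nat.zero_le _) (Finset.mem_range.2 (Nat.lt_succ_of_le hk))

end Pool.Agent.DC
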