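import Pool.Agent.H.MP_b2838e_lc.C.BBa
import Pool.Agent.H.MP_b2838e_lc.C.BSq
import Pool.Agent.H.MP_b2838e_lc.C.Fus

/-!
# Module BFin: the reduction of Borel colourings
-/

set_option autoImplicit false

namespace Pool.Agent.DC

open Pool.Agent.DR

private theorem BFin_comp {k : ℕ} {x y : ℕ → ℕ} (hx : InfPart x) (hy : KPart k y) :
    KPart k (fun n => y (x n)) := by
  refine ⟨fun n i hi => ?_, fun n => hy.2.1 _, fun i hi => ?_⟩
  · obtain ⟨b, hb, hbi⟩ := hy.1 (x n) i hi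
    obtain ⟨m, hm, hmb⟩ := hx.1 n b hb
    exact ⟨m, hm, by show y (x m) = i; rw [hmb, hbi]⟩
  · obtain ⟨b, hb⟩ := hy.2.2 i hi
    obtain ⟨n, hn⟩ := hx.2 b
    exact ⟨n, by show y (x n) = i; rw [hn, hb]⟩

private theorem BFin_inf {x y : ℕ → ℕ} (hx : InfPart x) (hy : InfPart y) :
    InfPart (fun n => y (x n)) := by
  refine ⟨fun n i hi => ?_, fun i => ?_⟩
  · obtain ⟨b, hb, hbi⟩ := hy.1 (x n) i hi
    obtain ⟨m, hm, hmb⟩ := hx.1 n b hb
    exact ⟨m, hm, by show y (x m) = i; rw [hmb, hbi]⟩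
  · obtain ⟨b, hb⟩ := hy.2 i
    obtain ⟨n, hn⟩ := hx.2 b
    exact ⟨n, by show y (x n) = i; rw [hn, hb]⟩

private theorem BFin_bd {k : ℕ} {y : ℕ → ℕ} (hy : KPart k y) : ∃ B, ∀ i < k, ∃ b < B, y b = i := by
  have h1 : ∀ i, ∃ b, i < k → y b = i := by
    intro i
    by_cases h : i < k
    · obtain ⟨b, hb⟩ := hy.2.2 i h
      exact ⟨b, fun _ => hb⟩
    · exact ⟨0, fun h' => absurd h' h⟩
  choose b hb using h1
  refine ⟨∑ i ∈ Finset.range k, (b i + 1), fun i hi => ⟨b i, ?_, hb i hi⟩⟩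
  exact Finset.single_le_sum (f := fun i => b i + 1) (fun _ _ => Nat.zero_le _)
    (Finset.mem_range.2 hi)

private theorem BFin_first {x : ℕ → ℕ} (hx : InfPart x) (b : ℕ) :
    ∃ n, x n = b ∧ ∀ m < n, x m < b := Stg_first hx b

private theorem BFin_id : InfPart (fun n => n) :=
  ⟨fun _ i hi => ⟨i, hi, rfl⟩, fun i => ⟨i, rfl⟩⟩

/-- The colouring of the blocks is continuous. -/
private theorem BFin_cont {k l : ℕ} {c : (ℕ → ℕ) → Fin l} {D : ℕ → (ℕ → ℕ) → ℕ → Prop}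
    (hD : Bk k c D) {x : ℕ → ℕ} {m r : ℕ → ℕ} (hx : InfPart x) (hr : ∀ s, r s < r (s + 1))
    (hStr : ∀ s, Str (r s) x (m s))
    (hDx : ∀ s, ∀ π : ℕ → ℕ, (∀ b < r (s + 1), ∀ i < π b, ∃ b' < b, π b' = i) →
      (∀ b < r (s + 1), π b < k) → (∀ i < k, ∃ b < r (s + 1), π b = i) →
        D s (fun n => π (x n)) (m (s + 1))) :
    Cont k (fun y => c (fun n => y (x n))) := by
  have hrm : StrictMono r := strictMono_nat_of_lt_succ hr
  intro y hy
  obtain ⟨B, hB⟩ := BFin_bd hy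
  have hgen : ∀ z, KPart k z → (∀ i < k, ∃ b < B, z b = i) → ∀ s ≥ B,
      D s (fun n => z (x n)) (m (s + 1)) := by
    intro z hz hzB s hs
    refine hDx s z (fun b _ i hi => hz.1 b i hi) (fun b _ => hz.2.1 b) fun i hi => ?_
    obtain ⟨b, hb, hbi⟩ := hzB i hi
    have h1 := hrm.le_apply (x := s + 1)
    exact ⟨b, by omega, hbi⟩
  refine ⟨r (B + 1), fun z hz hzy => ?_⟩
  have h1 := hrm.le_apply (x := B + 1)
  have hzB : ∀ i < k, ∃ b < B, z b = i := by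
    intro i hi
    obtain ⟨b, hb, hbi⟩ := hB i hi
    exact ⟨b, hb, by rw [hzy b (by omega), hbi]⟩
  symm
  refine hD.lim _ _ B (m (B + 1)) (BFin_comp hx hy) (BFin_comp hx hz) (hgen y hy hB B le_rfl)
    (fun n hn => hzy _ ((hStr (B + 1)).lt n hn)) (fun S => ?_) (fun S => ?_)
  · exact ⟨max S B, le_max_left _ _, _, hgen y hy hB _ (le_max_right _ _)⟩
  · exact ⟨max S B, le_max_left _ _, _, hgen z hz hzB _ (le_max_right _ _)⟩

theorem baire_reduction : ∃ g : ℕ → ℕ, ∀ (k l : ℕ) (c : (ℕ → ℕ) → Fin l),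
    Pool.Agent.DB.Bor k c ∨ BaireCol k c → ∀ h : ℕ → ℕ,
    ∃ x, InfPart x ∧ (∀ m₀, ∃ m ≥ m₀, ∀ i, m ≤ i → i ≤ h m → ∃ n ≤ g i, x n = i) ∧
      ∀ y z t, KPart k y → KPart k z → Coarser y x → Coarser z x → (∀ n ≤ t, y n = z n) →
        (∀ i < k, ∃ n ≤ t, y n = i) → c y = c z := by
  obtain ⟨g, hg⟩ := reduction
  refine ⟨fun i => i + g i, fun k l c hc h => ?_⟩
  rcases Nat.eq_zero_or_pos k with rfl | hk
  · exact ⟨fun n => n, BFin_id, fun m₀ => ⟨m₀, le_rfl, fun i _ _ => ⟨i, Nat.le_add_right _ _, rfl⟩⟩,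
      fun y z t hy => absurd (hy.2.1 0) (Nat.not_lt_zero _)⟩
  obtain ⟨D, hD⟩ := baireP (hc.elim baireCol_of_bor id)
  obtain ⟨x0, m, r, hx0, hm, hr, hrm, hStr, hwin, hDx⟩ :=
    seqn hk hD (fun m => ∑ i ∈ Finset.range (h m + 1), g i)
  obtain ⟨x', hx', ⟨i0, hi0⟩, hred⟩ := hg k l _ (BFin_cont hD hx0 hr hStr hDx)
  have hmm : StrictMono m := strictMono_nat_of_lt_succ hm
  refine ⟨fun n => x' (x0 n), BFin_inf hx0 hx', fun i₁ => ?_, ?_⟩
  · obtain ⟨s, hs⟩ : ∃ s, s = max i0 i₁ := ⟨_, rfl⟩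
    have h1 := hmm.le_apply (x := s)
    have h2 : i0 ≤ s := hs ▸ le_max_left _ _
    have h3 : i₁ ≤ s := hs ▸ le_max_right _ _
    refine ⟨m s, by omega, fun i hi hi' => ?_⟩
    obtain ⟨b, hb, hbi⟩ := hi0 i (by omega)
    rcases Nat.lt_or_ge b (r s) with h4 | h4
    · obtain ⟨n, hn, hnb⟩ := (hStr s).all b h4
      exact ⟨n, by show n ≤ i + g i; omega, by show x' (x0 n) = i; rw [hnb, hbi]⟩
    · obtain ⟨j, rfl⟩ : ∃ j, b = r s + j := ⟨b - r s, by omega⟩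
      refine ⟨m s + j, by show m s + j ≤ i + g i; omega, ?_⟩
      show x' (x0 (m s + j)) = i
      have h5 : g i ≤ ∑ i ∈ Finset.range (h (m s) + 1), g i :=
        Finset.single_le_sum (f := g) (fun _ _ => Nat.zero_le _)
          (Finset.mem_range.2 (Nat.lt_succ_of_le hi'))
      rw [hwin s j (show j ≤ ∑ i ∈ Finset.range (h (m s) + 1), g i by omega), hbi]
  · intro y z t hy hz hyx hzx hyz hall
    choose p hp hp' using BFin_first hx0
    have hK : ∀ y : ℕ → ℕ, KPart k y → Coarser y (fun n => x' (x0 n)) →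
        (∀ n, y (p (x0 n)) = y n) ∧ KPart k (fun b => y (p b)) ∧ Coarser (fun b => y (p b)) x' := by
      intro y hy hyx
      have h1 : ∀ n, y (p (x0 n)) = y n := fun n => hyx _ _ (by
        show x' (x0 (p (x0 n))) = x' (x0 n)
        rw [hp])
      refine ⟨h1, ⟨fun b i hi => ?_, fun b => hy.2.1 _, fun i hi => ?_⟩, fun b b' hbb => ?_⟩
      · obtain ⟨n, hn, hni⟩ := hy.1 (p b) i hi
        exact ⟨x0 n, hp' b n hn, by show y (p (x0 n)) = i; rw [h1, hni]⟩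
      · obtain ⟨n, hn⟩ := hy.2.2 i hi
        exact ⟨x0 n, by show y (p (x0 n)) = i; rw [h1, hn]⟩
      · refine hyx _ _ ?_
        show x' (x0 (p b)) = x' (x0 (p b'))
        rw [hp, hp, hbb]
    obtain ⟨hy1, hy2, hy3⟩ := hK y hy hyx
    obtain ⟨hz1, hz2, hz3⟩ := hK z hz hzx
    obtain ⟨n0, hn0, hmax⟩ := Finset.exists_max_image (Finset.range (t + 1)) x0
      ⟨0, Finset.mem_range.2 (Nat.succ_pos t)⟩
    have hn0' : n0 ≤ t := Nat.le_of_lt_succ (Finset.mem_range.1 hn0)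
    have hred' := hred (fun b => y (p b)) (fun b => z (p b)) (x0 n0) hy2 hz2 hy3 hz3
      (fun b hb => ?_) (fun i hi => ?_)
    · have e1 : (fun n => y (p (x0 n))) = y := funext hy1
      have e2 : (fun n => z (p (x0 n))) = z := funext hz1
      have h3 : c (fun n => y (p (x0 n))) = c (fun n => z (p (x0 n))) := hred'
      rwa [e1, e2] at h3
    · obtain ⟨n, hn, hnb⟩ : ∃ n ≤ n0, x0 n = b := by
        rcases hb.lt_or_eq with h | h
        · obtain ⟨n, hn, hnb⟩ := hx0.1 n0 b h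
          exact ⟨n, hn.le, hnb⟩
        · exact ⟨n0, le_rfl, h.symm⟩
      show y (p b) = z (p b)
      rw [← hnb, hy1, hz1]
      exact hyz n (by omega)
    · obtain ⟨n, hn, hni⟩ := hall i hi
      refine ⟨x0 n, hmax n (Finset.mem_range.2 (by omega)), ?_⟩
      show y (p (x0 n)) = i
      rw [hy1, hni]

end Pool.Agent.DC
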