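import Mathlib

/-!
# Module Cpd: compactness

Proof. `ℕ → Fin a` is compact. For `u` let `m u` be as in `h`; the sets `{v | ∀ n < m u, v n = u n}` are open (finite
intersection of preimages of points of the discrete space `Fin a`). Take a finite subcover
(`isCompact_univ.elim_nhds_subcover`), and let `N` be the sum of the `m u` of the subcover.
-/

set_option autoImplicit false

namespace Pool.Agent.DC

/-- A locally constant function depends only on finitely many coordinates. -/
theorem fin_dep {a : ℕ} {K : Type} (d : (ℕ → Fin a) → K)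
    (h : ∀ u, ∃ m, ∀ v, (∀ n < m, v n = u n) → d v = d u) :
    ∃ N, ∀ u v, (∀ n < N, u n = v n) → d u = d v := by
  choose m hm using h
  have hU : ∀ u : ℕ → Fin a, u ∈ (Set.univ : Set (ℕ → Fin a)) →
      {v : ℕ → Fin a | ∀ n < m u, v n = u n} ∈ nhds u := by
    intro u _
    have h1 : {v : ℕ → Fin a | ∀ n < m u, v n = u n} =
        ⋂ n ∈ Finset.range (m u), (fun v : ℕ → Fin a => v n) ⁻¹' {u n} := by
      ext v
      simp
    rw [h1]
    refine IsOpen.mem_nhds ?_ ?_
    · exact isOpen_biInter_finset fun n _ => (isOpen_discrete _).preimage (continuous_apply n)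
    · simp
  obtain ⟨t, -, ht⟩ := isCompact_univ.elim_nhds_subcover _ hU
  refine ⟨t.sup m, fun u v huv => ?_⟩
  have h2 := ht (Set.mem_univ u)
  rw [Set.mem_iUnion₂] at h2
  obtain ⟨w, hw, huw⟩ := h2
  have h3 : m w ≤ t.sup m := Finset.le_sup hw
  have h4 : d u = d w := hm w u huw
  have h5 : d v = d w := hm w v fun n hn => by
    rw [← huv n (lt_of_lt_of_le hn h3)]
    exact huw n hn
  rw [h4, h5]

end Pool.Agent.DC
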