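import Mathlib

/-!
# Module Hj: windows, by the Hales-Jewett theorem

Proof of `windows`. Let `H` be the dimension of Hales-Jewett: for all finite types `K'` there is `r` such that every
`C : (Fin r → Fin a) → K'` has a line (`Combinatorics.Line`) on which `C` is constant
(`Combinatorics.Line.exists_mono_in_high_dimension`, `Fintype.equivFin`); `r > 0` as lines are proper.
`F 0 = 0`, `F (N + 1) = F N + r` where `r` is for `K' = (Fin (F N) → Fin a) → K`.
By induction on `N`: for all `d` which depend only on the coordinates `< F N` there is `V`. `N = 0`: `d` is constant, let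
`V n = inr (Nat.findGreatest (fun i => F i ≤ n) n)`. `N + 1`: let `C w u = d (glue u w)` with `glue u w n = u n` for
`n < F N`, `= w (n - F N)` for `F N ≤ n < F (N + 1)` and anything else. Take a line `L`, `C (L b) = q` for all `b`, and
`d' u = d (glue u (L 0))`, which depends only on the coordinates `< F N`; take `V'` for `d'`, and let `V n` be the line for
`F N ≤ n < F (N + 1)` (constants `inl b`, variable `inr N`) and `V' n` otherwise. Then
`d (ev V z) = d (glue (ev V' z) (L (z N))) = q (ev V' z) = d' (ev V' z)`.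
-/

set_option autoImplicit false

namespace Pool.Agent.DC

/-- The value of a word with constants in `Fin a` and variables, the value of the variable `m` being `z m`. -/
def ev {a : ℕ} (V : ℕ → Fin a ⊕ ℕ) (z : ℕ → Fin a) (n : ℕ) : Fin a :=
  match V n with
  | Sum.inl b => b
  | Sum.inr m => z m

/-- Every variable occurs, and the variable `m` occurs only in the window `[F m, F (m + 1))`. -/
structure Good {a : ℕ} (F : ℕ → ℕ) (V : ℕ → Fin a ⊕ ℕ) : Prop where
  win : ∀ n m, V n = Sum.inr m → F m ≤ n ∧ n < F (m + 1)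
  ex : ∀ m, ∃ n, V n = Sum.inr m

/-- Hales-Jewett on `Fin r`, for all finite colour types, with a positive dimension. -/
private theorem Hj_line (a : ℕ) (ha : 0 < a) (K' : Type) [Finite K'] :
    ∃ r : ℕ, 0 < r ∧ ∀ C : (Fin r → Fin a) → K', ∃ L : Fin r → Option (Fin a),
      (∃ i, L i = none) ∧ ∃ q, ∀ b, C (fun i => (L i).getD b) = q := by
  rcases isEmpty_or_nonempty K' with hK | ⟨⟨k0⟩⟩
  · exact ⟨1, one_pos, fun C => (hK.false (C fun _ => ⟨0, ha⟩)).elim⟩
  · obtain ⟨ι, _, h⟩ := Combinatorics.Line.exists_mono_in_high_dimension (Fin a) K'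
    have hι : Nonempty ι := by
      obtain ⟨l, _⟩ := h fun _ => k0
      exact ⟨l.proper.choose⟩
    let e := Fintype.equivFin ι
    refine ⟨Fintype.card ι, Fintype.card_pos, fun C => ?_⟩
    obtain ⟨l, q, hq⟩ := h fun x => C (x ∘ e.symm)
    obtain ⟨i, hi⟩ := l.proper
    refine ⟨fun j => l.idxFun (e.symm j), ⟨e i, ?_⟩, q, fun b => ?_⟩
    · show l.idxFun (e.symm (e i)) = none
      rw [Equiv.symm_apply_apply]
      exact hi
    · exact hq b

/-- The induction step. -/
private theorem Hj_step {a : ℕ} (ha : 0 < a) {K : Type} (F : ℕ → ℕ) (hmono : StrictMono F) (N r : ℕ)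
    (hr : F (N + 1) = F N + r)
    (hC : ∀ C : (Fin r → Fin a) → ((Fin (F N) → Fin a) → K), ∃ L : Fin r → Option (Fin a),
      (∃ i, L i = none) ∧ ∃ q, ∀ b, C (fun i => (L i).getD b) = q)
    (IH : ∀ d : (ℕ → Fin a) → K, (∀ u v, (∀ n < F N, u n = v n) → d u = d v) →
        ∃ V, Good F V ∧ ∀ z z', d (ev V z) = d (ev V z'))
    (d : (ℕ → Fin a) → K) (hd : ∀ u v, (∀ n < F (N + 1), u n = v n) → d u = d v) :
    ∃ V, Good F V ∧ ∀ z z', d (ev V z) = d (ev V z') := by
  let g : (Fin (F N) → Fin a) → (Fin r → Fin a) → ℕ → Fin a := fun u w n =>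
    if h : n < F N then u ⟨n, h⟩ else if h' : n - F N < r then w ⟨n - F N, h'⟩ else ⟨0, ha⟩
  obtain ⟨L, ⟨i0, hi0⟩, q, hq⟩ := hC fun w u => d (g u w)
  obtain ⟨V', hV', hc⟩ := IH (fun u => q fun i => u i) (by
    intro u v huv
    show q _ = q _
    congr 1
    funext i
    exact huv i i.2)
  let V : ℕ → Fin a ⊕ ℕ := fun n =>
    if h : F N ≤ n ∧ n - F N < r then (L ⟨n - F N, h.2⟩).elim (Sum.inr N) Sum.inl else V' n
  have hV1 : ∀ n (h : F N ≤ n ∧ n - F N < r), V n = (L ⟨n - F N, h.2⟩).elim (Sum.inr N) Sum.inl :=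
    fun n h => dif_pos h
  have hV2 : ∀ n, ¬ (F N ≤ n ∧ n - F N < r) → V n = V' n := fun n h => dif_neg h
  refine ⟨V, ⟨?_, ?_⟩, ?_⟩
  · intro n m hn
    by_cases h : F N ≤ n ∧ n - F N < r
    · rw [hV1 n h] at hn
      rcases hL : L ⟨n - F N, h.2⟩ with _ | b
      · rw [hL] at hn
        have hm : N = m := Sum.inr.inj hn
        subst hm
        omega
      · rw [hL] at hn
        exact absurd hn (by simp)
    · rw [hV2 n h] at hn
      exact hV'.win n m hn
  · intro m
    by_cases hm : m = N
    · subst hm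
      refine ⟨F m + i0, ?_⟩
      have h : F m ≤ F m + i0 ∧ F m + i0 - F m < r := by
        have := i0.2
        omega
      rw [hV1 _ h]
      have h2 : (⟨F m + i0 - F m, h.2⟩ : Fin r) = i0 := by
        apply Fin.ext
        show F m + (i0 : ℕ) - F m = i0
        omega
      rw [h2, hi0]
      rfl
    · obtain ⟨n, hn⟩ := hV'.ex m
      refine ⟨n, ?_⟩
      rw [hV2, hn]
      intro h
      have hw := hV'.win n m hn
      rcases lt_or_gt_of_ne hm with h1 | h1
      · have h3 : F (m + 1) ≤ F N := hmono.monotone h1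
        omega
      · have h3 : F (N + 1) ≤ F m := hmono.monotone h1
        omega
  · have key : ∀ z, d (ev V z) = q fun i => ev V' z i := by
      intro z
      rw [← hq (z N)]
      show d (ev V z) = d (g (fun i => ev V' z i) fun i => (L i).getD (z N))
      apply hd
      intro n hn
      by_cases h1 : n < F N
      · have h2 : g (fun i => ev V' z i) (fun i => (L i).getD (z N)) n = ev V' z n := dif_pos h1
        rw [h2]
        unfold ev
        rw [hV2 n (by omega)]
      · have h3 : n - F N < r := by omega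
        have h2 : g (fun i => ev V' z i) (fun i => (L i).getD (z N)) n
            = (L ⟨n - F N, h3⟩).getD (z N) := (dif_neg h1).trans (dif_pos h3)
        rw [h2]
        unfold ev
        rw [hV1 n ⟨not_lt.mp h1, h3⟩]
        rcases L ⟨n - F N, h3⟩ with _ | b <;> rfl
    intro z z'
    rw [key, key]
    exact hc z z'

theorem windows (a : ℕ) (ha : 0 < a) (K : Type) [Finite K] :
    ∃ F : ℕ → ℕ, F 0 = 0 ∧ (∀ i, F i < F (i + 1)) ∧
      ∀ (N : ℕ) (d : (ℕ → Fin a) → K), (∀ u v, (∀ n < N, u n = v n) → d u = d v) →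
        ∃ V, Good F V ∧ ∀ z z', d (ev V z) = d (ev V z') := by
  choose R hR0 hR using fun f : ℕ => Hj_line a ha ((Fin f → Fin a) → K)
  obtain ⟨F, hF0, hF⟩ : ∃ F : ℕ → ℕ, F 0 = 0 ∧ ∀ N, F (N + 1) = F N + R (F N) :=
    ⟨fun N => Nat.rec 0 (fun _ f => f + R f) N, rfl, fun _ => rfl⟩
  have hmono : StrictMono F := strictMono_nat_of_lt_succ fun N => by
    rw [hF N]
    have := hR0 (F N)
    omega
  refine ⟨F, hF0, fun i => hmono (Nat.lt_succ_self i), ?_⟩
  have main : ∀ (N : ℕ) (d : (ℕ → Fin a) → K), (∀ u v, (∀ n < F N, u n = v n) → d u = d v) →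
        ∃ V, Good F V ∧ ∀ z z', d (ev V z) = d (ev V z') := by
    intro N
    induction N with
    | zero =>
      intro d hd
      refine ⟨fun n : ℕ => Sum.inr (Nat.findGreatest (fun i : ℕ => F i ≤ n) n), ⟨?_, ?_⟩, ?_⟩
      · intro n m hn
        have hm : Nat.findGreatest (fun i => F i ≤ n) n = m := Sum.inr.inj hn
        have h1 : F (Nat.findGreatest (fun i => F i ≤ n) n) ≤ n :=
          Nat.findGreatest_spec (P := fun i => F i ≤ n) (Nat.zero_le n) (hF0.le.trans (Nat.zero_le n))
        rw [hm] at h1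
        refine ⟨h1, ?_⟩
        by_contra hlt
        have h2 : F (m + 1) ≤ n := not_lt.mp hlt
        have h3 : m + 1 ≤ n := le_trans hmono.le_apply h2
        have h4 : m + 1 ≤ Nat.findGreatest (fun i => F i ≤ n) n :=
          Nat.le_findGreatest h3 h2
        omega
      · intro m
        refine ⟨F m, ?_⟩
        show Sum.inr _ = Sum.inr m
        congr 1
        apply le_antisymm
        · have h1 : F (Nat.findGreatest (fun i => F i ≤ F m) (F m)) ≤ F m :=
            Nat.findGreatest_spec (P := fun i => F i ≤ F m) (Nat.zero_le _)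
              (hF0.le.trans (Nat.zero_le _))
          exact hmono.le_iff_le.mp h1
        · exact Nat.le_findGreatest hmono.le_apply (le_refl _)
      · intro z z'
        exact hd _ _ fun n hn => absurd (hF0 ▸ hn) (Nat.not_lt_zero n)
    | succ N IH => exact fun d hd => Hj_step ha F hmono N (R (F N)) (hF N) (hR (F N)) IH d hd
  intro N d hd
  exact main N d fun u v huv => hd u v fun n hn => huv n (lt_of_lt_of_le hn hmono.le_apply)

end Pool.Agent.DC
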