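import Pool.Agent.H.MP_b2838e_lc.C.RDef

/-!
# Module RCo: composition of words
-/

set_option autoImplicit false

namespace Pool.Agent.DC

theorem ev_cmp {a : ℕ} (V V' : ℕ → Fin a ⊕ ℕ) (z : ℕ → Fin a) :
    ev (cmp V V') z = ev V (ev V' z) := by
  funext n
  unfold ev cmp
  rcases V n with b | m <;> rfl

theorem Wd.mono {F : ℕ → ℕ} (h : Wd F) : StrictMono F := strictMono_nat_of_lt_succ h.lt

theorem Wd.comp {F F' : ℕ → ℕ} (h : Wd F) (h' : Wd F') : Wd (fun i => F (F' i)) :=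
  ⟨by rw [h'.zero, h.zero], fun i => h.mono (h'.lt i)⟩

theorem Good.comp {a : ℕ} {F F' : ℕ → ℕ} {V V' : ℕ → Fin a ⊕ ℕ} (hF : Wd F) (h : Good F V)
    (h' : Good F' V') : Good (fun i => F (F' i)) (cmp V V') := by
  refine ⟨fun n i hi => ?_, fun i => ?_⟩
  · unfold cmp at hi
    rcases hn : V n with b | m
    · rw [hn] at hi
      exact absurd hi (by simp)
    · rw [hn] at hi
      obtain ⟨h1, h2⟩ := h.win n m hn
      obtain ⟨h3, h4⟩ := h'.win m i hi
      exact ⟨(hF.mono.monotone h3).trans h1, lt_of_lt_of_le h2 (hF.mono.monotone h4)⟩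
  · obtain ⟨m, hm⟩ := h'.ex i
    obtain ⟨n, hn⟩ := h.ex m
    refine ⟨n, ?_⟩
    unfold cmp
    rw [hn]
    exact hm

theorem cont_ev {a : ℕ} (V : ℕ → Fin a ⊕ ℕ) : Continuous (ev V) := by
  refine continuous_pi fun n => ?_
  unfold ev
  rcases V n with b | m
  · exact continuous_const
  · exact continuous_apply m

/-- the word without constants -/
theorem good_id {a : ℕ} : Good (fun i => i) (Sum.inr : ℕ → Fin a ⊕ ℕ) :=
  ⟨fun n m h => by
    have h1 : n = m := Sum.inr.inj h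
    omega, fun m => ⟨m, rfl⟩⟩

/-- for all windows there are words -/
theorem good_ex {a : ℕ} (ha : 0 < a) {F : ℕ → ℕ} (hF : Wd F) : ∃ V : ℕ → Fin a ⊕ ℕ, Good F V := by
  classical
  refine ⟨fun n => if h : ∃ m, F m = n then Sum.inr h.choose else Sum.inl ⟨0, ha⟩,
    fun n m hm => ?_, fun m => ⟨F m, ?_⟩⟩
  · revert hm; intro hm
    split_ifs at hm with h
    have h1 := h.choose_spec
    have h2 : h.choose = m := Sum.inr.inj hm
    rw [h2] at h1
    rw [← h1]
    exact ⟨le_rfl, hF.lt m⟩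
  · have h : ∃ m', F m' = F m := ⟨m, rfl⟩
    rw [dif_pos h]
    exact congrArg Sum.inr (hF.mono.injective h.choose_spec)

end Pool.Agent.DC
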