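import Pool.Agent.H.MP_b2838e_lc.Def
import Pool.Agent.H.MP_b2838e_lc.B.Bd
import Pool.Agent.H.MP_b2838e_lc.C.Hj

/-!
# Module RDef: definitions for the reduction of colourings of a given Borel class
-/

set_option autoImplicit false

namespace Pool.Agent.DC

open Pool.Agent.DR

/-- The Borel class `Σ⁰_(1+α)` of a topological space: open sets, and countable unions of complements of
sets of lower classes. -/
inductive Sg {X : Type} [TopologicalSpace X] : Ordinal.{0} → Set X → Prop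
  | opn (α : Ordinal.{0}) (s : Set X) : IsOpen s → Sg α s
  | uni (α : Ordinal.{0}) (f : ℕ → Set X) (β : ℕ → Ordinal.{0}) : (∀ n, β n < α) →
      (∀ n, Sg (β n) (f n)ᶜ) → Sg α (⋃ n, f n)

/-- The classes of the colouring `c` of `(ℕ)^k` are of the class `Σ⁰_(1+α)` in the space `(ℕ)^k`. -/
def Cls (α : Ordinal.{0}) (k : ℕ) {l : ℕ} (c : (ℕ → ℕ) → Fin l) : Prop :=
  ∀ j, ∃ U : Set (ℕ → ℕ), Sg α U ∧ ∀ y, KPart k y → (c y = j ↔ y ∈ U)

/-- Windows. -/
structure Wd (F : ℕ → ℕ) : Prop where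
  zero : F 0 = 0
  lt : ∀ i, F i < F (i + 1)

/-- Composition of words: the variables of `V` are replaced by the letters and variables of `V'`. -/
def cmp {a : ℕ} (V V' : ℕ → Fin a ⊕ ℕ) (n : ℕ) : Fin a ⊕ ℕ :=
  match V n with
  | Sum.inl b => Sum.inl b
  | Sum.inr m => V' m

/-- The word `V` decides the set `s`. -/
def Dcd {a : ℕ} (V : ℕ → Fin a ⊕ ℕ) (s : Set (ℕ → Fin a)) : Prop :=
  (∀ z, ev V z ∈ s) ∨ ∀ z, ev V z ∉ s

end Pool.Agent.DC
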