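import Pool.Agent.H.MP_b2838e_lc.C.RSt

/-!
# Module RFs: fusion for partitions, colourings of a Borel class

As in C/Fus.lean.
-/

set_option autoImplicit false

namespace Pool.Agent.DC

open Pool.Agent.DR

/-- The bounds of the stages. -/
private def RFs_G (F : ℕ → ℕ → ℕ) : ℕ → ℕ → ℕ
  | 0, i => i
  | s + 1, i => ∑ j ∈ Finset.range (F s i + 1), RFs_G F s j

private theorem RFs_abs {k l : ℕ} {c : (ℕ → ℕ) → Fin l} (F x θ : ℕ → ℕ → ℕ)
    (h0 : ∀ n, x 0 n = n) (hs : ∀ s n, x (s + 1) n = θ s (x s n)) (hinf : ∀ s, InfPart (x s))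
    (hle : ∀ s n, x s n ≤ n) (hθ : ∀ s, ∀ i ≤ s, θ s i = i)
    (hF : ∀ s i, ∃ i' ≤ F s i, θ s i' = i)
    (hlast : ∀ s y z, KPart k y → KPart k z → Coarser y (x (s + 1)) → Coarser z (x (s + 1)) →
      (∀ n, x (s + 1) n ≤ s → y n = z n) → (∀ i < k, ∃ n, x (s + 1) n ≤ s ∧ y n = i) → c y = c z) :
    ∃ X, InfPart X ∧ (∀ i, ∃ n ≤ RFs_G F i i, X n = i) ∧
      ∀ y z t, KPart k y → KPart k z → Coarser y X → Coarser z X → (∀ n ≤ t, y n = z n) →
        (∀ i < k, ∃ n ≤ t, y n = i) → c y = c z := by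
  -- fact (a)
  have ha : ∀ s i, ∃ n ≤ RFs_G F s i, x s n = i := by
    intro s
    induction s with
    | zero => exact fun i => ⟨i, le_rfl, h0 i⟩
    | succ s ih =>
      intro i
      obtain ⟨i', hi', e⟩ := hF s i
      obtain ⟨n, hn, en⟩ := ih i'
      refine ⟨n, hn.trans ?_, by rw [hs, en, e]⟩
      exact Finset.single_le_sum (f := fun j => RFs_G F s j) (fun _ _ => Nat.zero_le _)
        (Finset.mem_range.2 (Nat.lt_succ_of_le hi'))
  -- fact (b)
  have hb : ∀ s n, x s n ≤ s → ∀ s', s ≤ s' → x s' n = x s n := by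
    intro s n h s' hs'
    induction s', hs' using Nat.le_induction with
    | base => rfl
    | succ s' hs' ih => rw [hs, ih, hθ s' _ (h.trans hs')]
  -- fact (c)
  have hc : ∀ s m n, x s m = x s n → ∀ s', s ≤ s' → x s' m = x s' n := by
    intro s m n h s' hs'
    induction s', hs' using Nat.le_induction with
    | base => exact h
    | succ s' hs' ih => rw [hs, hs, ih]
  have hd : ∀ n s, n ≤ s → x s n = x n n := fun n s h => hb n n (hle n n) s h
  have hbX : ∀ s n, x s n ≤ s → x n n = x s n := fun s n h => by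
    rw [← hd n (max s n) (le_max_right _ _), hb s n h _ (le_max_left _ _)]
  have hX : InfPart (fun n => x n n) := by
    refine ⟨fun n i hi => ?_, fun i => ?_⟩
    · obtain ⟨m, hm, e⟩ := (hinf n).1 n i hi
      exact ⟨m, hm, by show x m m = i; rw [← hd m n hm.le, e]⟩
    · obtain ⟨n, -, e⟩ := ha i i
      exact ⟨n, by show x n n = i; rw [hbX i n e.le, e]⟩
  refine ⟨fun n => x n n, hX, fun i => ?_, ?_⟩
  · obtain ⟨n, hn, e⟩ := ha i i
    exact ⟨n, hn, by show x n n = i; rw [hbX i n e.le, e]⟩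
  · intro y z t hy hz hyX hzX hyz hk
    obtain ⟨n0, hn0, hmax⟩ := Finset.exists_max_image (Finset.range (t + 1)) (fun n => x n n)
      ⟨0, Finset.mem_range.2 (Nat.succ_pos t)⟩
    have hn0' : n0 ≤ t := Nat.lt_succ_iff.1 (Finset.mem_range.1 hn0)
    have hmax' : ∀ n ≤ t, x n n ≤ x n0 n0 := fun n hn =>
      hmax n (Finset.mem_range.2 (Nat.lt_succ_of_le hn))
    have hcoarse : ∀ w : ℕ → ℕ, Coarser w (fun n => x n n) → ∀ s, Coarser w (x s) := by
      intro w hw s m n h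
      apply hw
      show x m m = x n n
      rw [← hd m (max s (max m n)) ((le_max_left _ _).trans (le_max_right _ _)),
        ← hd n (max s (max m n)) ((le_max_right _ _).trans (le_max_right _ _))]
      exact hc s m n h _ (le_max_left _ _)
    refine hlast (x n0 n0) y z hy hz (hcoarse y hyX _) (hcoarse z hzX _) ?_ ?_
    · intro n hn
      have e : x n n = x (x n0 n0 + 1) n := hbX _ n (hn.trans (Nat.le_succ _))
      have hm : ∃ m ≤ t, x m m = x n n := by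
        rcases Nat.lt_or_ge (x n n) (x n0 n0) with h | h
        · obtain ⟨m, hm, em⟩ := hX.1 n0 (x n n) h
          exact ⟨m, hm.le.trans hn0', em⟩
        · exact ⟨n0, hn0', le_antisymm h (by rw [e]; exact hn)⟩
      obtain ⟨m, hmt, em⟩ := hm
      rw [← hyX m n em, ← hzX m n em, hyz m hmt]
    · intro i hi
      obtain ⟨n, hn, en⟩ := hk i hi
      obtain ⟨m, em⟩ := (hinf (x n0 n0 + 1)).2 (x n n)
      have hle' : x (x n0 n0 + 1) m ≤ x n0 n0 := by rw [em]; exact hmax' n hn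
      refine ⟨m, hle', ?_⟩
      have e : x m m = x n n := by rw [hbX _ m (hle'.trans (Nat.le_succ _)), em]
      rw [hyX m n e, en]

theorem fusionC (α : Ordinal.{0}) (hα : α.card ≤ Cardinal.aleph0) (k l : ℕ) :
    ∃ g : ℕ → ℕ, ∀ (c : (ℕ → ℕ) → Fin l), Cls α k c →
    ∃ x, InfPart x ∧ (∀ i, ∃ n ≤ g i, x n = i) ∧
      ∀ y z t, KPart k y → KPart k z → Coarser y x → Coarser z x → (∀ n ≤ t, y n = z n) →
        (∀ i < k, ∃ n ≤ t, y n = i) → c y = c z := by
  choose F hF using stageC α hα k l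
  refine ⟨fun i => RFs_G F i i, fun c hc => ?_⟩
  let P : Type := {x : ℕ → ℕ // InfPart x ∧ ∀ n, x n ≤ n}
  have key : ∀ (s : ℕ) (x : P), ∃ θ : ℕ → ℕ, (∀ i ≤ s, θ i = i) ∧ (∀ i, θ i ≤ i) ∧
      InfPart (fun n => θ (x.1 n)) ∧ (∀ i, ∃ i' ≤ F s i, θ i' = i) ∧
        ∀ y z, KPart k y → KPart k z → Coarser y (fun n => θ (x.1 n)) →
          Coarser z (fun n => θ (x.1 n)) → (∀ n, θ (x.1 n) ≤ s → y n = z n) →
            (∀ i < k, ∃ n, θ (x.1 n) ≤ s ∧ y n = i) → c y = c z :=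
    fun s x => hF s c hc x.1 x.2.1 x.2.2
  choose Θ hΘ1 hΘ2 hΘ3 hΘ4 hΘ5 using key
  let X0 : P := ⟨fun n => n, ⟨fun n i hi => ⟨i, hi, rfl⟩, fun i => ⟨i, rfl⟩⟩, fun n => le_rfl⟩
  let nx : ℕ → P → P := fun s x => ⟨fun n => Θ s x (x.1 n), hΘ3 s x,
    fun n => (hΘ2 s x _).trans (x.2.2 n)⟩
  let X : ℕ → P := fun s => Nat.rec X0 nx s
  exact RFs_abs F (fun s => (X s).1) (fun s => Θ s (X s)) (fun n => rfl) (fun s n => rfl)
    (fun s => (X s).2.1) (fun s => (X s).2.2) (fun s => hΘ1 s (X s)) (fun s => hΘ4 s (X s))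
    (fun s => hΘ5 s (X s))

theorem reductionC (α : Ordinal.{0}) (hα : α.card ≤ Cardinal.aleph0) :
    ∃ g : ℕ → ℕ, ∀ (k l : ℕ) (c : (ℕ → ℕ) → Fin l), Cls α k c →
    ∃ x, InfPart x ∧ (∃ i₀, ∀ i ≥ i₀, ∃ n ≤ g i, x n = i) ∧
      ∀ y z t, KPart k y → KPart k z → Coarser y x → Coarser z x → (∀ n ≤ t, y n = z n) →
        (∀ i < k, ∃ n ≤ t, y n = i) → c y = c z := by
  choose g hg using fusionC α hα
  refine ⟨fun i => ∑ k ∈ Finset.range (i + 1), ∑ l ∈ Finset.range (i + 1), g k l i, ?_⟩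
  intro k l c hc
  obtain ⟨x, hx, hb, hl⟩ := hg k l c hc
  refine ⟨x, hx, ⟨max k l, fun i hi => ?_⟩, hl⟩
  obtain ⟨n, hn, e⟩ := hb i
  have hk : k ≤ i := (le_max_left k l).trans hi
  have hl' : l ≤ i := (le_max_right k l).trans hi
  refine ⟨n, hn.trans ?_, e⟩
  calc g k l i ≤ ∑ l' ∈ Finset.range (i + 1), g k l' i :=
        Finset.single_le_sum (f := fun l' => g k l' i) (fun _ _ => Nat.zero_le _)
          (Finset.mem_range.2 (Nat.lt_succ_of_le hl'))
    _ ≤ ∑ k' ∈ Finset.range (i + 1), ∑ l' ∈ Finset.range (i + 1), g k' l' i :=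
        Finset.single_le_sum (f := fun k' => ∑ l' ∈ Finset.range (i + 1), g k' l' i)
          (fun _ _ => Nat.zero_le _) (Finset.mem_range.2 (Nat.lt_succ_of_le hk))

/-- Continuous colourings are of class `0`. -/
theorem cls_of_cont {k l : ℕ} {c : (ℕ → ℕ) → Fin l} (hc : Cont k c) : Cls 0 k c := by
  classical
  intro j
  refine ⟨{y | ∃ y', KPart k y' ∧ c y' = j ∧ ∃ m, (∀ z, KPart k z → (∀ n < m, z n = y' n) → c z = c y') ∧
    ∀ n < m, y n = y' n}, Sg.opn _ _ ?_, fun y hy => ⟨fun h => ?_, ?_⟩⟩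
  · refine isOpen_iff_forall_mem_open.2 fun y hy => ?_
    obtain ⟨y', h1, h2, m, h3, h4⟩ := hy
    refine ⟨{z | ∀ n < m, z n = y n}, fun z hz => ⟨y', h1, h2, m, h3, fun n hn => ?_⟩, ?_,
      fun n _ => rfl⟩
    · rw [hz n hn, h4 n hn]
    · have h5 : {z : ℕ → ℕ | ∀ n < m, z n = y n} = Set.pi (Set.Iio m) fun n => {y n} := by
        ext z
        rfl
      rw [h5]
      exact isOpen_set_pi (Set.finite_Iio m) fun _ _ => isOpen_discrete _
  · obtain ⟨m, hm⟩ := hc y hy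
    exact ⟨y, hy, h, m, hm, fun _ _ => rfl⟩
  · rintro ⟨y', h1, h2, m, h3, h4⟩
    rw [h3 y hy h4, h2]

end Pool.Agent.DC
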