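import Pool.Agent.H.MP_b2838e_lc.C.RVe

/-!
# Module RFu: fusion of words

Proof. For `m` let `H m` be the windows of `win_vec` for `C m` and `ι = (Fin m → Fin a)`. Define
`G 0 i = i`, `G (m + 1) i = G m i` for `i ≤ m` and `G (m + 1) (m + i) = G m (m + H m i)` (consistent for `i = 0`); all are `Wd`,
and `G m' i = G m i` for `i ≤ m ≤ m'`. The windows of the limit are `G i i`.
Given `s`, build words `V m` with `Good (G m) (V m)`: `V 0 = inr`, `V (m + 1) = cmp (V m) (W m)`, where `W m i = inr i` for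
`i < m`, and `W m (m + n) = inl b` or `inr (m + i)` if `V' n = inl b` or `inr i`, for the word `V'` of `win_vec` for the sets
`{z' | ev (V m) (τ z') ∈ s m}`, `τ : Fin m → Fin a`, `τ z' i = τ i` for `i < m`, `= z' (i - m)` for `i ≥ m` (continuous in
`z'`, so the set is in `C m` by `hC`). So: if `z, z'` agree below `m`, then `ev (V (m+1)) z ∈ s m ↔ ev (V (m+1)) z' ∈ s m`.
`Good (G (m + 1)) (V (m + 1))`: with `Good.comp` if `W m` is good for `i ↦ i` (`i ≤ m`), `m + H m (i - m)` (`i ≥ m`).
Limit. Facts, by induction on the stage: (a) `V m n = inl b` implies `V m' n = inl b` for `m' ≥ m`; (b) `V m n = inr i` with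
`i < m` implies `V m' n = inr i` for `m' ≥ m`; (c) `V m n = V m n'` implies `V m' n = V m' n'` for `m' ≥ m`;
(d) `V m n = inr i` implies `i ≤ n` (`Wd`: `i ≤ G m i ≤ n`). By (a), (b), (d): `V m n = V (n+1) n` for `m ≥ n + 1`. Let
`V n = V (n + 1) n`. The conclusion for `m`: let `M = m + 1`. For `z` define `z1 i = ev V z (n_i)`, where `V M (n_i) = inr i`
(`Good.ex`). Then `ev V z = ev (V M) z1`: if `V M n = inl b`, then `V n = inl b` by (a) (compare at the stage
`max M (n+1)`); if `V M n = inr i = V M (n_i)`, then `V n = V (n_i)` by (c). And `z1 i = z i` for `i < M` by (b). So if `z, z'`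
agree below `m`, then `z1, z1'` agree below `m`, and `ev V z ∈ s m ↔ ev (V M) z1 ∈ s m ↔ ev (V M) z1' ∈ s m ↔ ev V z' ∈ s m`.
`Good (fun i => G i i) V`: `win`: if `V n = inr i` then `V m n = inr i` for `m ≥ n + 1`, take `m ≥ i + 1` too; then
`G m i = G i i`, `G m (i + 1) = G (i + 1) (i + 1)`. `ex`: take `n` with `V (i+1) n = inr i`; then `V n = inr i` by (b).
-/

set_option autoImplicit false

namespace Pool.Agent.DC

private theorem RFu_abs {a : ℕ} {s : ℕ → Set (ℕ → Fin a)} (K G : ℕ → ℕ → ℕ)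
    (V W : ℕ → ℕ → Fin a ⊕ ℕ) (hV : ∀ m, V (m + 1) = cmp (V m) (W m))
    (hG : ∀ m i, G (m + 1) i = G m (K m i)) (hK : ∀ m, ∀ i ≤ m, K m i = i)
    (hW : ∀ m, ∀ i < m, W m i = Sum.inr i) (hwd : ∀ m, Wd (G m)) (hgood : ∀ m, Good (G m) (V m))
    (hdec : ∀ m z z', (∀ i < m, z i = z' i) → (ev (V (m + 1)) z ∈ s m ↔ ev (V (m + 1)) z' ∈ s m)) :
    ∃ X, Good (fun i => G i i) X ∧
      ∀ m z z', (∀ i < m, z i = z' i) → (ev X z ∈ s m ↔ ev X z' ∈ s m) := by
  have hGle : ∀ i m m', i ≤ m → m ≤ m' → G m' i = G m i := by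
    intro i m m' him hm
    induction m', hm using Nat.le_induction with
    | base => rfl
    | succ m' hm ih => rw [hG, hK m' i (him.trans hm), ih]
  -- fact (a)
  have ha : ∀ m n b, V m n = Sum.inl b → ∀ m', m ≤ m' → V m' n = Sum.inl b := by
    intro m n b h m' hm
    induction m', hm using Nat.le_induction with
    | base => exact h
    | succ m' hm ih =>
      rw [hV]
      unfold cmp
      rw [ih]
  -- fact (b)
  have hb : ∀ m n i, V m n = Sum.inr i → i < m → ∀ m', m ≤ m' → V m' n = Sum.inr i := by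
    intro m n i h hi m' hm
    induction m', hm using Nat.le_induction with
    | base => exact h
    | succ m' hm ih =>
      rw [hV]
      unfold cmp
      rw [ih]
      exact hW m' i (lt_of_lt_of_le hi hm)
  -- fact (c)
  have hc : ∀ m n n', V m n = V m n' → ∀ m', m ≤ m' → V m' n = V m' n' := by
    intro m n n' h m' hm
    induction m', hm using Nat.le_induction with
    | base => exact h
    | succ m' hm ih =>
      rw [hV]
      unfold cmp
      rw [ih]
  -- fact (d)
  have hd : ∀ m n i, V m n = Sum.inr i → i ≤ n := by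
    intro m n i h
    exact ((hwd m).mono.le_apply).trans ((hgood m).win n i h).1
  have hst : ∀ n m, n + 1 ≤ m → V m n = V (n + 1) n := by
    intro n m hm
    rcases h : V (n + 1) n with b | i
    · exact ha (n + 1) n b h m hm
    · exact hb (n + 1) n i h (Nat.lt_succ_of_le (hd _ _ _ h)) m hm
  have hba : ∀ m n b, V m n = Sum.inl b → V (n + 1) n = Sum.inl b := by
    intro m n b h
    rw [← hst n (max m (n + 1)) (le_max_right _ _)]
    exact ha m n b h _ (le_max_left _ _)
  have hbb : ∀ m n i, V m n = Sum.inr i → i < m → V (n + 1) n = Sum.inr i := by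
    intro m n i h hi
    rw [← hst n (max m (n + 1)) (le_max_right _ _)]
    exact hb m n i h hi _ (le_max_left _ _)
  have hbc : ∀ m n n', V m n = V m n' → V (n + 1) n = V (n' + 1) n' := by
    intro m n n' h
    rw [← hst n (max m (max (n + 1) (n' + 1))) ((le_max_left _ _).trans (le_max_right _ _)),
      ← hst n' (max m (max (n + 1) (n' + 1))) ((le_max_right _ _).trans (le_max_right _ _))]
    exact hc m n n' h _ (le_max_left _ _)
  refine ⟨fun n => V (n + 1) n, ⟨?_, ?_⟩, ?_⟩
  · intro n i h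
    have h1 : V (max (n + 1) (i + 1)) n = Sum.inr i := by
      rw [hst n _ (le_max_left _ _)]
      exact h
    obtain ⟨h2, h3⟩ := (hgood _).win n i h1
    rw [hGle i i _ le_rfl ((Nat.le_succ i).trans (le_max_right _ _))] at h2
    rw [hGle (i + 1) (i + 1) _ le_rfl (le_max_right _ _)] at h3
    exact ⟨h2, h3⟩
  · intro i
    obtain ⟨n, hn⟩ := (hgood (i + 1)).ex i
    exact ⟨n, hbb (i + 1) n i hn (Nat.lt_succ_self i)⟩
  · intro m z z' hz
    choose N hN using (hgood (m + 1)).ex
    have key : ∀ z : ℕ → Fin a, ev (fun n => V (n + 1) n) z =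
        ev (V (m + 1)) (fun i => ev (fun n => V (n + 1) n) z (N i)) := by
      intro z
      funext n
      rcases h : V (m + 1) n with b | i
      · have h1 := hba _ _ _ h
        show (match V (n + 1) n with
          | Sum.inl b => b
          | Sum.inr m => z m) = (match V (m + 1) n with
          | Sum.inl b => b
          | Sum.inr i => ev (fun n => V (n + 1) n) z (N i))
        rw [h1, h]
      · have h1 := hbc (m + 1) n (N i) (h.trans (hN i).symm)
        show (match V (n + 1) n with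
          | Sum.inl b => b
          | Sum.inr m => z m) = (match V (m + 1) n with
          | Sum.inl b => b
          | Sum.inr i => ev (fun n => V (n + 1) n) z (N i))
        rw [h, h1]
        rfl
    have hz1 : ∀ (z : ℕ → Fin a) (i : ℕ), i < m + 1 →
        ev (fun n => V (n + 1) n) z (N i) = z i := by
      intro z i hi
      have h1 := hbb (m + 1) (N i) i (hN i) hi
      show (match V (N i + 1) (N i) with
          | Sum.inl b => b
          | Sum.inr m => z m) = z i
      rw [h1]
    rw [key z, key z']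
    refine hdec m _ _ (fun i hi => ?_)
    show ev (fun n => V (n + 1) n) z (N i) = ev (fun n => V (n + 1) n) z' (N i)
    rw [hz1 z i (by omega), hz1 z' i (by omega), hz i hi]

private theorem RFu_stage {a : ℕ} {C : Set (ℕ → Fin a) → Prop}
    (hC : ∀ s, C s → ∀ f : (ℕ → Fin a) → ℕ → Fin a, Continuous f → C (f ⁻¹' s))
    (h : ∃ F, Wd F ∧ ∀ s, C s → ∃ V, Good F V ∧ Dcd V s) (m : ℕ) :
    ∃ K : ℕ → ℕ, Wd K ∧ (∀ i ≤ m, K i = i) ∧ ∀ (V : ℕ → Fin a ⊕ ℕ) (s : Set (ℕ → Fin a)), C s →
      ∃ W : ℕ → Fin a ⊕ ℕ, Good K W ∧ (∀ i < m, W i = Sum.inr i) ∧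
        ∀ z z', (∀ i < m, z i = z' i) → (ev (cmp V W) z ∈ s ↔ ev (cmp V W) z' ∈ s) := by
  obtain ⟨H, hH, hD⟩ := win_vec hC h (Fin m → Fin a)
  obtain ⟨K, hKd⟩ : ∃ K : ℕ → ℕ, K = fun i => if i ≤ m then i else m + H (i - m) := ⟨_, rfl⟩
  have hK1 : ∀ i ≤ m, K i = i := by
    intro i hi
    rw [hKd]
    exact if_pos hi
  have hK2 : ∀ j, K (m + j) = m + H j := by
    intro j
    rcases Nat.eq_zero_or_pos j with h0 | h0
    · subst h0
      rw [hK1 _ (by omega), hH.zero]
    · rw [hKd]
      show (if m + j ≤ m then m + j else m + H (m + j - m)) = m + H j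
      rw [if_neg (by omega)]
      congr 2
      omega
  have hKw : Wd K := by
    refine ⟨hK1 0 (Nat.zero_le _), fun i => ?_⟩
    rcases Nat.lt_or_ge i m with h1 | h1
    · rw [hK1 i h1.le, hK1 (i + 1) h1]
      exact Nat.lt_succ_self i
    · obtain ⟨j, rfl⟩ := Nat.exists_eq_add_of_le h1
      rw [hK2 j, add_assoc, hK2 (j + 1)]
      have := hH.lt j
      omega
  refine ⟨K, hKw, hK1, fun V s hs => ?_⟩
  let gl : (Fin m → Fin a) → (ℕ → Fin a) → ℕ → Fin a := fun τ z i =>
    if hi : i < m then τ ⟨i, hi⟩ else z (i - m)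
  have hgl : ∀ τ, Continuous (gl τ) := by
    intro τ
    refine continuous_pi fun i => ?_
    by_cases hi : i < m
    · have : (fun z : ℕ → Fin a => gl τ z i) = fun _ => τ ⟨i, hi⟩ := by
        funext z
        exact dif_pos hi
      rw [this]
      exact continuous_const
    · have : (fun z : ℕ → Fin a => gl τ z i) = fun z => z (i - m) := by
        funext z
        exact dif_neg hi
      rw [this]
      exact continuous_apply _
  obtain ⟨V', hV', hdcd⟩ := hD (fun τ => (fun z => ev V (gl τ z)) ⁻¹' s)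
    (fun τ => hC s hs _ ((cont_ev V).comp (hgl τ)))
  obtain ⟨W, hWd⟩ : ∃ W : ℕ → Fin a ⊕ ℕ, W = fun i => if i < m then Sum.inr i else
      Sum.map id (fun j => m + j) (V' (i - m)) := ⟨_, rfl⟩
  have hW1 : ∀ i < m, W i = Sum.inr i := by
    intro i hi
    rw [hWd]
    exact if_pos hi
  have hW2 : ∀ n, m ≤ n → W n = Sum.map id (fun j => m + j) (V' (n - m)) := by
    intro n hn
    rw [hWd]
    exact if_neg (by omega)
  refine ⟨W, ⟨?_, ?_⟩, hW1, ?_⟩
  · intro n i hi
    rcases Nat.lt_or_ge n m with h1 | h1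
    · rw [hW1 n h1] at hi
      have h2 : n = i := Sum.inr.inj hi
      subst h2
      rw [hK1 n h1.le, hK1 (n + 1) h1]
      exact ⟨le_rfl, Nat.lt_succ_self n⟩
    · rw [hW2 n h1] at hi
      rcases h2 : V' (n - m) with b | j
      · rw [h2] at hi
        exact absurd hi (by simp)
      · rw [h2] at hi
        have h3 : m + j = i := Sum.inr.inj hi
        subst h3
        obtain ⟨h4, h5⟩ := hV'.win _ _ h2
        rw [hK2 j, add_assoc, hK2 (j + 1)]
        omega
  · intro i
    rcases Nat.lt_or_ge i m with h1 | h1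
    · exact ⟨i, hW1 i h1⟩
    · obtain ⟨j, rfl⟩ := Nat.exists_eq_add_of_le h1
      obtain ⟨n, hn⟩ := hV'.ex j
      refine ⟨m + n, ?_⟩
      rw [hW2 _ (by omega), Nat.add_sub_cancel_left, hn]
      rfl
  · have key : ∀ z : ℕ → Fin a, ev W z = gl (fun i => z i) (ev V' fun j => z (m + j)) := by
      intro z
      funext i
      rcases Nat.lt_or_ge i m with h1 | h1
      · have h2 : gl (fun i => z i) (ev V' fun j => z (m + j)) i = z i := dif_pos h1
        rw [h2]
        show (match W i with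
          | Sum.inl b => b
          | Sum.inr m => z m) = z i
        rw [hW1 i h1]
      · have h2 : gl (fun i => z i) (ev V' fun j => z (m + j)) i =
            ev V' (fun j => z (m + j)) (i - m) := dif_neg (by omega)
        rw [h2]
        show (match W i with
          | Sum.inl b => b
          | Sum.inr m => z m) = (match V' (i - m) with
          | Sum.inl b => b
          | Sum.inr j => z (m + j))
        rw [hW2 i h1]
        rcases V' (i - m) with b | j <;> rfl
    intro z z' hz
    rw [ev_cmp, ev_cmp, key z, key z']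
    have h1 : (fun i : Fin m => z i) = fun i : Fin m => z' i := by
      funext i
      exact hz i i.2
    rw [h1]
    rcases hdcd (fun i : Fin m => z' i) with h2 | h2
    · exact ⟨fun _ => h2 (fun j => z' (m + j)), fun _ => h2 (fun j => z (m + j))⟩
    · exact ⟨fun h3 => absurd h3 (h2 (fun j => z (m + j))),
        fun h3 => absurd h3 (h2 (fun j => z' (m + j)))⟩

/-- The windows of the stages. -/
private def RFu_G (K : ℕ → ℕ → ℕ) : ℕ → ℕ → ℕ
  | 0, i => i
  | m + 1, i => RFu_G K m (K m i)

/-- The words of the stages. -/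
private def RFu_V {a : ℕ} (w : ℕ → (ℕ → Fin a ⊕ ℕ) → ℕ → Fin a ⊕ ℕ) : ℕ → ℕ → Fin a ⊕ ℕ
  | 0 => Sum.inr
  | m + 1 => cmp (RFu_V w m) (w m (RFu_V w m))

theorem win_fus {a : ℕ} {C : ℕ → Set (ℕ → Fin a) → Prop}
    (hC : ∀ m s, C m s → ∀ f : (ℕ → Fin a) → ℕ → Fin a, Continuous f → C m (f ⁻¹' s))
    (h : ∀ m, ∃ F, Wd F ∧ ∀ s, C m s → ∃ V, Good F V ∧ Dcd V s) :
    ∃ G, Wd G ∧ ∀ s : ℕ → Set (ℕ → Fin a), (∀ m, C m (s m)) → ∃ V, Good G V ∧
      ∀ m z z', (∀ i < m, z i = z' i) → (ev V z ∈ s m ↔ ev V z' ∈ s m) := by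
  have hst := fun m => RFu_stage (hC m) (h m) m
  choose K hKw hK hW using hst
  have hwd : ∀ m, Wd (RFu_G K m) := by
    intro m
    induction m with
    | zero => exact ⟨rfl, fun i => Nat.lt_succ_self i⟩
    | succ m ih => exact ih.comp (hKw m)
  refine ⟨fun i => RFu_G K i i, ⟨rfl, fun i => ?_⟩, fun s hs => ?_⟩
  · have h1 : RFu_G K (i + 1) i = RFu_G K i i := by
      show RFu_G K i (K i i) = RFu_G K i i
      rw [hK i i le_rfl]
    rw [← h1]
    exact (hwd (i + 1)).lt i
  · have hW' := fun (m : ℕ) (V : ℕ → Fin a ⊕ ℕ) => hW m V (s m) (hs m)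
    choose w hw1 hw2 hw3 using hW'
    refine RFu_abs K (RFu_G K) (RFu_V w) (fun m => w m (RFu_V w m)) (fun m => rfl)
      (fun m i => rfl) hK (fun m => hw2 m _) hwd ?_ (fun m => hw3 m _)
    intro m
    induction m with
    | zero => exact good_id
    | succ m ih => exact Good.comp (F := RFu_G K m) (F' := K m) (hwd m) ih (hw1 m _)

end Pool.Agent.DC
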