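import Pool.Agent.H.MP_b2838e_lc.C.RCo

/-!
# Module ROp: open sets

Proof. `F` from `windows a ha Bool`. Let `s` be open. For `N` let `O N = {z | ∀ z', (∀ n < N, z' n = z n) → z' ∈ s}`
(increasing in `N`, `⊆ s`, depends only on the coordinates `< N`; every `z ∈ s` is in some `O N` as `s` is open:
`isOpen_pi_iff`). `windows` for `d z = decide (z ∈ O N)` gives `V N`, `Good F (V N)`, and either all `ev (V N) z` are in `O N`
or none is. If the first happens for some `N`, take `V N`. Otherwise let `V` be the limit along an ultrafilter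
(`Filter.hyperfilter ℕ`): `V N n` has finitely many values (`inl b`, or `inr m` with `F m ≤ n`, so `m ≤ n`), so there is
a value `V n` with `V N n = V n` for almost all `N`. `Good F V`: `win`: clear; `ex`: for each `N` there is `n < F (m + 1)`
with `V N n = inr m`, so one `n` serves for almost all `N`. If `ev V z ∈ s`, then `ev V z ∈ O M` for some `M`; for almost all
`N ≥ M` the words `V N` and `V` agree below `M`, so `ev (V N) z ∈ O M ⊆ O N`, a contradiction.
-/

set_option autoImplicit false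

namespace Pool.Agent.DC

/-- The points `z` such that all points which agree with `z` below `N` are in `s`. -/
private def ROpO {a : ℕ} (s : Set (ℕ → Fin a)) (N : ℕ) : Set (ℕ → Fin a) :=
  {z | ∀ z', (∀ n < N, z' n = z n) → z' ∈ s}

private theorem ROp_sub {a : ℕ} {s : Set (ℕ → Fin a)} {N : ℕ} {z : ℕ → Fin a} (h : z ∈ ROpO s N) :
    z ∈ s := h z fun _ _ => rfl

private theorem ROp_mono {a : ℕ} {s : Set (ℕ → Fin a)} {N M : ℕ} (hNM : N ≤ M) {z : ℕ → Fin a}
    (h : z ∈ ROpO s N) : z ∈ ROpO s M := fun z' hz' => h z' fun n hn => hz' n (hn.trans_le hNM)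

private theorem ROp_dep {a : ℕ} {s : Set (ℕ → Fin a)} {N : ℕ} {u v : ℕ → Fin a}
    (huv : ∀ n < N, u n = v n) (h : u ∈ ROpO s N) : v ∈ ROpO s N := fun z' hz' =>
  h z' fun n hn => (hz' n hn).trans (huv n hn).symm

private theorem ROp_ex {a : ℕ} {s : Set (ℕ → Fin a)} (hs : IsOpen s) {z : ℕ → Fin a} (hz : z ∈ s) :
    ∃ N, z ∈ ROpO s N := by
  obtain ⟨I, u, hu, hI⟩ := isOpen_pi_iff.1 hs z hz
  refine ⟨I.sup id + 1, fun z' hz' => hI fun n hn => ?_⟩
  have h1 : n ≤ I.sup id := Finset.le_sup (f := id) hn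
  rw [hz' n (by omega)]
  exact (hu n hn).2

theorem win_open {a : ℕ} (ha : 0 < a) : ∃ F, Wd F ∧ ∀ s : Set (ℕ → Fin a), IsOpen s →
    ∃ V, Good F V ∧ Dcd V s := by
  classical
  obtain ⟨F, hF0, hFlt, hwin⟩ := windows a ha Bool
  have hW : Wd F := ⟨hF0, hFlt⟩
  have hFle : ∀ m, m ≤ F m := fun m => hW.mono.le_apply
  refine ⟨F, hW, fun s hs => ?_⟩
  have h1 : ∀ N, ∃ V, Good F V ∧ ∀ z z', decide (ev V z ∈ ROpO s N) = decide (ev V z' ∈ ROpO s N) :=
    fun N => hwin N (fun z => decide (z ∈ ROpO s N)) fun u v huv =>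
      decide_eq_decide.2 ⟨ROp_dep huv, ROp_dep fun n hn => (huv n hn).symm⟩
  choose VN hgood hdec using h1
  by_cases hc : ∃ N z0, ev (VN N) z0 ∈ ROpO s N
  · obtain ⟨N, z0, hz0⟩ := hc
    refine ⟨VN N, hgood N, Or.inl fun z => ROp_sub (N := N) ?_⟩
    have h2 := hdec N z0 z
    rw [decide_eq_decide] at h2
    exact h2.1 hz0
  · push Not at hc
    have hval : ∀ n N, ∃ v ∈ (Set.range (Sum.inl : Fin a → Fin a ⊕ ℕ) ∪
        (Sum.inr '' Set.Iic n : Set (Fin a ⊕ ℕ))), VN N n = v := by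
      intro n N
      refine ⟨VN N n, ?_, rfl⟩
      rcases hv : VN N n with b | m
      · exact Or.inl ⟨b, rfl⟩
      · exact Or.inr ⟨m, (hFle m).trans ((hgood N).win n m hv).1, rfl⟩
    have hfin : ∀ n, (Set.range (Sum.inl : Fin a → Fin a ⊕ ℕ) ∪
        (Sum.inr '' Set.Iic n : Set (Fin a ⊕ ℕ))).Finite := fun n =>
      (Set.finite_range _).union ((Set.finite_Iic n).image _)
    have hlim : ∀ n, ∃ v, ∀ᶠ N in (Filter.hyperfilter ℕ : Filter ℕ), VN N n = v := by
      intro n
      obtain ⟨v, -, hv⟩ := (Ultrafilter.eventually_exists_mem_iff (hfin n)).1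
        (Filter.Eventually.of_forall (hval n))
      exact ⟨v, hv⟩
    choose V hV using hlim
    refine ⟨V, ⟨fun n m hm => ?_, fun m => ?_⟩, Or.inr fun z hz => ?_⟩
    · obtain ⟨N, hN⟩ := (hV n).exists
      exact (hgood N).win n m (hN.trans hm)
    · have h3 : ∀ N, ∃ n ∈ Set.Iio (F (m + 1)), VN N n = Sum.inr m := by
        intro N
        obtain ⟨n, hn⟩ := (hgood N).ex m
        exact ⟨n, ((hgood N).win n m hn).2, hn⟩
      obtain ⟨n, -, hn⟩ := (Ultrafilter.eventually_exists_mem_iff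
        (f := Filter.hyperfilter ℕ) (Set.finite_Iio (F (m + 1)))).1
        (Filter.Eventually.of_forall h3)
      obtain ⟨N, hN1, hN2⟩ := ((hV n).and hn).exists
      exact ⟨n, hN1.symm.trans hN2⟩
    · obtain ⟨M, hM⟩ := ROp_ex hs hz
      have h4 : ∀ᶠ N in (Filter.hyperfilter ℕ : Filter ℕ), ∀ n ∈ Set.Iio M, VN N n = V n :=
        (Filter.eventually_all_finite (Set.finite_Iio M)).2 fun n _ => hV n
      have h5 : ∀ᶠ N in (Filter.hyperfilter ℕ : Filter ℕ), M ≤ N := by
        have h6 : (Filter.hyperfilter ℕ : Filter ℕ) ≤ Filter.atTop := by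
          rw [← Nat.cofinite_eq_atTop]
          exact Filter.hyperfilter_le_cofinite
        exact h6 (Filter.eventually_ge_atTop M)
      obtain ⟨N, hN1, hN2⟩ := (h4.and h5).exists
      have h7 : ∀ n < M, ev V z n = ev (VN N) z n := by
        intro n hn
        unfold ev
        rw [hN1 n hn]
      exact hc N z (ROp_mono hN2 (ROp_dep h7 hM))

end Pool.Agent.DC
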