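import Pool.Agent.H.MP_b2838e_lc.C.RDef

/-!
# Module RSg: Borel classes

`Sg.pre`: induction on `Sg` (preimages commute with unions and complements). `Sg.up`: cases on `Sg`.
`sg_borel`: `MeasurableSet.induction_on_open` (or `MeasurableSpace.induction_on_inter`): for every Borel set `s` there
is a countable `α` with `Sg α s` and `Sg α sᶜ`. Open `s`: `α = 1`, `sᶜ` is the union of the constant sequence `sᶜ` with
`β = 0`. Complement: clear. Union of `s n`: `α = ⨆ n, (α n) + 2` or so (`Ordinal.iSup`, or choose a countable `α` above all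
`α n + 1`); `⋃ s n` is the union of the `s n`, whose complements are of class `α n`; its complement `t` is the union of the
constant sequence `t`, with `tᶜ = ⋃ s n`.
-/

set_option autoImplicit false

namespace Pool.Agent.DC

open Pool.Agent.DR

theorem Sg.pre {X Y : Type} [TopologicalSpace X] [TopologicalSpace Y] {f : X → Y}
    (hf : Continuous f) {α : Ordinal.{0}} {s : Set Y} (hs : Sg α s) : Sg α (f ⁻¹' s) := by
  induction hs with
  | opn α s hs => exact Sg.opn α _ (hs.preimage hf)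
  | uni α g β hβ _ ih =>
    rw [Set.preimage_iUnion]
    exact Sg.uni α _ β hβ ih

theorem Sg.up {X : Type} [TopologicalSpace X] {α β : Ordinal.{0}} (h : α ≤ β) {s : Set X}
    (hs : Sg α s) : Sg β s := by
  cases hs with
  | opn _ _ hs => exact Sg.opn β _ hs
  | uni _ f γ hγ hf => exact Sg.uni β f γ (fun n => (hγ n).trans_le h) hf

private theorem RSg_compl {X : Type} [TopologicalSpace X] {α β : Ordinal.{0}} (h : β < α)
    {s : Set X} (hs : Sg β s) : Sg α sᶜ := by
  have h1 : sᶜ = ⋃ _ : ℕ, sᶜ := by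
    ext x
    rw [Set.mem_iUnion]
    exact ⟨fun hx => ⟨0, hx⟩, fun ⟨_, hx⟩ => hx⟩
  rw [h1]
  refine Sg.uni α (fun _ => sᶜ) (fun _ => β) (fun _ => h) fun _ => ?_
  rw [compl_compl]
  exact hs

private theorem RSg_card {α : Ordinal.{0}} : α.card ≤ Cardinal.aleph0 ↔ α < Ordinal.omega 1 := by
  rw [← Cardinal.lt_aleph_one_iff, ← Cardinal.lt_ord, Cardinal.ord_aleph]

private theorem RSg_iSup {ι : Type} [Countable ι] {α : ι → Ordinal.{0}}
    (h : ∀ n, (α n).card ≤ Cardinal.aleph0) :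
    ∃ γ : Ordinal.{0}, γ.card ≤ Cardinal.aleph0 ∧ ∀ n, α n < γ := by
  have h1 : ∀ n, α n < Ordinal.omega 1 := fun n => RSg_card.1 (h n)
  have hlim : Order.IsSuccLimit (Ordinal.omega 1) := by
    rw [← Cardinal.ord_aleph]
    exact Cardinal.isSuccLimit_ord (Cardinal.aleph0_le_aleph 1)
  have h2 : (⨆ n, Order.succ (α n)) < Ordinal.omega 1 :=
    Ordinal.iSup_lt_omega_one fun n => hlim.succ_lt (h1 n)
  refine ⟨⨆ n, Order.succ (α n), RSg_card.2 h2, fun n => ?_⟩
  exact (Order.lt_succ (α n)).trans_le (Ordinal.le_iSup (fun n => Order.succ (α n)) n)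

theorem sg_borel {s : Set (ℕ → ℕ)} (hs : MeasurableSet s) :
    ∃ α : Ordinal.{0}, α.card ≤ Cardinal.aleph0 ∧ Sg α s ∧ Sg α sᶜ := by
  induction s, hs using MeasurableSet.induction_on_open with
  | isOpen U hU =>
    refine ⟨1, ?_, Sg.opn 1 U hU, RSg_compl zero_lt_one (Sg.opn 0 U hU)⟩
    rw [Ordinal.card_one]
    exact Cardinal.one_le_aleph0
  | compl t _ ih =>
    obtain ⟨α, h1, h2, h3⟩ := ih
    exact ⟨α, h1, h3, by rwa [compl_compl]⟩
  | iUnion f _ _ ih =>
    choose α h1 h2 h3 using ih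
    obtain ⟨γ, hγ, hαγ⟩ := RSg_iSup h1
    obtain ⟨δ, hδ, hγδ⟩ := RSg_iSup (ι := Unit) (α := fun _ => γ) (fun _ => hγ)
    have h4 : Sg γ (⋃ n, f n) := Sg.uni γ f α hαγ h3
    exact ⟨δ, hδ, h4.up (hγδ ()).le, RSg_compl (hγδ ()) h4⟩

/-- Every Borel colouring has a countable class. -/
theorem cls_of_bor {k l : ℕ} {c : (ℕ → ℕ) → Fin l} (hc : Pool.Agent.DB.Bor k c) :
    ∃ α : Ordinal.{0}, α.card ≤ Cardinal.aleph0 ∧ Cls α k c := by
  have h := fun j => sg_borel (hc j)
  choose α h1 h2 h3 using h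
  obtain ⟨γ, hγ, hαγ⟩ := RSg_iSup h1
  refine ⟨γ, hγ, fun j => ⟨_, (h2 j).up (hαγ j).le, fun y hy => ?_⟩⟩
  exact ⟨fun h => ⟨hy, h⟩, fun h => h.2⟩

end Pool.Agent.DC
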