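import Pool.Agent.H.MP_b2838e_lc.C.RFu
import Pool.Agent.H.MP_b2838e_lc.C.ROp
import Pool.Agent.H.MP_b2838e_lc.C.RSg

/-!
# Module RIn: induction on the class
-/

set_option autoImplicit false

namespace Pool.Agent.DC

private theorem RIn_cyl {a : ℕ} (z : ℕ → Fin a) (m : ℕ) : IsOpen {z' : ℕ → Fin a | ∀ i < m, z' i = z i} := by
  have h1 : {z' : ℕ → Fin a | ∀ i < m, z' i = z i} = Set.pi (Set.Iio m) fun i => {z i} := by
    ext z'
    rfl
  rw [h1]
  exact isOpen_set_pi (Set.finite_Iio m) fun _ _ => isOpen_discrete _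

theorem win_cls {a : ℕ} (ha : 0 < a) (α : Ordinal.{0}) (hα : α.card ≤ Cardinal.aleph0) :
    ∃ F, Wd F ∧ ∀ s : Set (ℕ → Fin a), Sg α s → ∃ V, Good F V ∧ Dcd V s := by
  classical
  induction α using WellFoundedLT.induction with
  | ind α ih =>
    obtain ⟨F0, hF0, h0⟩ := win_open ha
    rcases eq_or_ne α 0 with hz | hz
    · refine ⟨F0, hF0, fun s hs => ?_⟩
      cases hs with
      | opn α s hs => exact h0 s hs
      | uni α f β hβ hf =>
        have := hβ 0
        rw [hz] at this
        exact absurd this not_lt_zero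
    · have hcount : (Set.Iio α).Countable := by
        rw [← Cardinal.le_aleph0_iff_set_countable, Cardinal.mk_Iio_ordinal]
        rw [Cardinal.lift_le_aleph0]
        exact hα
      obtain ⟨e, he⟩ := hcount.exists_eq_range ⟨0, pos_iff_ne_zero.2 hz⟩
      have helt : ∀ n, e n < α := fun n => by
        have : e n ∈ Set.Iio α := by rw [he]; exact Set.mem_range_self n
        exact this
      obtain ⟨G, hG, hfus⟩ := win_fus (a := a) (C := fun m s => Sg (e m.unpair.2) s)
        (fun m s hs f hf => Sg.pre hf hs)
        (fun m => ih (e m.unpair.2) (helt _) ((Ordinal.card_le_card (helt _).le).trans hα))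
      refine ⟨fun i => G (F0 i), hG.comp hF0, fun s hs => ?_⟩
      have key : ∀ V1 : ℕ → Fin a ⊕ ℕ, Good G V1 → IsOpen {z | ev V1 z ∈ s} →
          ∃ V, Good (fun i => G (F0 i)) V ∧ Dcd V s := by
        intro V1 hV1 ho
        obtain ⟨V2, hV2, hd⟩ := h0 _ ho
        refine ⟨cmp V1 V2, Good.comp hG hV1 hV2, ?_⟩
        rcases hd with hd | hd
        · left
          intro z
          rw [ev_cmp]
          exact hd z
        · right
          intro z
          rw [ev_cmp]
          exact hd z
      cases hs with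
      | opn α s hs =>
        obtain ⟨V1, hV1⟩ := good_ex ha hG
        exact key V1 hV1 (hs.preimage (cont_ev V1))
      | uni α f β hβ hf =>
        obtain ⟨V1, hV1, hdec⟩ := hfus
          (fun m => if e m.unpair.2 = β m.unpair.1 then (f m.unpair.1)ᶜ else Set.univ) (fun m => by
            show Sg (e m.unpair.2) (if e m.unpair.2 = β m.unpair.1 then (f m.unpair.1)ᶜ else Set.univ)
            split_ifs with h
            · rw [h]
              exact hf _
            · exact Sg.opn _ _ isOpen_univ)
        refine key V1 hV1 (isOpen_iff_forall_mem_open.2 fun z hz' => ?_)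
        have hz2 : ev V1 z ∈ ⋃ n, f n := hz'
        obtain ⟨n, hn⟩ := Set.mem_iUnion.1 hz2
        obtain ⟨j, hj⟩ : ∃ j, e j = β n := by
          have : β n ∈ Set.Iio α := hβ n
          rw [he] at this
          exact this
        refine ⟨{z' | ∀ i < Nat.pair n j, z' i = z i}, fun z' hz3 => ?_, RIn_cyl z _,
          fun i _ => rfl⟩
        have h1 := hdec (Nat.pair n j) z' z hz3
        have h2 : (if e (Nat.pair n j).unpair.2 = β (Nat.pair n j).unpair.1 then
            (f (Nat.pair n j).unpair.1)ᶜ else Set.univ) = (f n)ᶜ := by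
          rw [Nat.unpair_pair]
          exact if_pos hj
        rw [h2, Set.mem_compl_iff, Set.mem_compl_iff, not_iff_not] at h1
        exact Set.mem_iUnion.2 ⟨n, h1.2 hn⟩

end Pool.Agent.DC
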