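import Pool.Agent.H.MP_b2838e_lc.C.RCo

/-!
# Module RVe: finitely many sets at once

Proof: for `Fin m` in place of `ι` by induction on `m` (`m = 0`: `good_id`), with `F` iterated: if `F_m` is for `m` and `F` for
one set, let `F_(m+1) i = F_m (F i)`; take `V` for the first `m` sets and `V'` for the set `{z | ev V z ∈ s m}` (`hC`), and
`cmp V V'` (`ev_cmp`, `Good.comp`, `Wd.comp`). For `ι`: `Finite.equivFin`.
-/

set_option autoImplicit false

namespace Pool.Agent.DC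

private theorem RVe_dcd {a : ℕ} {V V' : ℕ → Fin a ⊕ ℕ} {s : Set (ℕ → Fin a)} (h : Dcd V s) :
    Dcd (cmp V V') s := by
  rcases h with h | h
  · exact Or.inl fun z => by rw [ev_cmp]; exact h _
  · exact Or.inr fun z => by rw [ev_cmp]; exact h _

theorem win_vec {a : ℕ} {C : Set (ℕ → Fin a) → Prop}
    (hC : ∀ s, C s → ∀ f : (ℕ → Fin a) → ℕ → Fin a, Continuous f → C (f ⁻¹' s))
    (h : ∃ F, Wd F ∧ ∀ s, C s → ∃ V, Good F V ∧ Dcd V s) (ι : Type) [Finite ι] :
    ∃ F, Wd F ∧ ∀ s : ι → Set (ℕ → Fin a), (∀ i, C (s i)) → ∃ V, Good F V ∧ ∀ i, Dcd V (s i) := by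
  obtain ⟨F, hF, h⟩ := h
  have key : ∀ m : ℕ, ∃ F', Wd F' ∧ ∀ s : Fin m → Set (ℕ → Fin a), (∀ i, C (s i)) →
      ∃ V, Good F' V ∧ ∀ i, Dcd V (s i) := by
    intro m
    induction m with
    | zero =>
      exact ⟨fun i => i, ⟨rfl, fun i => Nat.lt_succ_self i⟩, fun s _ => ⟨_, good_id, fun i => i.elim0⟩⟩
    | succ m ih =>
      obtain ⟨F', hF', ih⟩ := ih
      refine ⟨fun i => F' (F i), hF'.comp hF, fun s hs => ?_⟩
      obtain ⟨V, hV, hd⟩ := ih (fun i => s i.castSucc) fun i => hs _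
      obtain ⟨V', hV', hd'⟩ := h (ev V ⁻¹' s (Fin.last m)) (hC _ (hs _) _ (cont_ev V))
      refine ⟨cmp V V', Good.comp hF' hV hV', fun i => ?_⟩
      refine Fin.lastCases ?_ (fun j => ?_) i
      · rcases hd' with hd' | hd'
        · exact Or.inl fun z => by rw [ev_cmp]; exact hd' z
        · exact Or.inr fun z => by rw [ev_cmp]; exact hd' z
      · exact RVe_dcd (hd j)
  obtain ⟨m, ⟨e⟩⟩ := Finite.exists_equiv_fin ι
  obtain ⟨F', hF', hk⟩ := key m
  refine ⟨F', hF', fun s hs => ?_⟩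
  obtain ⟨V, hV, hd⟩ := hk (fun i => s (e.symm i)) fun i => hs _
  refine ⟨V, hV, fun i => ?_⟩
  have := hd (e i)
  rwa [e.symm_apply_apply] at this

end Pool.Agent.DC
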