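import Pool.Agent.H.MP_b2838e_lc.Def
import Pool.Agent.H.MP_b2838e_lc.C.Hj
import Pool.Agent.H.MP_b2838e_lc.C.Cpd

/-!
# Module Stg: one stage of the construction
-/

set_option autoImplicit false

namespace Pool.Agent.DC

open Pool.Agent.DR

/-- The blocks `≤ s` are letters, the block `s + 1 + m` has the letter `z m`. -/
def Stg_w {s : ℕ} (z : ℕ → Fin (s + 1)) (i : ℕ) : Fin (s + 1) :=
  if h : i ≤ s then ⟨i, Nat.lt_succ_of_le h⟩ else z (i - (s + 1))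

/-- The partition given by `σ` on the letters. -/
def Stg_Y {s k : ℕ} (x : ℕ → ℕ) (z : ℕ → Fin (s + 1)) (σ : Fin (s + 1) → Fin k) (n : ℕ) : ℕ :=
  (σ (Stg_w z (x n))).val

theorem Stg_w_low {s : ℕ} (z : ℕ → Fin (s + 1)) {i : ℕ} (h : i ≤ s) :
    Stg_w z i = ⟨i, Nat.lt_succ_of_le h⟩ := dif_pos h

theorem Stg_w_high {s : ℕ} (z : ℕ → Fin (s + 1)) (m : ℕ) : Stg_w z (s + 1 + m) = z m := by
  unfold Stg_w
  rw [dif_neg (by omega)]
  congr 1
  omega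

/-- The map of the blocks. -/
def Stg_t {s : ℕ} (V : ℕ → Fin (s + 1) ⊕ ℕ) (i : ℕ) : ℕ :=
  if i ≤ s then i else
    match V (i - (s + 1)) with
    | Sum.inl b => b.val
    | Sum.inr m => s + 1 + m

theorem Stg_t_low {s : ℕ} (V : ℕ → Fin (s + 1) ⊕ ℕ) {i : ℕ} (h : i ≤ s) : Stg_t V i = i :=
  if_pos h

theorem Stg_t_inl {s : ℕ} {V : ℕ → Fin (s + 1) ⊕ ℕ} {n : ℕ} {b : Fin (s + 1)}
    (h : V n = Sum.inl b) : Stg_t V (s + 1 + n) = b.val := by
  unfold Stg_t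
  rw [if_neg (by omega), Nat.add_sub_cancel_left, h]

theorem Stg_t_inr {s : ℕ} {V : ℕ → Fin (s + 1) ⊕ ℕ} {n m : ℕ}
    (h : V n = Sum.inr m) : Stg_t V (s + 1 + n) = s + 1 + m := by
  unfold Stg_t
  rw [if_neg (by omega), Nat.add_sub_cancel_left, h]

theorem Stg_mono {F : ℕ → ℕ} (hF : ∀ i, F i < F (i + 1)) : StrictMono F := strictMono_nat_of_lt_succ hF

theorem Stg_t_le {s : ℕ} {V : ℕ → Fin (s + 1) ⊕ ℕ} {F : ℕ → ℕ} (hF : ∀ i, F i < F (i + 1))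
    (hV : Good F V) (i : ℕ) : Stg_t V i ≤ i := by
  rcases le_or_gt i s with h | h
  · rw [Stg_t_low V h]
  · obtain ⟨n, rfl⟩ : ∃ n, i = s + 1 + n := ⟨i - (s + 1), by omega⟩
    rcases hn : V n with b | m
    · rw [Stg_t_inl hn]
      have := b.2
      omega
    · rw [Stg_t_inr hn]
      have h1 := (hV.win n m hn).1
      have h2 := (Stg_mono hF).le_apply (x := m)
      omega

theorem Stg_inf {s : ℕ} {V : ℕ → Fin (s + 1) ⊕ ℕ} {F : ℕ → ℕ} (hF : ∀ i, F i < F (i + 1))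
    (hV : Good F V) {x : ℕ → ℕ} (hx : InfPart x) : InfPart (fun n => Stg_t V (x n)) := by
  refine ⟨fun n i hi => ?_, fun i => ?_⟩
  · have hi : i < Stg_t V (x n) := hi
    rcases le_or_gt i s with h | h
    · obtain ⟨m, hm, hmi⟩ := hx.1 n i (lt_of_lt_of_le hi (Stg_t_le hF hV _))
      exact ⟨m, hm, by show Stg_t V (x m) = i; rw [hmi]; exact Stg_t_low V h⟩
    · obtain ⟨m, rfl⟩ : ∃ m, i = s + 1 + m := ⟨i - (s + 1), by omega⟩
      obtain ⟨p, hp⟩ : ∃ p, x n = s + 1 + p := by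
        refine ⟨x n - (s + 1), ?_⟩
        have := Stg_t_le hF hV (x n)
        omega
      rw [hp] at hi
      rcases hn : V p with b | m2
      · rw [Stg_t_inl hn] at hi
        have := b.2
        omega
      · rw [Stg_t_inr hn] at hi
        have h1 := (hV.win p m2 hn).1
        obtain ⟨q, hq⟩ := hV.ex m
        have h2 := (hV.win q m hq).2
        have h3 : F (m + 1) ≤ F m2 := (Stg_mono hF).monotone (by omega)
        obtain ⟨m', hm', hmi⟩ := hx.1 n (s + 1 + q) (by omega)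
        exact ⟨m', hm', by show Stg_t V (x m') = _; rw [hmi]; exact Stg_t_inr hq⟩
  · rcases le_or_gt i s with h | h
    · obtain ⟨n, hn⟩ := hx.2 i
      exact ⟨n, by show Stg_t V (x n) = i; rw [hn]; exact Stg_t_low V h⟩
    · obtain ⟨m, rfl⟩ : ∃ m, i = s + 1 + m := ⟨i - (s + 1), by omega⟩
      obtain ⟨q, hq⟩ := hV.ex m
      obtain ⟨n, hn⟩ := hx.2 (s + 1 + q)
      exact ⟨n, by show Stg_t V (x n) = _; rw [hn]; exact Stg_t_inr hq⟩

theorem Stg_bd {s : ℕ} {V : ℕ → Fin (s + 1) ⊕ ℕ} {F : ℕ → ℕ} (hF : ∀ i, F i < F (i + 1))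
    (hV : Good F V) (i : ℕ) : ∃ i' ≤ s + 1 + F (i + 1), Stg_t V i' = i := by
  rcases le_or_gt i s with h | h
  · exact ⟨i, by omega, Stg_t_low V h⟩
  · obtain ⟨m, rfl⟩ : ∃ m, i = s + 1 + m := ⟨i - (s + 1), by omega⟩
    obtain ⟨q, hq⟩ := hV.ex m
    have h2 := (hV.win q m hq).2
    have h3 : F (m + 1) ≤ F (s + 1 + m + 1) := (Stg_mono hF).monotone (by omega)
    exact ⟨s + 1 + q, by omega, Stg_t_inr hq⟩

/-- `σ` respects the numbering and is onto. -/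
def Stg_V {s k : ℕ} (σ : Fin (s + 1) → Fin k) : Prop :=
  (∀ b, ∀ i : Fin k, i < σ b → ∃ b' < b, σ b' = i) ∧ ∀ i : Fin k, ∃ b, σ b = i

/-- the first element of a block -/
theorem Stg_first {x : ℕ → ℕ} (hx : InfPart x) (b : ℕ) :
    ∃ n, x n = b ∧ ∀ m < n, x m < b := by
  classical
  have hex := hx.2 b
  refine ⟨Nat.find hex, Nat.find_spec hex, fun m hm => ?_⟩
  by_contra hcon
  rcases Nat.lt_or_ge b (x m) with h | h
  · obtain ⟨m', hm', hb⟩ := hx.1 m b h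
    exact Nat.find_min hex (hm'.trans hm) hb
  · exact Nat.find_min hex hm (by omega)

theorem Stg_K {s k : ℕ} {x : ℕ → ℕ} (hx : InfPart x) {σ : Fin (s + 1) → Fin k} (hσ : Stg_V σ)
    (z : ℕ → Fin (s + 1)) : KPart k (Stg_Y x z σ) := by
  have hb : ∀ (b : Fin (s + 1)) (n : ℕ), x n = b.val → Stg_Y x z σ n = (σ b).val := by
    intro b n hn
    unfold Stg_Y
    rw [hn, Stg_w_low z (Nat.le_of_lt_succ b.2)]
  refine ⟨fun n i hi => ?_, fun n => (σ _).2, fun i hi => ?_⟩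
  · rcases le_or_gt (x n) s with h | h
    · have h1 : Stg_Y x z σ n = (σ ⟨x n, Nat.lt_succ_of_le h⟩).val := hb ⟨x n, Nat.lt_succ_of_le h⟩ n rfl
      rw [h1] at hi
      obtain ⟨b', hb', hbi⟩ := hσ.1 ⟨x n, Nat.lt_succ_of_le h⟩ ⟨i, hi.trans (σ _).2⟩ hi
      obtain ⟨m, hm, hmb⟩ := hx.1 n b'.val hb'
      exact ⟨m, hm, by rw [hb b' m hmb, hbi]⟩
    · have hik : i < k := hi.trans (σ _).2
      obtain ⟨b', hbi⟩ := hσ.2 ⟨i, hik⟩
      obtain ⟨m, hm, hmb⟩ := hx.1 n b'.val (lt_of_lt_of_le b'.2 h)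
      exact ⟨m, hm, by rw [hb b' m hmb, hbi]⟩
  · obtain ⟨b', hbi⟩ := hσ.2 ⟨i, hi⟩
    obtain ⟨n, hn⟩ := hx.2 b'.val
    exact ⟨n, by rw [hb b' n hn, hbi]⟩

open Classical in
/-- the colouring of the words -/
noncomputable def Stg_d {s k l : ℕ} (c : (ℕ → ℕ) → Fin l) (x : ℕ → ℕ) (z : ℕ → Fin (s + 1))
    (σ : Fin (s + 1) → Fin k) : Fin l :=
  if Stg_V σ then c (Stg_Y x z σ) else c (fun _ => 0)

theorem Stg_loc {s k l : ℕ} {c : (ℕ → ℕ) → Fin l} (hc : Cont k c) {x : ℕ → ℕ} (hx : InfPart x)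
    (hxn : ∀ n, x n ≤ n) (u : ℕ → Fin (s + 1)) :
    ∃ m, ∀ v : ℕ → Fin (s + 1), (∀ n < m, v n = u n) →
      (Stg_d c x v : (Fin (s + 1) → Fin k) → Fin l) = Stg_d c x u := by
  classical
  have h1 : ∀ σ : Fin (s + 1) → Fin k, ∃ m, Stg_V σ → ∀ v : ℕ → Fin (s + 1),
      (∀ n < m, v n = u n) → c (Stg_Y x v σ) = c (Stg_Y x u σ) := by
    intro σ
    by_cases hσ : Stg_V σ
    · obtain ⟨m, hm⟩ := hc _ (Stg_K hx hσ u)
      refine ⟨m, fun _ v hv => hm _ (Stg_K hx hσ v) fun n hn => ?_⟩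
      unfold Stg_Y
      congr 2
      unfold Stg_w
      split_ifs with h
      · rfl
      · exact hv _ (by have := hxn n; omega)
    · exact ⟨0, fun h => absurd h hσ⟩
  choose m hm using h1
  refine ⟨∑ σ, m σ, fun v hv => ?_⟩
  funext σ
  unfold Stg_d
  split_ifs with hσ
  · refine hm σ hσ v fun n hn => hv n (lt_of_lt_of_le hn ?_)
    exact Finset.single_le_sum (f := m) (fun _ _ => Nat.zero_le _) (Finset.mem_univ σ)
  · rfl

theorem stage (k l s : ℕ) : ∃ F : ℕ → ℕ, ∀ (c : (ℕ → ℕ) → Fin l), Cont k c →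
    ∀ x : ℕ → ℕ, InfPart x → (∀ n, x n ≤ n) →
      ∃ θ : ℕ → ℕ, (∀ i ≤ s, θ i = i) ∧ (∀ i, θ i ≤ i) ∧ InfPart (fun n => θ (x n)) ∧
        (∀ i, ∃ i' ≤ F i, θ i' = i) ∧
        ∀ y z, KPart k y → KPart k z → Coarser y (fun n => θ (x n)) →
          Coarser z (fun n => θ (x n)) → (∀ n, θ (x n) ≤ s → y n = z n) →
            (∀ i < k, ∃ n, θ (x n) ≤ s ∧ y n = i) → c y = c z := by
  classical
  obtain ⟨F, hF0, hF, hw⟩ := windows (s + 1) (Nat.succ_pos s) ((Fin (s + 1) → Fin k) → Fin l)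
  refine ⟨fun i => s + 1 + F (i + 1), fun c hc x hx hxn => ?_⟩
  obtain ⟨N, hN⟩ := fin_dep (Stg_d c x : (ℕ → Fin (s + 1)) → (Fin (s + 1) → Fin k) → Fin l)
    (Stg_loc hc hx hxn)
  obtain ⟨V, hV, hcon⟩ := hw N _ hN
  refine ⟨Stg_t V, fun i hi => Stg_t_low V hi, Stg_t_le hF hV, Stg_inf hF hV hx, Stg_bd hF hV, ?_⟩
  intro y z hy hz hyx hzx hyz hall
  -- the first elements of the blocks `≤ s`
  choose fe hfe hfe' using fun b : Fin (s + 1) => Stg_first hx b.val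
  have hfx : ∀ b : Fin (s + 1), Stg_t V (x (fe b)) = b.val := by
    intro b
    rw [hfe b]
    exact Stg_t_low V (Nat.le_of_lt_succ b.2)
  obtain ⟨σ, hσ⟩ : ∃ σ : Fin (s + 1) → Fin k, ∀ b, (σ b).val = y (fe b) :=
    ⟨fun b => ⟨y (fe b), hy.2.1 _⟩, fun b => rfl⟩
  have hσz : ∀ b, (σ b).val = z (fe b) := by
    intro b
    rw [hσ b]
    exact hyz _ (by rw [hfx b]; exact Nat.le_of_lt_succ b.2)
  have hVσ : Stg_V σ := by
    refine ⟨fun b i hi => ?_, fun i => ?_⟩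
    · have hi' : i.val < y (fe b) := by rw [← hσ b]; exact hi
      obtain ⟨m, hm, hmi⟩ := hy.1 (fe b) i.val hi'
      have h1 := hfe' b m hm
      have h2 : x m < s + 1 := h1.trans b.2
      refine ⟨⟨x m, h2⟩, h1, ?_⟩
      apply Fin.ext
      rw [hσ, ← hmi]
      refine hyx _ _ ?_
      show Stg_t V (x (fe ⟨x m, h2⟩)) = Stg_t V (x m)
      rw [hfe]
    · obtain ⟨n, hn, hni⟩ := hall i.val i.2
      refine ⟨⟨Stg_t V (x n), Nat.lt_succ_of_le hn⟩, ?_⟩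
      apply Fin.ext
      rw [hσ, ← hni]
      exact hyx _ _ (hfx ⟨Stg_t V (x n), Nat.lt_succ_of_le hn⟩)
  have hrep : ∀ y' : ℕ → ℕ, KPart k y' → Coarser y' (fun n => Stg_t V (x n)) →
      (∀ b, (σ b).val = y' (fe b)) → ∃ ζ : ℕ → Fin (s + 1), y' = Stg_Y x (ev V ζ) σ := by
    intro y' hy' hyx' hσ'
    have h1 : ∀ m : ℕ, ∃ b : Fin (s + 1), ∀ n, Stg_t V (x n) = s + 1 + m → y' n = (σ b).val := by
      intro m
      obtain ⟨p, hp⟩ := (Stg_inf hF hV hx).2 (s + 1 + m)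
      obtain ⟨b, hb⟩ := hVσ.2 ⟨y' p, hy'.2.1 p⟩
      refine ⟨b, fun n hn => ?_⟩
      rw [hb]
      exact hyx' n p (hn.trans hp.symm)
    choose ζ hζ using h1
    refine ⟨ζ, ?_⟩
    funext n
    unfold Stg_Y
    rcases le_or_gt (x n) s with h | h
    · rw [Stg_w_low _ h, hσ']
      refine hyx' _ _ ?_
      show Stg_t V (x n) = Stg_t V (x (fe ⟨x n, Nat.lt_succ_of_le h⟩))
      rw [hfe]
    · obtain ⟨p, hp⟩ : ∃ p, x n = s + 1 + p := ⟨x n - (s + 1), by omega⟩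
      rw [hp, Stg_w_high]
      rcases hn : V p with b | m
      · have h2 : ev V ζ p = b := by
          unfold ev
          rw [hn]
        rw [h2, hσ']
        refine hyx' _ _ ?_
        show Stg_t V (x n) = Stg_t V (x (fe b))
        rw [hfx, hp, Stg_t_inl hn]
      · have h2 : ev V ζ p = ζ m := by
          unfold ev
          rw [hn]
        rw [h2]
        refine hζ m n ?_
        rw [hp, Stg_t_inr hn]
  obtain ⟨ζ, hζ⟩ := hrep y hy hyx hσ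
  obtain ⟨ζ', hζ'⟩ := hrep z hz hzx hσz
  have h1 := congrFun (hcon ζ ζ') σ
  unfold Stg_d at h1
  rw [if_pos hVσ, if_pos hVσ, ← hζ, ← hζ'] at h1
  exact h1

end Pool.Agent.DC
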