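import Pool.Agent.H.MP_b2838e_lc.C.RFs

/-!
# Module UDef: growth functions
-/

set_option autoImplicit false

namespace Pool.Agent.DC

/-- `f` is eventually below `h`. -/
def Evl (f h : ℕ → ℕ) : Prop := ∃ n, ∀ i ≥ n, f i ≤ h i

/-- The number of iterations. -/
def phi (i : ℕ) : ℕ := i * (i + 2 + i ^ i * i) + 2

/-- The operator on growth functions. -/
def Jo (h : ℕ → ℕ) (i : ℕ) : ℕ := h^[phi i] i

/-- Monotone functions above the identity. -/
structure Mi (h : ℕ → ℕ) : Prop where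
  mono : Monotone h
  lt : ∀ i, i < h i

/-- Members of the class below `g`. -/
def Tm (g f : ℕ → ℕ) : Prop := Mi f ∧ ∀ m, Evl (Jo^[m] f) g

/-- A class of growth functions. -/
structure Gr (C : Set (ℕ → ℕ)) (g : ℕ → ℕ) : Prop where
  mi : ∀ h ∈ C, Mi h
  dir : ∀ f : ℕ → ℕ → ℕ, (∀ n, f n ∈ C) → ∃ h ∈ C, ∀ n, Evl (f n) h
  cl : ∀ h ∈ C, ∃ h' ∈ C, Evl (Jo h) h'
  bd : ∀ h ∈ C, Evl h g

theorem Evl.trans {f h h' : ℕ → ℕ} (h1 : Evl f h) (h2 : Evl h h') : Evl f h' := by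
  obtain ⟨n, hn⟩ := h1
  obtain ⟨m, hm⟩ := h2
  exact ⟨max n m, fun i hi => (hn i ((le_max_left _ _).trans hi)).trans (hm i ((le_max_right _ _).trans hi))⟩

theorem Evl.of_le {f h : ℕ → ℕ} (h1 : ∀ i, f i ≤ h i) : Evl f h := ⟨0, fun i _ => h1 i⟩

theorem phi_mono : Monotone phi := by
  intro i j h
  unfold phi
  have h1 : i ^ i ≤ j ^ j := by
    rcases Nat.eq_zero_or_pos i with h0 | h0
    · subst h0
      rcases Nat.eq_zero_or_pos j with h2 | h2
      · subst h2; exact le_rfl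
      · exact Nat.one_le_pow _ _ h2
    · exact (Nat.pow_le_pow_left h i).trans (Nat.pow_le_pow_right (lt_of_lt_of_le h0 h) h)
  have h2 : i ^ i * i ≤ j ^ j * j := Nat.mul_le_mul h1 h
  have h3 : i * (i + 2 + i ^ i * i) ≤ j * (j + 2 + j ^ j * j) := Nat.mul_le_mul h (by omega)
  omega

theorem Mi.iter_le {h : ℕ → ℕ} (hh : Mi h) {m m' : ℕ} (hm : m ≤ m') (i : ℕ) : h^[m] i ≤ h^[m'] i := by
  induction m', hm using Nat.le_induction with
  | base => exact le_rfl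
  | succ m' _ ih =>
    rw [Function.iterate_succ_apply']
    exact ih.trans (hh.lt _).le

theorem Mi.iter_mono {h : ℕ → ℕ} (hh : Mi h) (m : ℕ) : Monotone (h^[m]) := hh.mono.iterate m

theorem Mi.le_iter {h : ℕ → ℕ} (hh : Mi h) (m i : ℕ) : i ≤ h^[m] i := hh.iter_le (Nat.zero_le m) i

theorem Mi.jo {h : ℕ → ℕ} (hh : Mi h) : Mi (Jo h) := by
  refine ⟨fun i j hij => ?_, fun i => ?_⟩
  · exact (hh.iter_le (phi_mono hij) i).trans (hh.iter_mono _ hij)
  · refine lt_of_lt_of_le (hh.lt i) ?_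
    exact hh.iter_le (m := 1) (by unfold phi; omega) i

theorem Mi.le_jo {h : ℕ → ℕ} (hh : Mi h) (i : ℕ) : h i ≤ Jo h i :=
  hh.iter_le (m := 1) (by unfold phi; omega) i

/-- If `f` is below `h` from `n` on, so are the iterates. -/
theorem iter_le_iter {f h : ℕ → ℕ} (hh : Mi h) (hf : ∀ i, i ≤ f i) {n : ℕ} (hfh : ∀ i ≥ n, f i ≤ h i)
    (m : ℕ) : ∀ i ≥ n, f^[m] i ≤ h^[m] i := by
  induction m with
  | zero => exact fun i _ => le_rfl
  | succ m ih =>
    intro i hi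
    rw [Function.iterate_succ_apply, Function.iterate_succ_apply]
    exact (ih (f i) (hi.trans (hf i))).trans (hh.iter_mono m (hfh i hi))

end Pool.Agent.DC
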