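import Pool.Agent.H.MP_b2838e_lc.C.UFu
import Pool.Agent.H.MP_b2838e_lc.C.RSg

/-!
# Module UIn: induction on the class, with windows in a class of growth functions
-/

set_option autoImplicit false

namespace Pool.Agent.DC

/-- The family `F` of windows is eventually below a member of the class. -/
def Ub (C : Set (ℕ → ℕ)) (F : ℕ → ℕ → ℕ) : Prop := ∃ h ∈ C, ∃ n, ∀ i ≥ n, ∀ a ≤ i, F a i ≤ h i

private theorem UIn_cyl {a : ℕ} (z : ℕ → Fin a) (m : ℕ) : IsOpen {z' : ℕ → Fin a | ∀ i < m, z' i = z i} := by
  have h1 : {z' : ℕ → Fin a | ∀ i < m, z' i = z i} = Set.pi (Set.Iio m) fun i => {z i} := by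
    ext z'
    rfl
  rw [h1]
  exact isOpen_set_pi (Set.finite_Iio m) fun _ _ => isOpen_discrete _

theorem win_clsU {C : Set (ℕ → ℕ)} {g : ℕ → ℕ} (hC : Gr C g) (F0 : ℕ → ℕ → ℕ) (hF0 : ∀ a, Wd (F0 a))
    (hO : ∀ a, 0 < a → ∀ s : Set (ℕ → Fin a), IsOpen s → ∃ V, Good (F0 a) V ∧ Dcd V s)
    (hB : Ub C F0) (α : Ordinal.{0}) (hα : α.card ≤ Cardinal.aleph0) :
    ∃ F : ℕ → ℕ → ℕ, (∀ a, Wd (F a)) ∧ Ub C F ∧
      ∀ a, 0 < a → ∀ s : Set (ℕ → Fin a), Sg α s → ∃ V, Good (F a) V ∧ Dcd V s := by
  classical
  induction α using WellFoundedLT.induction with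
  | ind α ih =>
    rcases eq_or_ne α 0 with hz | hz
    · refine ⟨F0, hF0, hB, fun a ha s hs => ?_⟩
      cases hs with
      | opn α s hs => exact hO a ha s hs
      | uni α f β hβ hf =>
        have := hβ 0
        rw [hz] at this
        exact absurd this not_lt_zero
    · have hcount : (Set.Iio α).Countable := by
        rw [← Cardinal.le_aleph0_iff_set_countable, Cardinal.mk_Iio_ordinal]
        rw [Cardinal.lift_le_aleph0]
        exact hα
      obtain ⟨e, he⟩ := hcount.exists_eq_range ⟨0, pos_iff_ne_zero.2 hz⟩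
      have helt : ∀ n, e n < α := fun n => by
        have : e n ∈ Set.Iio α := by rw [he]; exact Set.mem_range_self n
        exact this
      have ih' := fun n : ℕ => ih (e n.unpair.2) (helt _) ((Ordinal.card_le_card (helt _).le).trans hα)
      choose F hF hFb hFd using ih'
      choose hn hnC N hN using hFb
      obtain ⟨h, hhC, hle⟩ := hC.dir hn hnC
      have hthr : ∀ n, ∃ t, ∀ i ≥ t, ∀ a ≤ i, F n a i ≤ h i := by
        intro n
        obtain ⟨m, hm⟩ := hle n
        exact ⟨max (N n) m, fun i hi a ha => (hN n i ((le_max_left _ _).trans hi) a ha).trans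
          (hm i ((le_max_right _ _).trans hi))⟩
      choose T hT using hthr
      obtain ⟨t, htd⟩ : ∃ t : ℕ → ℕ, t = fun n => n + ∑ j ∈ Finset.range (n + 1), T j := ⟨_, rfl⟩
      have htT : ∀ n, T n ≤ t n := by
        intro n
        rw [htd]
        have := Finset.single_le_sum (f := T) (s := Finset.range (n + 1)) (fun _ _ => Nat.zero_le _)
          (Finset.mem_range.2 (Nat.lt_succ_self n))
        show T n ≤ n + ∑ j ∈ Finset.range (n + 1), T j
        omega
      have htm : StrictMono t := by
        refine strictMono_nat_of_lt_succ fun n => ?_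
        rw [htd]
        show n + ∑ j ∈ Finset.range (n + 1), T j < n + 1 + ∑ j ∈ Finset.range (n + 1 + 1), T j
        rw [Finset.sum_range_succ T (n + 1)]
        omega
      have hhM := hC.mi h hhC
      have hfu : ∀ a : ℕ, ∃ G, Wd G ∧ (∀ i ≥ a, G i ≤ Jo h i) ∧ (0 < a →
          ∀ s : ℕ → Set (ℕ → Fin a), (∀ n, Sg (e n.unpair.2) (s n)) → ∃ V, Good G V ∧
            ∀ n z z', (∀ i < t n + a, z i = z' i) → (ev V z ∈ s n ↔ ev V z' ∈ s n)) := by
        intro a
        rcases Nat.eq_zero_or_pos a with h0 | h0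
        · exact ⟨fun i => i, ⟨rfl, fun i => Nat.lt_succ_self i⟩, fun i _ => (hhM.jo.lt i).le,
            fun h1 => absurd h1 (by omega)⟩
        · obtain ⟨G, hG, hGb, hGd⟩ := win_fusU h0 (C := fun n s => Sg (e n.unpair.2) s)
            (fun n s hs f hf => Sg.pre hf hs) (fun n => F n a) (fun n => hF n a)
            (fun n s hs => hFd n a h0 s hs) hhM (fun n => t n + a)
            (fun n m hnm => Nat.add_lt_add_right (htm hnm) a)
            (fun n i hi => hT n i ((htT n).trans ((Nat.le_add_right _ _).trans hi)) a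
              ((Nat.le_add_left _ _).trans hi))
          exact ⟨G, hG, hGb, fun _ => hGd⟩
      choose G hG hGb hGd using hfu
      refine ⟨fun a i => G a (F0 a i), fun a => (hG a).comp (hF0 a), ?_, fun a ha s hs => ?_⟩
      · obtain ⟨h0, hh0, n0, hn0⟩ := hB
        obtain ⟨h1, hh1, n1, hn1⟩ := hC.cl h hhC
        obtain ⟨h2, hh2, hle2⟩ := hC.dir (fun n => if n = 0 then h0 else h1) (fun n => by
          show (if n = 0 then h0 else h1) ∈ C
          split_ifs
          · exact hh0
          · exact hh1)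
        obtain ⟨m0, hm0⟩ := hle2 0
        obtain ⟨m1, hm1⟩ := hle2 1
        obtain ⟨h3, hh3, n3, hn3⟩ := hC.cl h2 hh2
        have hM2 := hC.mi h2 hh2
        refine ⟨h3, hh3, n0 + n1 + m0 + m1 + n3, fun i hi a hai => ?_⟩
        have hi1 : i ≤ F0 a i := (hF0 a).mono.le_apply
        have e0 : h0 i ≤ h2 i := hm0 i (by omega)
        have e1 : h1 (F0 a i) ≤ h2 (F0 a i) := hm1 _ (by omega)
        calc G a (F0 a i) ≤ Jo h (F0 a i) := hGb a _ (hai.trans hi1)
          _ ≤ h1 (F0 a i) := hn1 _ (by omega)
          _ ≤ h2 (F0 a i) := e1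
          _ ≤ h2 (h2 i) := hM2.mono ((hn0 i (by omega) a hai).trans e0)
          _ = h2^[2] i := rfl
          _ ≤ h2^[phi i] i := hM2.iter_le (by unfold phi; omega) i
          _ ≤ h3 i := hn3 i (by omega)
      · have key : ∀ V1 : ℕ → Fin a ⊕ ℕ, Good (G a) V1 → IsOpen {z | ev V1 z ∈ s} →
            ∃ V, Good (fun i => G a (F0 a i)) V ∧ Dcd V s := by
          intro V1 hV1 ho
          obtain ⟨V2, hV2, hd⟩ := hO a ha _ ho
          refine ⟨cmp V1 V2, Good.comp (hG a) hV1 hV2, ?_⟩
          rcases hd with hd | hd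
          · left
            intro z
            rw [ev_cmp]
            exact hd z
          · right
            intro z
            rw [ev_cmp]
            exact hd z
        cases hs with
        | opn α s hs =>
          obtain ⟨V1, hV1⟩ := good_ex ha (hG a)
          exact key V1 hV1 (hs.preimage (cont_ev V1))
        | uni α f β hβ hf =>
          obtain ⟨V1, hV1, hdec⟩ := hGd a ha
            (fun m => if e m.unpair.2 = β m.unpair.1 then (f m.unpair.1)ᶜ else Set.univ) (fun m => by
              show Sg (e m.unpair.2) (if e m.unpair.2 = β m.unpair.1 then (f m.unpair.1)ᶜ else Set.univ)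
              split_ifs with h
              · rw [h]
                exact hf _
              · exact Sg.opn _ _ isOpen_univ)
          refine key V1 hV1 (isOpen_iff_forall_mem_open.2 fun z hz' => ?_)
          have hz2 : ev V1 z ∈ ⋃ n, f n := hz'
          obtain ⟨n, hn⟩ := Set.mem_iUnion.1 hz2
          obtain ⟨j, hj⟩ : ∃ j, e j = β n := by
            have : β n ∈ Set.Iio α := hβ n
            rw [he] at this
            exact this
          refine ⟨{z' | ∀ i < t (Nat.pair n j) + a, z' i = z i}, fun z' hz3 => ?_, UIn_cyl z _,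
            fun i _ => rfl⟩
          have h1 := hdec (Nat.pair n j) z' z hz3
          have h2 : (if e (Nat.pair n j).unpair.2 = β (Nat.pair n j).unpair.1 then
              (f (Nat.pair n j).unpair.1)ᶜ else Set.univ) = (f n)ᶜ := by
            rw [Nat.unpair_pair]
            exact if_pos hj
          rw [h2, Set.mem_compl_iff, Set.mem_compl_iff, not_iff_not] at h1
          exact Set.mem_iUnion.2 ⟨n, h1.2 hn⟩

end Pool.Agent.DC
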