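import Pool.Agent.H.MP_b2838e_lc.C.UVe

/-!
# Module UFu: fusion of words with a bound for the windows

Proof. As `win_fus` (C/RFu.lean; copy `RFu_abs`, `RFu_stage` with explicit windows, `RFu_G`, `RFu_V`). The stage `m` is trivial
(`K m i = i`, `W m = inr`, set `univ`) if `m` is not a value of `t`; for `m = t n` it is the stage of `RFu` with `C n` and the windows
`H = (F n)^[a ^ m]` (`win_vecU`, `ι = Fin m → Fin a`, `Fintype.card = a ^ m`), `K m i = i` for `i ≤ m`, `K m i = m + H (i - m)` for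
`i ≥ m`. Bound: for `i ≥ m`: `m + H (i - m) ≤ H i` (`H` strictly monotone) `≤ h^[a ^ m] i` (`iter_le_iter`, `hb`, `i ≥ t n`). By induction on
`m`: `G m i ≤ h^[∑ j ∈ range m, a ^ j] i` for `i ≥ m` (`G (m+1) i = G m (K m i)`, `K m i ≥ i`, `Mi.iter_mono`,
`Function.iterate_add_apply`). The windows are `G i i ≤ h^[∑ j ∈ range i, a ^ j] i ≤ h^[phi i] i` for `i ≥ a`, as
`∑ j ∈ range i, a ^ j ≤ i * i ^ i ≤ phi i`.
-/

set_option autoImplicit false

namespace Pool.Agent.DC

private theorem UFu_abs {a : ℕ} {s : ℕ → Set (ℕ → Fin a)} (t : ℕ → ℕ) (K G : ℕ → ℕ → ℕ)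
    (V W : ℕ → ℕ → Fin a ⊕ ℕ) (hV : ∀ m, V (m + 1) = cmp (V m) (W m))
    (hG : ∀ m i, G (m + 1) i = G m (K m i)) (hK : ∀ m, ∀ i ≤ m, K m i = i)
    (hW : ∀ m, ∀ i < m, W m i = Sum.inr i) (hwd : ∀ m, Wd (G m)) (hgood : ∀ m, Good (G m) (V m))
    (hdec : ∀ n z z', (∀ i < t n, z i = z' i) →
      (ev (V (t n + 1)) z ∈ s n ↔ ev (V (t n + 1)) z' ∈ s n)) :
    ∃ X, Good (fun i => G i i) X ∧
      ∀ n z z', (∀ i < t n, z i = z' i) → (ev X z ∈ s n ↔ ev X z' ∈ s n) := by
  have hGle : ∀ i m m', i ≤ m → m ≤ m' → G m' i = G m i := by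
    intro i m m' him hm
    induction m', hm using Nat.le_induction with
    | base => rfl
    | succ m' hm ih => rw [hG, hK m' i (him.trans hm), ih]
  -- fact (a)
  have ha : ∀ m n b, V m n = Sum.inl b → ∀ m', m ≤ m' → V m' n = Sum.inl b := by
    intro m n b h m' hm
    induction m', hm using Nat.le_induction with
    | base => exact h
    | succ m' hm ih =>
      rw [hV]
      unfold cmp
      rw [ih]
  -- fact (b)
  have hb : ∀ m n i, V m n = Sum.inr i → i < m → ∀ m', m ≤ m' → V m' n = Sum.inr i := by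
    intro m n i h hi m' hm
    induction m', hm using Nat.le_induction with
    | base => exact h
    | succ m' hm ih =>
      rw [hV]
      unfold cmp
      rw [ih]
      exact hW m' i (lt_of_lt_of_le hi hm)
  -- fact (c)
  have hc : ∀ m n n', V m n = V m n' → ∀ m', m ≤ m' → V m' n = V m' n' := by
    intro m n n' h m' hm
    induction m', hm using Nat.le_induction with
    | base => exact h
    | succ m' hm ih =>
      rw [hV]
      unfold cmp
      rw [ih]
  -- fact (d)
  have hd : ∀ m n i, V m n = Sum.inr i → i ≤ n := by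
    intro m n i h
    exact ((hwd m).mono.le_apply).trans ((hgood m).win n i h).1
  have hst : ∀ n m, n + 1 ≤ m → V m n = V (n + 1) n := by
    intro n m hm
    rcases h : V (n + 1) n with b | i
    · exact ha (n + 1) n b h m hm
    · exact hb (n + 1) n i h (Nat.lt_succ_of_le (hd _ _ _ h)) m hm
  have hba : ∀ m n b, V m n = Sum.inl b → V (n + 1) n = Sum.inl b := by
    intro m n b h
    rw [← hst n (max m (n + 1)) (le_max_right _ _)]
    exact ha m n b h _ (le_max_left _ _)
  have hbb : ∀ m n i, V m n = Sum.inr i → i < m → V (n + 1) n = Sum.inr i := by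
    intro m n i h hi
    rw [← hst n (max m (n + 1)) (le_max_right _ _)]
    exact hb m n i h hi _ (le_max_left _ _)
  have hbc : ∀ m n n', V m n = V m n' → V (n + 1) n = V (n' + 1) n' := by
    intro m n n' h
    rw [← hst n (max m (max (n + 1) (n' + 1))) ((le_max_left _ _).trans (le_max_right _ _)),
      ← hst n' (max m (max (n + 1) (n' + 1))) ((le_max_right _ _).trans (le_max_right _ _))]
    exact hc m n n' h _ (le_max_left _ _)
  refine ⟨fun n => V (n + 1) n, ⟨?_, ?_⟩, ?_⟩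
  · intro n i h
    have h1 : V (max (n + 1) (i + 1)) n = Sum.inr i := by
      rw [hst n _ (le_max_left _ _)]
      exact h
    obtain ⟨h2, h3⟩ := (hgood _).win n i h1
    rw [hGle i i _ le_rfl ((Nat.le_succ i).trans (le_max_right _ _))] at h2
    rw [hGle (i + 1) (i + 1) _ le_rfl (le_max_right _ _)] at h3
    exact ⟨h2, h3⟩
  · intro i
    obtain ⟨n, hn⟩ := (hgood (i + 1)).ex i
    exact ⟨n, hbb (i + 1) n i hn (Nat.lt_succ_self i)⟩
  · intro n0 z z' hz
    obtain ⟨m, hm⟩ : ∃ m, m = t n0 := ⟨_, rfl⟩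
    have hdec' := hdec n0
    rw [← hm] at hz hdec'
    choose N hN using (hgood (m + 1)).ex
    have key : ∀ z : ℕ → Fin a, ev (fun n => V (n + 1) n) z =
        ev (V (m + 1)) (fun i => ev (fun n => V (n + 1) n) z (N i)) := by
      intro z
      funext n
      rcases h : V (m + 1) n with b | i
      · have h1 := hba _ _ _ h
        show (match V (n + 1) n with
          | Sum.inl b => b
          | Sum.inr m => z m) = (match V (m + 1) n with
          | Sum.inl b => b
          | Sum.inr i => ev (fun n => V (n + 1) n) z (N i))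
        rw [h1, h]
      · have h1 := hbc (m + 1) n (N i) (h.trans (hN i).symm)
        show (match V (n + 1) n with
          | Sum.inl b => b
          | Sum.inr m => z m) = (match V (m + 1) n with
          | Sum.inl b => b
          | Sum.inr i => ev (fun n => V (n + 1) n) z (N i))
        rw [h, h1]
        rfl
    have hz1 : ∀ (z : ℕ → Fin a) (i : ℕ), i < m + 1 →
        ev (fun n => V (n + 1) n) z (N i) = z i := by
      intro z i hi
      have h1 := hbb (m + 1) (N i) i (hN i) hi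
      show (match V (N i + 1) (N i) with
          | Sum.inl b => b
          | Sum.inr m => z m) = z i
      rw [h1]
    rw [key z, key z']
    refine hdec' _ _ (fun i hi => ?_)
    show ev (fun n => V (n + 1) n) z (N i) = ev (fun n => V (n + 1) n) z' (N i)
    rw [hz1 z i (by omega), hz1 z' i (by omega), hz i hi]

private theorem UFu_stage {a : ℕ} {C : Set (ℕ → Fin a) → Prop}
    (hC : ∀ s, C s → ∀ f : (ℕ → Fin a) → ℕ → Fin a, Continuous f → C (f ⁻¹' s))
    {F : ℕ → ℕ} (hF : Wd F) (h : ∀ s, C s → ∃ V, Good F V ∧ Dcd V s) {g : ℕ → ℕ} (hg : Mi g) (m : ℕ)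
    (hb : ∀ i ≥ m, F i ≤ g i) :
    ∃ K : ℕ → ℕ, Wd K ∧ (∀ i ≤ m, K i = i) ∧ (∀ i ≥ m, K i ≤ g^[a ^ m] i) ∧
      ∀ (V : ℕ → Fin a ⊕ ℕ) (s : Set (ℕ → Fin a)), C s →
      ∃ W : ℕ → Fin a ⊕ ℕ, Good K W ∧ (∀ i < m, W i = Sum.inr i) ∧
        ∀ z z', (∀ i < m, z i = z' i) → (ev (cmp V W) z ∈ s ↔ ev (cmp V W) z' ∈ s) := by
  have hcard : Fintype.card (Fin m → Fin a) = a ^ m := by
    rw [Fintype.card_fun, Fintype.card_fin, Fintype.card_fin]
  have hD := win_vecU hC hF h (Fin m → Fin a)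
  rw [hcard] at hD
  have hH : Wd (F^[a ^ m]) := hF.iter (a ^ m)
  have hHb : ∀ i ≥ m, (F^[a ^ m]) i ≤ g^[a ^ m] i :=
    iter_le_iter hg (fun i => hF.mono.le_apply) hb (a ^ m)
  generalize F^[a ^ m] = H at hD hH hHb
  obtain ⟨K, hKd⟩ : ∃ K : ℕ → ℕ, K = fun i => if i ≤ m then i else m + H (i - m) := ⟨_, rfl⟩
  have hK1 : ∀ i ≤ m, K i = i := by
    intro i hi
    rw [hKd]
    exact if_pos hi
  have hK2 : ∀ j, K (m + j) = m + H j := by
    intro j
    rcases Nat.eq_zero_or_pos j with h0 | h0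
    · subst h0
      rw [hK1 _ (by omega), hH.zero]
    · rw [hKd]
      show (if m + j ≤ m then m + j else m + H (m + j - m)) = m + H j
      rw [if_neg (by omega)]
      congr 2
      omega
  have hKw : Wd K := by
    refine ⟨hK1 0 (Nat.zero_le _), fun i => ?_⟩
    rcases Nat.lt_or_ge i m with h1 | h1
    · rw [hK1 i h1.le, hK1 (i + 1) h1]
      exact Nat.lt_succ_self i
    · obtain ⟨j, rfl⟩ := Nat.exists_eq_add_of_le h1
      rw [hK2 j, add_assoc, hK2 (j + 1)]
      have := hH.lt j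
      omega
  have hKb : ∀ i ≥ m, K i ≤ g^[a ^ m] i := by
    intro i hi
    refine le_trans ?_ (hHb i hi)
    obtain ⟨j, rfl⟩ := Nat.exists_eq_add_of_le hi
    rw [hK2 j]
    exact hH.mono.add_le_nat m j
  refine ⟨K, hKw, hK1, hKb, fun V s hs => ?_⟩
  let gl : (Fin m → Fin a) → (ℕ → Fin a) → ℕ → Fin a := fun τ z i =>
    if hi : i < m then τ ⟨i, hi⟩ else z (i - m)
  have hgl : ∀ τ, Continuous (gl τ) := by
    intro τ
    refine continuous_pi fun i => ?_
    by_cases hi : i < m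
    · have : (fun z : ℕ → Fin a => gl τ z i) = fun _ => τ ⟨i, hi⟩ := by
        funext z
        exact dif_pos hi
      rw [this]
      exact continuous_const
    · have : (fun z : ℕ → Fin a => gl τ z i) = fun z => z (i - m) := by
        funext z
        exact dif_neg hi
      rw [this]
      exact continuous_apply _
  obtain ⟨V', hV', hdcd⟩ := hD (fun τ => (fun z => ev V (gl τ z)) ⁻¹' s)
    (fun τ => hC s hs _ ((cont_ev V).comp (hgl τ)))
  obtain ⟨W, hWd⟩ : ∃ W : ℕ → Fin a ⊕ ℕ, W = fun i => if i < m then Sum.inr i else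
      Sum.map id (fun j => m + j) (V' (i - m)) := ⟨_, rfl⟩
  have hW1 : ∀ i < m, W i = Sum.inr i := by
    intro i hi
    rw [hWd]
    exact if_pos hi
  have hW2 : ∀ n, m ≤ n → W n = Sum.map id (fun j => m + j) (V' (n - m)) := by
    intro n hn
    rw [hWd]
    exact if_neg (by omega)
  refine ⟨W, ⟨?_, ?_⟩, hW1, ?_⟩
  · intro n i hi
    rcases Nat.lt_or_ge n m with h1 | h1
    · rw [hW1 n h1] at hi
      have h2 : n = i := Sum.inr.inj hi
      subst h2
      rw [hK1 n h1.le, hK1 (n + 1) h1]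
      exact ⟨le_rfl, Nat.lt_succ_self n⟩
    · rw [hW2 n h1] at hi
      rcases h2 : V' (n - m) with b | j
      · rw [h2] at hi
        exact absurd hi (by simp)
      · rw [h2] at hi
        have h3 : m + j = i := Sum.inr.inj hi
        subst h3
        obtain ⟨h4, h5⟩ := hV'.win _ _ h2
        rw [hK2 j, add_assoc, hK2 (j + 1)]
        omega
  · intro i
    rcases Nat.lt_or_ge i m with h1 | h1
    · exact ⟨i, hW1 i h1⟩
    · obtain ⟨j, rfl⟩ := Nat.exists_eq_add_of_le h1
      obtain ⟨n, hn⟩ := hV'.ex j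
      refine ⟨m + n, ?_⟩
      rw [hW2 _ (by omega), Nat.add_sub_cancel_left, hn]
      rfl
  · have key : ∀ z : ℕ → Fin a, ev W z = gl (fun i => z i) (ev V' fun j => z (m + j)) := by
      intro z
      funext i
      rcases Nat.lt_or_ge i m with h1 | h1
      · have h2 : gl (fun i => z i) (ev V' fun j => z (m + j)) i = z i := dif_pos h1
        rw [h2]
        show (match W i with
          | Sum.inl b => b
          | Sum.inr m => z m) = z i
        rw [hW1 i h1]
      · have h2 : gl (fun i => z i) (ev V' fun j => z (m + j)) i =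
            ev V' (fun j => z (m + j)) (i - m) := dif_neg (by omega)
        rw [h2]
        show (match W i with
          | Sum.inl b => b
          | Sum.inr m => z m) = (match V' (i - m) with
          | Sum.inl b => b
          | Sum.inr j => z (m + j))
        rw [hW2 i h1]
        rcases V' (i - m) with b | j <;> rfl
    intro z z' hz
    rw [ev_cmp, ev_cmp, key z, key z']
    have h1 : (fun i : Fin m => z i) = fun i : Fin m => z' i := by
      funext i
      exact hz i i.2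
    rw [h1]
    rcases hdcd (fun i : Fin m => z' i) with h2 | h2
    · exact ⟨fun _ => h2 (fun j => z' (m + j)), fun _ => h2 (fun j => z (m + j))⟩
    · exact ⟨fun h3 => absurd h3 (h2 (fun j => z (m + j))),
        fun h3 => absurd h3 (h2 (fun j => z' (m + j)))⟩

/-- The windows of the stages. -/
private def UFu_G (K : ℕ → ℕ → ℕ) : ℕ → ℕ → ℕ
  | 0, i => i
  | m + 1, i => UFu_G K m (K m i)

/-- The words of the stages. -/
private def UFu_V {a : ℕ} (w : ℕ → (ℕ → Fin a ⊕ ℕ) → ℕ → Fin a ⊕ ℕ) : ℕ → ℕ → Fin a ⊕ ℕ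
  | 0 => Sum.inr
  | m + 1 => cmp (UFu_V w m) (w m (UFu_V w m))

private theorem UFu_stage2 {a : ℕ} (ha : 0 < a) {C : ℕ → Set (ℕ → Fin a) → Prop}
    (hC : ∀ n s, C n s → ∀ f : (ℕ → Fin a) → ℕ → Fin a, Continuous f → C n (f ⁻¹' s))
    (F : ℕ → ℕ → ℕ) (hF : ∀ n, Wd (F n)) (hD : ∀ n s, C n s → ∃ V, Good (F n) V ∧ Dcd V s)
    {h : ℕ → ℕ} (hh : Mi h) (t : ℕ → ℕ) (ht : StrictMono t) (hb : ∀ n, ∀ i ≥ t n, F n i ≤ h i)
    (m : ℕ) :
    ∃ K : ℕ → ℕ, Wd K ∧ (∀ i ≤ m, K i = i) ∧ (∀ i ≥ m, K i ≤ h^[a ^ m] i) ∧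
      ∀ (V : ℕ → Fin a ⊕ ℕ) (s : ℕ → Set (ℕ → Fin a)), (∀ n, C n (s n)) →
      ∃ W : ℕ → Fin a ⊕ ℕ, Good K W ∧ (∀ i < m, W i = Sum.inr i) ∧
        ∀ n, t n = m → ∀ z z', (∀ i < m, z i = z' i) →
          (ev (cmp V W) z ∈ s n ↔ ev (cmp V W) z' ∈ s n) := by
  by_cases hm : ∃ n, t n = m
  · obtain ⟨n0, hn0⟩ := hm
    subst hn0
    obtain ⟨K, h1, h2, h3, h4⟩ := UFu_stage (hC n0) (hF n0) (hD n0) hh (t n0) (hb n0)
    refine ⟨K, h1, h2, h3, fun V s hs => ?_⟩
    obtain ⟨W, h5, h6, h7⟩ := h4 V (s n0) (hs n0)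
    refine ⟨W, h5, h6, fun n hn => ?_⟩
    have h8 : n = n0 := ht.injective hn
    subst h8
    exact h7
  · refine ⟨fun i => i, ⟨rfl, fun i => Nat.lt_succ_self i⟩, fun i _ => rfl,
      fun i _ => hh.le_iter _ i, fun V s _ => ?_⟩
    exact ⟨Sum.inr, good_id, fun i _ => rfl, fun n hn => absurd ⟨n, hn⟩ hm⟩

private theorem UFu_sum {a i : ℕ} (ha : 0 < a) (hi : a ≤ i) :
    ∑ j ∈ Finset.range i, a ^ j ≤ phi i := by
  have hi0 : 0 < i := lt_of_lt_of_le ha hi
  have h1 : ∑ j ∈ Finset.range i, a ^ j ≤ ∑ _j ∈ Finset.range i, i ^ i := by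
    refine Finset.sum_le_sum fun j hj => ?_
    exact (Nat.pow_le_pow_left hi j).trans
      (Nat.pow_le_pow_right hi0 (Finset.mem_range.1 hj).le)
  rw [Finset.sum_const, Finset.card_range, smul_eq_mul] at h1
  refine h1.trans ?_
  unfold phi
  have h2 : i * i ^ i ≤ i * (i + 2 + i ^ i * i) := by
    refine Nat.mul_le_mul_left i ?_
    have h3 : i ^ i ≤ i ^ i * i := Nat.le_mul_of_pos_right _ hi0
    omega
  omega

theorem win_fusU {a : ℕ} (ha : 0 < a) {C : ℕ → Set (ℕ → Fin a) → Prop}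
    (hC : ∀ n s, C n s → ∀ f : (ℕ → Fin a) → ℕ → Fin a, Continuous f → C n (f ⁻¹' s))
    (F : ℕ → ℕ → ℕ) (hF : ∀ n, Wd (F n)) (hD : ∀ n s, C n s → ∃ V, Good (F n) V ∧ Dcd V s)
    {h : ℕ → ℕ} (hh : Mi h) (t : ℕ → ℕ) (ht : StrictMono t) (hb : ∀ n, ∀ i ≥ t n, F n i ≤ h i) :
    ∃ G, Wd G ∧ (∀ i ≥ a, G i ≤ Jo h i) ∧
      ∀ s : ℕ → Set (ℕ → Fin a), (∀ n, C n (s n)) → ∃ V, Good G V ∧
        ∀ n z z', (∀ i < t n, z i = z' i) → (ev V z ∈ s n ↔ ev V z' ∈ s n) := by
  have hst := fun m => UFu_stage2 ha hC F hF hD hh t ht hb m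
  choose K hKw hK hKb hW using hst
  have hwd : ∀ m, Wd (UFu_G K m) := by
    intro m
    induction m with
    | zero => exact ⟨rfl, fun i => Nat.lt_succ_self i⟩
    | succ m ih => exact ih.comp (hKw m)
  have hGb : ∀ m, ∀ i ≥ m, UFu_G K m i ≤ h^[∑ j ∈ Finset.range m, a ^ j] i := by
    intro m
    induction m with
    | zero =>
      intro i _
      rw [Finset.range_zero, Finset.sum_empty]
      exact le_rfl
    | succ m ih =>
      intro i hi
      have h1 : m ≤ i := (Nat.le_succ m).trans hi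
      have h2 : i ≤ K m i := (hKw m).mono.le_apply
      have h3 := ih (K m i) (h1.trans h2)
      have h4 := hKb m i h1
      show UFu_G K m (K m i) ≤ _
      rw [Finset.sum_range_succ, Function.iterate_add_apply]
      exact h3.trans (hh.iter_mono _ h4)
  refine ⟨fun i => UFu_G K i i, ⟨rfl, fun i => ?_⟩, fun i hi => ?_, fun s hs => ?_⟩
  · have h1 : UFu_G K (i + 1) i = UFu_G K i i := by
      show UFu_G K i (K i i) = UFu_G K i i
      rw [hK i i le_rfl]
    rw [← h1]
    exact (hwd (i + 1)).lt i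
  · exact (hGb i i le_rfl).trans (hh.iter_le (UFu_sum ha hi) i)
  · have hW' := fun (m : ℕ) (V : ℕ → Fin a ⊕ ℕ) => hW m V s hs
    choose w hw1 hw2 hw3 using hW'
    refine UFu_abs t K (UFu_G K) (UFu_V w) (fun m => w m (UFu_V w m)) (fun m => rfl)
      (fun m i => rfl) hK (fun m => hw2 m _) hwd ?_ (fun n => hw3 (t n) _ n rfl)
    intro m
    induction m with
    | zero => exact good_id
    | succ m ih => exact Good.comp (F := UFu_G K m) (F' := K m) (hwd m) ih (hw1 m _)

end Pool.Agent.DC
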