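import Pool.Agent.H.MP_b2838e_lc.C.UDef

/-!
# Module ULim: limits of growth functions

Proof. Say `L h h' A B` (`h`, `h'` monotone above the identity): for all `i ≥ A` with `h' i < B` we have `h i ≤ h' i`.
(1) If `h ≤ h'` on `[A, B)` then `L h h' A B` (because `i < h' i < B`). (2) `L h h' A B` implies `L (Jo h) (Jo h') A B`: if
`h'^[N] i < B`, `i ≥ A`, then by induction `h^[j] i ≤ h'^[j] i` for `j ≤ N`: `h (h^[j] i) ≤ h (h'^[j] i) ≤ h' (h'^[j] i)`, since
`h'^[j] i ≥ A` and `h' (h'^[j] i) ≤ h'^[N] i < B`. So `L (Jo^[m] h) (Jo^[m] h') A B` for all `m` (`Mi.jo`).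
Choose `a 0 < a 1 < …` such that (i) `d n i ≤ d (n+1) i` for `i ≥ a n`, (ii) `Jo^[m] (d (n+1)) i ≤ g i` for `i ≥ a n`, `m ≤ n + 1`,
(iii) `g (a (n+1)) < a (n+2)` (or `g (a n) < a (n+1)`). Let `h i = d n i` for `a n ≤ i < a (n+1)` and `h i = d 0 i` for `i < a 0`.
`h` is monotone (`d n i ≤ d (n+1) i` at the jumps) and above the identity, `d n i ≤ h i` for `i ≥ a n`. For `a n ≤ i < a (n+1)`:
`h ≤ d (n+1)` on `[a n, a (n+2))`, so `Jo^[m] h i ≤ Jo^[m] (d (n+1)) i ≤ g i` for `m ≤ n + 1`, because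
`Jo^[m] (d (n+1)) i ≤ g i ≤ g (a (n+1)) < a (n+2)`. So `Evl (Jo^[m] h) g` (from `a m` on).
-/

set_option autoImplicit false

namespace Pool.Agent.DC

/-- the comparison of two growth functions between `A` and `B` -/
private def ULim_L (h h' : ℕ → ℕ) (A B : ℕ) : Prop := ∀ i ≥ A, h' i < B → h i ≤ h' i

private theorem ULim_step {h h' : ℕ → ℕ} {A B : ℕ} (hh : Mi h) (hh' : Mi h')
    (hL : ULim_L h h' A B) : ULim_L (Jo h) (Jo h') A B := by
  intro i hi hlt
  have key : ∀ j, j ≤ phi i → h^[j] i ≤ h'^[j] i := by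
    intro j
    induction j with
    | zero => exact fun _ => le_rfl
    | succ j ih =>
      intro hj
      rw [Function.iterate_succ_apply', Function.iterate_succ_apply']
      refine (hh.mono (ih (by omega))).trans (hL _ (le_trans hi (hh'.le_iter j i)) ?_)
      have e : h' (h'^[j] i) = h'^[j + 1] i := (Function.iterate_succ_apply' h' j i).symm
      rw [e]
      exact lt_of_le_of_lt (hh'.iter_le hj i) hlt
  exact key (phi i) le_rfl

private theorem ULim_mi {h : ℕ → ℕ} (hh : Mi h) (m : ℕ) : Mi (Jo^[m] h) := by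
  induction m with
  | zero => exact hh
  | succ m ih =>
    rw [Function.iterate_succ_apply']
    exact ih.jo

private theorem ULim_all {h h' : ℕ → ℕ} {A B : ℕ} (hh : Mi h) (hh' : Mi h')
    (hL : ULim_L h h' A B) (m : ℕ) : ULim_L (Jo^[m] h) (Jo^[m] h') A B := by
  induction m with
  | zero => exact hL
  | succ m ih =>
    rw [Function.iterate_succ_apply', Function.iterate_succ_apply']
    exact ULim_step (ULim_mi hh m) (ULim_mi hh' m) ih

private theorem ULim_thr {g f : ℕ → ℕ} (hf : Tm g f) (K : ℕ) :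
    ∃ B, ∀ i ≥ B, ∀ m ≤ K, (Jo^[m] f) i ≤ g i := by
  induction K with
  | zero =>
    obtain ⟨B, hB⟩ := hf.2 0
    refine ⟨B, fun i hi m hm => ?_⟩
    have h0 : m = 0 := by omega
    rw [h0]
    exact hB i hi
  | succ K ih =>
    obtain ⟨B, hB⟩ := ih
    obtain ⟨B', hB'⟩ := hf.2 (K + 1)
    refine ⟨B + B', fun i hi m hm => ?_⟩
    by_cases h0 : m = K + 1
    · rw [h0]
      exact hB' i (by omega)
    · exact hB i (by omega) m (by omega)

/-- the thresholds -/
private def ULim_a (g α β : ℕ → ℕ) : ℕ → ℕ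
  | 0 => α 0 + β 0
  | n + 1 => α (n + 1) + β (n + 1) + g (ULim_a g α β n) + ULim_a g α β n + 1

theorem lim_tm {g : ℕ → ℕ} (hg : Monotone g) (d : ℕ → ℕ → ℕ) (hd : ∀ n, Tm g (d n))
    (hi : ∀ n, Evl (d n) (d (n + 1))) : ∃ h, Tm g h ∧ ∀ n, Evl (d n) h := by
  choose α hα using hi
  choose β hβ using fun n => ULim_thr (hd (n + 1)) (n + 1)
  obtain ⟨a, ha⟩ : ∃ a, a = ULim_a g α β := ⟨_, rfl⟩
  have a0 : a 0 = α 0 + β 0 := by rw [ha]; rfl
  have a1 : ∀ n, a (n + 1) = α (n + 1) + β (n + 1) + g (a n) + a n + 1 := by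
    intro n
    rw [ha]; rfl
  have aα : ∀ n, α n ≤ a n := by
    intro n
    cases n with
    | zero => omega
    | succ n => have := a1 n; omega
  have aβ : ∀ n, β n ≤ a n := by
    intro n
    cases n with
    | zero => omega
    | succ n => have := a1 n; omega
  have ag : ∀ n, g (a n) < a (n + 1) := by
    intro n
    have := a1 n
    omega
  have alt : ∀ n, a n < a (n + 1) := by
    intro n
    have := a1 n
    omega
  have amono : StrictMono a := strictMono_nat_of_lt_succ alt
  have age : ∀ n, n ≤ a n := fun n => amono.le_apply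
  -- the index
  obtain ⟨idx, hidx⟩ : ∃ idx : ℕ → ℕ, idx = fun i => Nat.findGreatest (fun n => a n ≤ i) i :=
    ⟨_, rfl⟩
  have i1 : ∀ i j, i ≤ j → idx i ≤ idx j := by
    intro i j hij
    rw [hidx]
    exact Nat.findGreatest_mono (fun n hn => le_trans hn hij) hij
  have i2 : ∀ n i, a n ≤ i → n ≤ idx i := by
    intro n i hn
    rw [hidx]
    exact Nat.le_findGreatest ((age n).trans hn) hn
  have i3 : ∀ i, idx i ≠ 0 → a (idx i) ≤ i := by
    intro i h0
    rw [hidx] at h0 ⊢
    exact Nat.findGreatest_of_ne_zero (P := fun n => a n ≤ i) rfl h0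
  have i4 : ∀ i, i < a (idx i + 1) := by
    intro i
    by_contra hc
    have := i2 (idx i + 1) i (by omega)
    omega
  have D : ∀ n n' i, n ≤ n' → (n < n' → a n' ≤ i) → d n i ≤ d n' i := by
    intro n n' i hnn
    induction n', hnn using Nat.le_induction with
    | base => exact fun _ => le_rfl
    | succ n' hnn ih =>
      intro hlt
      have h1 := hlt (by omega)
      have h2 := alt n'
      have h3 : a n' ≤ i := by omega
      exact (ih fun _ => h3).trans (hα n' i ((aα n').trans h3))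
  have hlow : ∀ n i, n ≤ idx i → d n i ≤ d (idx i) i := by
    intro n i hn
    exact D n (idx i) i hn fun hlt => i3 i (by omega)
  have hmi : Mi (fun i => d (idx i) i) := by
    refine ⟨fun i j hij => ?_, fun i => (hd (idx i)).1.lt i⟩
    exact ((hd (idx i)).1.mono hij).trans (hlow (idx i) j (i1 i j hij))
  have hup : ∀ n i, a n ≤ i → i < a (n + 2) → d (idx i) i ≤ d (n + 1) i := by
    intro n i h1 h2
    have h3 := i2 n i h1
    have h4 : idx i ≤ n + 1 := by
      by_contra hc
      have h5 := i3 i (by omega)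
      have h6 : a (n + 2) ≤ a (idx i) := amono.monotone (by omega)
      omega
    by_cases h5 : idx i = n + 1
    · rw [h5]
    · have h6 : idx i = n := by omega
      rw [h6]
      exact hα n i ((aα n).trans h1)
  refine ⟨fun i => d (idx i) i, ⟨hmi, fun m => ⟨a m, fun i him => ?_⟩⟩, fun n =>
    ⟨a n, fun i hin => hlow n i (i2 n i hin)⟩⟩
  have hm : m ≤ idx i := i2 m i him
  have hai : a (idx i) ≤ i := by
    by_cases h0 : idx i = 0
    · have h1 : m = 0 := by omega
      rw [h0, ← h1]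
      exact him
    · exact i3 i h0
  have hL : ULim_L (fun i => d (idx i) i) (d (idx i + 1)) (a (idx i)) (a (idx i + 2)) := by
    intro i' h1 h2
    exact hup (idx i) i' h1 (((hd (idx i + 1)).1.lt i').trans h2)
  have h3 := ULim_all hmi (hd (idx i + 1)).1 hL m
  have h4 : (Jo^[m] (d (idx i + 1))) i ≤ g i :=
    hβ (idx i) i ((aβ (idx i)).trans hai) m (by omega)
  have h5 : g i ≤ g (a (idx i + 1)) := hg (i4 i).le
  have h6 : g (a (idx i + 1)) < a (idx i + 2) := ag (idx i + 1)
  exact (h3 i hai (by omega)).trans h4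

end Pool.Agent.DC
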