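import Pool.Agent.H.MP_b2838e_lc.C.UDef

/-!
# Module UVe: finitely many sets at once, with the number of iterations
-/

set_option autoImplicit false

namespace Pool.Agent.DC

theorem Wd.iter {F : ℕ → ℕ} (hF : Wd F) (m : ℕ) : Wd (F^[m]) := by
  induction m with
  | zero => exact ⟨rfl, fun i => Nat.lt_succ_self i⟩
  | succ m ih =>
    rw [Function.iterate_succ]
    exact ih.comp hF

private theorem UVe_dcd {a : ℕ} {V V' : ℕ → Fin a ⊕ ℕ} {s : Set (ℕ → Fin a)} (h : Dcd V s) :
    Dcd (cmp V V') s := by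
  rcases h with h | h
  · exact Or.inl fun z => by rw [ev_cmp]; exact h _
  · exact Or.inr fun z => by rw [ev_cmp]; exact h _

theorem win_vecU {a : ℕ} {C : Set (ℕ → Fin a) → Prop}
    (hC : ∀ s, C s → ∀ f : (ℕ → Fin a) → ℕ → Fin a, Continuous f → C (f ⁻¹' s)) {F : ℕ → ℕ} (hF : Wd F)
    (h : ∀ s, C s → ∃ V, Good F V ∧ Dcd V s) (ι : Type) [Fintype ι] :
    ∀ s : ι → Set (ℕ → Fin a), (∀ i, C (s i)) →
      ∃ V, Good (F^[Fintype.card ι]) V ∧ ∀ i, Dcd V (s i) := by
  have key : ∀ m : ℕ, ∀ s : Fin m → Set (ℕ → Fin a), (∀ i, C (s i)) →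
      ∃ V, Good (F^[m]) V ∧ ∀ i, Dcd V (s i) := by
    intro m
    induction m with
    | zero =>
      exact fun s _ => ⟨_, good_id, fun i => i.elim0⟩
    | succ m ih =>
      intro s hs
      obtain ⟨V, hV, hd⟩ := ih (fun i => s i.castSucc) fun i => hs _
      obtain ⟨V', hV', hd'⟩ := h (ev V ⁻¹' s (Fin.last m)) (hC _ (hs _) _ (cont_ev V))
      refine ⟨cmp V V', ?_, fun i => ?_⟩
      · have h1 := Good.comp (hF.iter m) hV hV'
        rw [Function.iterate_succ]
        exact h1
      · refine Fin.lastCases ?_ (fun j => ?_) i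
        · rcases hd' with hd' | hd'
          · exact Or.inl fun z => by rw [ev_cmp]; exact hd' z
          · exact Or.inr fun z => by rw [ev_cmp]; exact hd' z
        · exact UVe_dcd (hd j)
  intro s hs
  have e := Fintype.equivFin ι
  obtain ⟨V, hV, hd⟩ := key (Fintype.card ι) (fun i => s (e.symm i)) fun i => hs _
  refine ⟨V, hV, fun i => ?_⟩
  have := hd (e i)
  rwa [e.symm_apply_apply] at this

end Pool.Agent.DC
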