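import Pool.Agent.H.MP_b2838e_lc.C.RSt
import Pool.Agent.H.MP_b2838e_lc.C.UVe

/-!
# Module USt: one stage of the construction, with explicit bounds
-/

set_option autoImplicit false

namespace Pool.Agent.DC

open Pool.Agent.DR

theorem stageU {α : Ordinal.{0}} {s : ℕ} {F' : ℕ → ℕ} (hF' : Wd F')
    (hw' : ∀ S : Set (ℕ → Fin (s + 1)), Sg α S → ∃ V, Good F' V ∧ Dcd V S) (k l : ℕ) :
    ∀ (c : (ℕ → ℕ) → Fin l), Cls α k c →
    ∀ x : ℕ → ℕ, InfPart x → (∀ n, x n ≤ n) →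
      ∃ θ : ℕ → ℕ, (∀ i ≤ s, θ i = i) ∧ (∀ i, θ i ≤ i) ∧ InfPart (fun n => θ (x n)) ∧
        (∀ i, ∃ i' ≤ s + 1 + F'^[k ^ (s + 1) * l] (i + 1), θ i' = i) ∧
        ∀ y z, KPart k y → KPart k z → Coarser y (fun n => θ (x n)) →
          Coarser z (fun n => θ (x n)) → (∀ n, θ (x n) ≤ s → y n = z n) →
            (∀ i < k, ∃ n, θ (x n) ≤ s ∧ y n = i) → c y = c z := by
  classical
  have hw := win_vecU (C := fun S => Sg α S) (fun S hS f hf => Sg.pre hf hS) hF' hw'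
    ((Fin (s + 1) → Fin k) × Fin l)
  have hcard : Fintype.card ((Fin (s + 1) → Fin k) × Fin l) = k ^ (s + 1) * l := by
    rw [Fintype.card_prod, Fintype.card_fun, Fintype.card_fin, Fintype.card_fin, Fintype.card_fin]
  rw [hcard] at hw
  obtain ⟨F, hFd⟩ : ∃ F : ℕ → ℕ, F = F'^[k ^ (s + 1) * l] := ⟨_, rfl⟩
  have hFw : Wd F := by
    rw [hFd]
    exact hF'.iter _
  rw [← hFd] at hw ⊢
  have hF := hFw.lt
  intro c hc x hx hxn
  choose U hU hUc using hc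
  obtain ⟨V, hV, hcon⟩ := hw
    (fun p => if Stg_V p.1 then {z | Stg_Y x z p.1 ∈ U p.2} else Set.univ) (fun p => by
      show Sg α (if Stg_V p.1 then {z | Stg_Y x z p.1 ∈ U p.2} else Set.univ)
      split_ifs
      · exact Sg.pre (RSt_cont x p.1) (hU p.2)
      · exact Sg.opn _ _ isOpen_univ)
  refine ⟨Stg_t V, fun i hi => Stg_t_low V hi, Stg_t_le hF hV, Stg_inf hF hV hx, Stg_bd hF hV, ?_⟩
  intro y z hy hz hyx hzx hyz hall
  -- the first elements of the blocks `≤ s`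
  choose fe hfe hfe' using fun b : Fin (s + 1) => Stg_first hx b.val
  have hfx : ∀ b : Fin (s + 1), Stg_t V (x (fe b)) = b.val := by
    intro b
    rw [hfe b]
    exact Stg_t_low V (Nat.le_of_lt_succ b.2)
  obtain ⟨σ, hσ⟩ : ∃ σ : Fin (s + 1) → Fin k, ∀ b, (σ b).val = y (fe b) :=
    ⟨fun b => ⟨y (fe b), hy.2.1 _⟩, fun b => rfl⟩
  have hσz : ∀ b, (σ b).val = z (fe b) := by
    intro b
    rw [hσ b]
    exact hyz _ (by rw [hfx b]; exact Nat.le_of_lt_succ b.2)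
  have hVσ : Stg_V σ := by
    refine ⟨fun b i hi => ?_, fun i => ?_⟩
    · have hi' : i.val < y (fe b) := by rw [← hσ b]; exact hi
      obtain ⟨m, hm, hmi⟩ := hy.1 (fe b) i.val hi'
      have h1 := hfe' b m hm
      have h2 : x m < s + 1 := h1.trans b.2
      refine ⟨⟨x m, h2⟩, h1, ?_⟩
      apply Fin.ext
      rw [hσ, ← hmi]
      refine hyx _ _ ?_
      show Stg_t V (x (fe ⟨x m, h2⟩)) = Stg_t V (x m)
      rw [hfe]
    · obtain ⟨n, hn, hni⟩ := hall i.val i.2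
      refine ⟨⟨Stg_t V (x n), Nat.lt_succ_of_le hn⟩, ?_⟩
      apply Fin.ext
      rw [hσ, ← hni]
      exact hyx _ _ (hfx ⟨Stg_t V (x n), Nat.lt_succ_of_le hn⟩)
  have hrep : ∀ y' : ℕ → ℕ, KPart k y' → Coarser y' (fun n => Stg_t V (x n)) →
      (∀ b, (σ b).val = y' (fe b)) → ∃ ζ : ℕ → Fin (s + 1), y' = Stg_Y x (ev V ζ) σ := by
    intro y' hy' hyx' hσ'
    have h1 : ∀ m : ℕ, ∃ b : Fin (s + 1), ∀ n, Stg_t V (x n) = s + 1 + m → y' n = (σ b).val := by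
      intro m
      obtain ⟨p, hp⟩ := (Stg_inf hF hV hx).2 (s + 1 + m)
      obtain ⟨b, hb⟩ := hVσ.2 ⟨y' p, hy'.2.1 p⟩
      refine ⟨b, fun n hn => ?_⟩
      rw [hb]
      exact hyx' n p (hn.trans hp.symm)
    choose ζ hζ using h1
    refine ⟨ζ, ?_⟩
    funext n
    unfold Stg_Y
    rcases le_or_gt (x n) s with h | h
    · rw [Stg_w_low _ h, hσ']
      refine hyx' _ _ ?_
      show Stg_t V (x n) = Stg_t V (x (fe ⟨x n, Nat.lt_succ_of_le h⟩))
      rw [hfe]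
    · obtain ⟨p, hp⟩ : ∃ p, x n = s + 1 + p := ⟨x n - (s + 1), by omega⟩
      rw [hp, Stg_w_high]
      rcases hn : V p with b | m
      · have h2 : ev V ζ p = b := by
          unfold ev
          rw [hn]
        rw [h2, hσ']
        refine hyx' _ _ ?_
        show Stg_t V (x n) = Stg_t V (x (fe b))
        rw [hfx, hp, Stg_t_inl hn]
      · have h2 : ev V ζ p = ζ m := by
          unfold ev
          rw [hn]
        rw [h2]
        refine hζ m n ?_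
        rw [hp, Stg_t_inr hn]
  obtain ⟨ζ, hζ⟩ := hrep y hy hyx hσ
  obtain ⟨ζ', hζ'⟩ := hrep z hz hzx hσz
  have h2 : (if Stg_V σ then {z | Stg_Y x z σ ∈ U (c y)} else Set.univ) =
      {z | Stg_Y x z σ ∈ U (c y)} := if_pos hVσ
  have h1 := hcon (σ, c y)
  unfold Dcd at h1
  simp only [h2, Set.mem_ofPred_eq] at h1
  have h3 : Stg_Y x (ev V ζ) σ ∈ U (c y) := by
    rw [← hζ]
    exact (hUc _ _ hy).1 rfl
  rcases h1 with h1 | h1
  · have h4 := h1 ζ'
    rw [← hζ'] at h4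
    exact ((hUc _ _ hz).2 h4).symm
  · exact absurd h3 (h1 ζ)

end Pool.Agent.DC
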