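import Pool.Agent.H.MP_b2838e_lc.C.VDef

/-!
# Module VEx: the class of growth functions with the explicit bound (as UGr)
-/

set_option autoImplicit false

namespace Pool.Agent.DC

private theorem VEx_refl (f : ℕ → ℕ) : Evl f f := Evl.of_le fun _ => le_rfl

private theorem VEx_iter {G : ℕ → ℕ} (hG : Mi G) (m : ℕ) : Mi (Jo^[m] G) := by
  induction m with
  | zero => exact hG
  | succ m ih =>
    rw [Function.iterate_succ_apply']
    exact ih.jo

private theorem VEx_bd {G : ℕ → ℕ} (hG : Mi G) :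
    Monotone (gb G) ∧ ∀ m, Evl (Jo^[m] G) (gb G) := by
  refine ⟨?_, ?_⟩
  · intro i j hij
    refine (Finset.sum_le_sum fun m _ => (VEx_iter hG m).mono hij).trans ?_
    refine Finset.sum_le_sum_of_subset ?_
    intro m hm
    rw [Finset.mem_range] at hm ⊢
    omega
  · intro m
    refine ⟨m, fun i hi => ?_⟩
    exact Finset.single_le_sum (f := fun m => Jo^[m] G i) (fun _ _ => Nat.zero_le _)
      (Finset.mem_range.2 (by omega))

theorem ex_grV (G : ℕ → ℕ) (hG : Mi G) : ∃ C, Gr C (gb G) ∧ ∃ h ∈ C, Evl G h := by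
  classical
  obtain ⟨g, hgG⟩ : ∃ g, g = gb G := ⟨_, rfl⟩
  obtain ⟨hgm, hg⟩ := VEx_bd hG
  rw [← hgG] at hgm hg ⊢
  let r : {f : ℕ → ℕ // Tm g f ∧ Evl G f} → {f : ℕ → ℕ // Tm g f ∧ Evl G f} → Prop :=
    fun f f' => Evl (Jo f.1) f'.1
  obtain ⟨C, hC⟩ : ∃ C, C = maxChain r := ⟨_, rfl⟩
  have hmax : IsMaxChain r C := by
    rw [hC]
    exact maxChain_spec
  have hcmp : ∀ f ∈ C, ∀ f' ∈ C, f = f' ∨ r f f' ∨ r f' f := by
    intro f hf f' hf'
    by_cases h : f = f'
    · exact Or.inl h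
    · exact Or.inr (hmax.1 hf hf' h)
  have hle : ∀ f f' : {f : ℕ → ℕ // Tm g f ∧ Evl G f}, r f f' → Evl f.1 f'.1 := fun f f' h =>
    (Evl.of_le f.2.1.1.le_jo).trans h
  have htot : ∀ f ∈ C, ∀ f' ∈ C, Evl f.1 f'.1 ∨ Evl f'.1 f.1 := by
    intro f hf f' hf'
    rcases hcmp f hf f' hf' with h | h | h
    · rw [h]
      exact Or.inl (VEx_refl _)
    · exact Or.inl (hle _ _ h)
    · exact Or.inr (hle _ _ h)
  have hins : ∀ h : {f : ℕ → ℕ // Tm g f ∧ Evl G f}, (∀ f ∈ C, f = h ∨ r f h) → h ∈ C := by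
    intro h hh
    have h1 : IsChain r (insert h C) := by
      refine hmax.1.insert fun b hb hne => ?_
      rcases hh b hb with h2 | h2
      · exact absurd h2.symm hne
      · exact Or.inr h2
    rw [hmax.2 h1 (Set.subset_insert _ _)]
    exact Set.mem_insert _ _
  refine ⟨Subtype.val '' C, ⟨?_, ?_, ?_, ?_⟩, ?_⟩
  · rintro _ ⟨h, _, rfl⟩
    exact h.2.1.1
  · intro f hf
    choose F hFC hF using hf
    by_contra hcon
    have hcon' : ∀ h ∈ C, ∃ n, ¬ Evl (F n).1 h.1 := by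
      intro h hh
      by_contra h1
      push Not at h1
      refine hcon ⟨h.1, ⟨h, hh, rfl⟩, fun n => ?_⟩
      rw [← hF n]
      exact h1 n
    have hJ : ∀ h ∈ C, ∃ n, Evl (Jo h.1) (F n).1 := by
      intro h hh
      obtain ⟨n, hn⟩ := hcon' h hh
      refine ⟨n, ?_⟩
      rcases hcmp (F n) (hFC n) h hh with h1 | h1 | h1
      · rw [h1] at hn
        exact absurd (VEx_refl _) hn
      · exact absurd (hle _ _ h1) hn
      · exact h1
    let d : ℕ → {f : ℕ → ℕ // Tm g f ∧ Evl G f} := fun n =>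
      Nat.rec (F 0) (fun n dn => if Evl (F (n + 1)).1 dn.1 then dn else F (n + 1)) n
    have hds : ∀ n, d (n + 1) = if Evl (F (n + 1)).1 (d n).1 then d n else F (n + 1) := fun n => rfl
    have hdC : ∀ n, d n ∈ C := by
      intro n
      induction n with
      | zero => exact hFC 0
      | succ n ih =>
        rw [hds]
        split_ifs
        · exact ih
        · exact hFC _
    have hdd : ∀ n, Evl (d n).1 (d (n + 1)).1 := by
      intro n
      rw [hds]
      split_ifs with h1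
      · exact VEx_refl _
      · exact (htot _ (hFC (n + 1)) _ (hdC n)).resolve_left h1
    have hFd : ∀ n, Evl (F n).1 (d n).1 := by
      intro n
      cases n with
      | zero => exact VEx_refl _
      | succ n =>
        rw [hds]
        split_ifs with h1
        · exact h1
        · exact VEx_refl _
    obtain ⟨h, hT, hh⟩ := lim_tm hgm (fun n => (d n).1) (fun n => (d n).2.1) hdd
    have hGh : Evl G h := (d 0).2.2.trans (hh 0)
    have hFh : ∀ n, Evl (F n).1 h := fun n => (hFd n).trans (hh n)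
    have hC' : (⟨h, hT, hGh⟩ : {f : ℕ → ℕ // Tm g f ∧ Evl G f}) ∈ C := by
      apply hins
      intro h' hh'
      obtain ⟨n, hn⟩ := hJ h' hh'
      exact Or.inr (hn.trans (hFh n))
    obtain ⟨n, hn⟩ := hcon' _ hC'
    exact hn (hFh n)
  · rintro _ ⟨h, hh, rfl⟩
    by_contra hcon
    have hcon' : ∀ h' ∈ C, ¬ Evl (Jo h.1) h'.1 := fun h' hh' h1 => hcon ⟨h'.1, ⟨h', hh', rfl⟩, h1⟩
    have hT : Tm g (Jo h.1) := by
      refine ⟨h.2.1.1.jo, fun m => ?_⟩
      have h1 := h.2.1.2 (m + 1)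
      rwa [Function.iterate_succ_apply] at h1
    have hGh : Evl G (Jo h.1) := h.2.2.trans (Evl.of_le h.2.1.1.le_jo)
    have hC' : (⟨Jo h.1, hT, hGh⟩ : {f : ℕ → ℕ // Tm g f ∧ Evl G f}) ∈ C := by
      apply hins
      intro f hf
      refine Or.inr ?_
      rcases hcmp f hf h hh with h1 | h1 | h1
      · rw [h1]
        exact VEx_refl _
      · exact Evl.trans h1 (Evl.of_le h.2.1.1.le_jo)
      · exact absurd h1 (hcon' f hf)
    exact hcon' _ hC' (VEx_refl _)
  · rintro _ ⟨h, _, rfl⟩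
    exact h.2.1.2 0
  · have hne : ∃ h, h ∈ C := by
      by_contra hcon
      push Not at hcon
      exact hcon _ (hins ⟨G, ⟨hG, hg⟩, VEx_refl _⟩ fun f hf => absurd hf (hcon f))
    obtain ⟨h, hh⟩ := hne
    exact ⟨h.1, ⟨h, hh, rfl⟩, h.2.2⟩

end Pool.Agent.DC
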