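import Pool.Agent.H.MP_b2838e_lc.C.VDef

/-!
# Module VPr: the predicate is primitive recursive

`Nat.Primrec.pow` for powers, `Primrec.nat_div`, `Primrec.nat_mod`, sums over `range r` by `Primrec.nat_rec'`
(`Finset.sum_range_succ`), `Primrec.ite`, `Primrec.nat_lt`, and the bounded quantifiers over lists in
Mathlib/Computability/Primrec/List.lean.
-/

set_option autoImplicit false

namespace Pool.Agent.DC

theorem VPr_ex {α : Type} [Primcodable α] {R : ℕ → α → Prop} (hR : PrimrecRel R) {f : α → ℕ}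
    (hf : Primrec f) : PrimrecPred fun x => ∃ y < f x, R y x :=
  (hR.exists_mem_list.comp (Primrec.list_range.comp hf) Primrec.id).of_eq (by simp)

theorem VPr_all {α : Type} [Primcodable α] {R : ℕ → α → Prop} (hR : PrimrecRel R) {f : α → ℕ}
    (hf : Primrec f) : PrimrecPred fun x => ∀ y < f x, R y x :=
  (hR.forall_mem_list.comp (Primrec.list_range.comp hf) Primrec.id).of_eq (by simp)

theorem VPr_pow : Primrec₂ ((· ^ ·) : ℕ → ℕ → ℕ) := Primrec₂.unpaired'.1 Nat.Primrec.pow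

theorem VPr_dg {α : Type} [Primcodable α] {B n i : α → ℕ} (hB : Primrec B) (hn : Primrec n)
    (hi : Primrec i) : Primrec fun x => dg (B x) (n x) (i x) :=
  Primrec.nat_mod.comp (Primrec.nat_div.comp hn (VPr_pow.comp hB hi)) hB

theorem VPr_sum {α : Type} [Primcodable α] {F : α → ℕ → ℕ} (hF : Primrec₂ F) {n : α → ℕ}
    (hn : Primrec n) : Primrec fun x => ∑ i ∈ Finset.range (n x), F x i := by
  have h : Primrec₂ fun (x : α) (p : ℕ × ℕ) => p.2 + F x p.1 :=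
    Primrec.nat_add.comp (Primrec.snd.comp Primrec.snd)
      (hF.comp Primrec.fst (Primrec.fst.comp Primrec.snd))
  refine (Primrec.nat_rec' hn (Primrec.const 0) h).of_eq fun x => ?_
  induction n x with
  | zero => simp
  | succ m ih => rw [Finset.sum_range_succ, ← ih]

theorem VPr_ptn {α : Type} [Primcodable α] {a L b r : α → ℕ} (ha : Primrec a) (hL : Primrec L)
    (hb : Primrec b) (hr : Primrec r) : Primrec fun x => ptn (a x) (L x) (b x) (r x) := by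
  have hd : Primrec fun p : α × ℕ => dg (a p.1 + 1) (L p.1) p.2 :=
    VPr_dg (Primrec.succ.comp (ha.comp Primrec.fst)) (hL.comp Primrec.fst) Primrec.snd
  have hF : Primrec₂ fun (x : α) (i : ℕ) =>
      (if dg (a x + 1) (L x) i < a x then dg (a x + 1) (L x) i else b x) * a x ^ i :=
    Primrec.nat_mul.comp
      (Primrec.ite (Primrec.nat_lt.comp hd (ha.comp Primrec.fst)) hd (hb.comp Primrec.fst))
      (VPr_pow.comp (ha.comp Primrec.fst) Primrec.snd)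
  exact VPr_sum hF hr

theorem pp_prim : PrimrecPred fun p : ℕ × ℕ × ℕ => PP p.1 p.2.1 p.2.2 := by
  -- b, (L, (C, p))
  have f1 : Primrec fun q : ℕ × ℕ × ℕ × ℕ × ℕ × ℕ => q.2.2.2.1 :=
    Primrec.fst.comp (Primrec.snd.comp (Primrec.snd.comp Primrec.snd))
  have f2 : Primrec fun q : ℕ × ℕ × ℕ × ℕ × ℕ × ℕ => q.2.2.2.2.1 :=
    Primrec.fst.comp (Primrec.snd.comp (Primrec.snd.comp (Primrec.snd.comp Primrec.snd)))
  have f3 : Primrec fun q : ℕ × ℕ × ℕ × ℕ × ℕ × ℕ => q.2.2.2.2.2 :=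
    Primrec.snd.comp (Primrec.snd.comp (Primrec.snd.comp (Primrec.snd.comp Primrec.snd)))
  have fL : Primrec fun q : ℕ × ℕ × ℕ × ℕ × ℕ × ℕ => q.2.1 := Primrec.fst.comp Primrec.snd
  have fC : Primrec fun q : ℕ × ℕ × ℕ × ℕ × ℕ × ℕ => q.2.2.1 :=
    Primrec.fst.comp (Primrec.snd.comp Primrec.snd)
  have e1 : PrimrecPred fun q : ℕ × ℕ × ℕ × ℕ × ℕ × ℕ =>
      dg q.2.2.2.2.1 q.2.2.1 (ptn q.2.2.2.1 q.2.1 q.1 q.2.2.2.2.2) =
        dg q.2.2.2.2.1 q.2.2.1 (ptn q.2.2.2.1 q.2.1 0 q.2.2.2.2.2) :=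
    Primrec.eq.comp (VPr_dg f2 fC (VPr_ptn f1 fL Primrec.fst f3))
      (VPr_dg f2 fC (VPr_ptn f1 fL (Primrec.const 0) f3))
  have e2 : PrimrecPred fun q : ℕ × ℕ × ℕ × ℕ × ℕ × ℕ =>
      dg (q.2.2.2.1 + 1) q.2.1 q.1 = q.2.2.2.1 :=
    Primrec.eq.comp (VPr_dg (Primrec.succ.comp f1) fL Primrec.fst) f1
  -- (L, (C, p))
  have g1 : Primrec fun q : ℕ × ℕ × ℕ × ℕ × ℕ => q.2.2.1 :=
    Primrec.fst.comp (Primrec.snd.comp Primrec.snd)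
  have g3 : Primrec fun q : ℕ × ℕ × ℕ × ℕ × ℕ => q.2.2.2.2 :=
    Primrec.snd.comp (Primrec.snd.comp (Primrec.snd.comp Primrec.snd))
  have k1 : PrimrecPred fun q : ℕ × ℕ × ℕ × ℕ × ℕ =>
      ∀ b < q.2.2.1, dg q.2.2.2.1 q.2.1 (ptn q.2.2.1 q.1 b q.2.2.2.2) =
        dg q.2.2.2.1 q.2.1 (ptn q.2.2.1 q.1 0 q.2.2.2.2) :=
    VPr_all (R := fun (b : ℕ) (q : ℕ × ℕ × ℕ × ℕ × ℕ) =>
      dg q.2.2.2.1 q.2.1 (ptn q.2.2.1 q.1 b q.2.2.2.2) =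
        dg q.2.2.2.1 q.2.1 (ptn q.2.2.1 q.1 0 q.2.2.2.2)) e1.primrecRel g1
  have k2 : PrimrecPred fun q : ℕ × ℕ × ℕ × ℕ × ℕ =>
      ∃ i < q.2.2.2.2, dg (q.2.2.1 + 1) q.1 i = q.2.2.1 :=
    VPr_ex (R := fun (i : ℕ) (q : ℕ × ℕ × ℕ × ℕ × ℕ) => dg (q.2.2.1 + 1) q.1 i = q.2.2.1)
      e2.primrecRel g3
  have k3 : PrimrecPred fun q : ℕ × ℕ × ℕ × ℕ × ℕ =>
      (∃ i < q.2.2.2.2, dg (q.2.2.1 + 1) q.1 i = q.2.2.1) ∧
      ∀ b < q.2.2.1, dg q.2.2.2.1 q.2.1 (ptn q.2.2.1 q.1 b q.2.2.2.2) =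
        dg q.2.2.2.1 q.2.1 (ptn q.2.2.1 q.1 0 q.2.2.2.2) := k2.and k1
  -- (C, p)
  have h1 : Primrec fun q : ℕ × ℕ × ℕ × ℕ => (q.2.1 + 1) ^ q.2.2.2 :=
    VPr_pow.comp (Primrec.succ.comp (Primrec.fst.comp Primrec.snd))
      (Primrec.snd.comp (Primrec.snd.comp Primrec.snd))
  have k4 : PrimrecPred fun q : ℕ × ℕ × ℕ × ℕ => ∃ L < (q.2.1 + 1) ^ q.2.2.2,
      (∃ i < q.2.2.2, dg (q.2.1 + 1) L i = q.2.1) ∧
      ∀ b < q.2.1, dg q.2.2.1 q.1 (ptn q.2.1 L b q.2.2.2) =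
        dg q.2.2.1 q.1 (ptn q.2.1 L 0 q.2.2.2) :=
    VPr_ex (R := fun (L : ℕ) (q : ℕ × ℕ × ℕ × ℕ) =>
      (∃ i < q.2.2.2, dg (q.2.1 + 1) L i = q.2.1) ∧
      ∀ b < q.2.1, dg q.2.2.1 q.1 (ptn q.2.1 L b q.2.2.2) =
        dg q.2.2.1 q.1 (ptn q.2.1 L 0 q.2.2.2)) k3.primrecRel h1
  -- p
  have l1 : Primrec fun q : ℕ × ℕ × ℕ => q.2.1 ^ (q.1 ^ q.2.2) :=
    VPr_pow.comp (Primrec.fst.comp Primrec.snd)
      (VPr_pow.comp Primrec.fst (Primrec.snd.comp Primrec.snd))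
  exact VPr_all (R := fun (C : ℕ) (q : ℕ × ℕ × ℕ) => ∃ L < (q.1 + 1) ^ q.2.2,
      (∃ i < q.2.2, dg (q.1 + 1) L i = q.1) ∧
      ∀ b < q.1, dg q.2.1 C (ptn q.1 L b q.2.2) =
        dg q.2.1 C (ptn q.1 L 0 q.2.2)) k4.primrecRel l1

end Pool.Agent.DC
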