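import Pool.Agent.H.MP_b2838e_lc.C.VPp
import Pool.Agent.H.MP_b2838e_lc.C.VPr

/-!
# Module VBd: a computable Hales-Jewett bound

`B a c` is the least `r` such that `a = 0 ∨ PP a c (r + 1)`, plus one (unbounded search: `Partrec.rfind`, `Nat.rfind`,
`Partrec.of_eq_tot`; or `Nat.find`). It exists: `Combinatorics.Line.exists_mono_in_high_dimension` (as in `Hj_line` in C/Hj.lean: gives
`r > 0` with `HJp a c r`), then `pp_of_hj`. Then `hj_of_pp`.
-/

set_option autoImplicit false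

namespace Pool.Agent.DC

theorem VBd_line (a c : ℕ) (ha : 0 < a) : ∃ r : ℕ, 0 < r ∧ HJp a c r := by
  rcases isEmpty_or_nonempty (Fin c) with hK | ⟨⟨k0⟩⟩
  · exact ⟨1, one_pos, fun C => (hK.false (C fun _ => ⟨0, ha⟩)).elim⟩
  · obtain ⟨ι, _, h⟩ := Combinatorics.Line.exists_mono_in_high_dimension (Fin a) (Fin c)
    have hι : Nonempty ι := by
      obtain ⟨l, _⟩ := h fun _ => k0
      exact ⟨l.proper.choose⟩
    let e := Fintype.equivFin ι
    refine ⟨Fintype.card ι, Fintype.card_pos, fun C => ?_⟩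
    obtain ⟨l, q, hq⟩ := h fun x => C (x ∘ e.symm)
    obtain ⟨i, hi⟩ := l.proper
    refine ⟨fun j => l.idxFun (e.symm j), ⟨e i, ?_⟩, q, fun b => ?_⟩
    · show l.idxFun (e.symm (e i)) = none
      rw [Equiv.symm_apply_apply]
      exact hi
    · exact hq b

theorem VBd_ex (x : ℕ × ℕ) : ∃ n, x.1 = 0 ∨ PP x.1 x.2 (n + 1) := by
  rcases Nat.eq_zero_or_pos x.1 with h | h
  · exact ⟨0, Or.inl h⟩
  · obtain ⟨r, hr, h1⟩ := VBd_line x.1 x.2 h
    refine ⟨r - 1, Or.inr ?_⟩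
    rw [show r - 1 + 1 = r by omega]
    exact pp_of_hj h h1

theorem VBd_comp : ComputablePred (fun p : (ℕ × ℕ) × ℕ => p.1.1 = 0 ∨ PP p.1.1 p.1.2 (p.2 + 1)) := by
  apply PrimrecPred.computablePred
  have h1 : PrimrecPred (fun p : (ℕ × ℕ) × ℕ => p.1.1 = 0) :=
    PrimrecRel.comp Primrec.eq (Primrec.fst.comp Primrec.fst) (Primrec.const 0)
  have h2 : PrimrecPred (fun p : (ℕ × ℕ) × ℕ => PP p.1.1 p.1.2 (p.2 + 1)) :=
    pp_prim.comp (f := fun p : (ℕ × ℕ) × ℕ => (p.1.1, p.1.2, p.2 + 1))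
      (Primrec.pair (Primrec.fst.comp Primrec.fst) (Primrec.pair (Primrec.snd.comp Primrec.fst)
        (Primrec.succ.comp Primrec.snd)))
  exact h1.or h2

theorem hj_bound : ∃ B : ℕ → ℕ → ℕ, Computable₂ B ∧ ∀ a c, 0 < B a c ∧ (0 < a → HJp a c (B a c)) := by
  classical
  refine ⟨fun a c => Nat.find (VBd_ex (a, c)) + 1, ?_, fun a c => ⟨Nat.succ_pos _, fun ha => ?_⟩⟩
  · have h1 := Computable.find (P := fun (x : ℕ × ℕ) (n : ℕ) => x.1 = 0 ∨ PP x.1 x.2 (n + 1))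
      VBd_comp VBd_ex
    exact Computable.succ.comp h1
  · rcases Nat.find_spec (VBd_ex (a, c)) with h | h
    · exact absurd h ha.ne'
    · exact hj_of_pp ha h

end Pool.Agent.DC
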