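import Pool.Agent.H.MP_b2838e_lc.C.VWn
import Pool.Agent.H.MP_b2838e_lc.C.VBd

/-!
# Module VFo: computable windows for open sets

With `B` from `hj_bound`: `F0 a N = Nat.rec 0 (fun _ f => f + B a (2 ^ (a ^ f))) N`. `Computable.nat_rec`; powers are primitive recursive.
-/

set_option autoImplicit false

namespace Pool.Agent.DC

private theorem VFo_pow : Computable₂ (fun a b : ℕ => a ^ b) :=
  (Primrec₂.unpaired'.1 Nat.Primrec.pow).to_comp

/-- The windows for the bound `B`. -/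
private def VFo_F (B : ℕ → ℕ → ℕ) (a N : ℕ) : ℕ :=
  Nat.rec (motive := fun _ => ℕ) 0 (fun _ f => f + B a (2 ^ (a ^ f))) N

private theorem VFo_comp {B : ℕ → ℕ → ℕ} (hB : Computable₂ B) : Computable₂ (VFo_F B) := by
  have hh : Computable₂ (fun (p : ℕ × ℕ) (q : ℕ × ℕ) => q.2 + B p.1 (2 ^ (p.1 ^ q.2))) := by
    have e1 : Computable (fun x : (ℕ × ℕ) × (ℕ × ℕ) => x.1.1) :=
      Computable.fst.comp Computable.fst
    have e2 : Computable (fun x : (ℕ × ℕ) × (ℕ × ℕ) => x.2.2) :=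
      Computable.snd.comp Computable.snd
    have e3 : Computable (fun x : (ℕ × ℕ) × (ℕ × ℕ) => x.1.1 ^ x.2.2) := VFo_pow.comp e1 e2
    have e4 : Computable (fun x : (ℕ × ℕ) × (ℕ × ℕ) => 2 ^ (x.1.1 ^ x.2.2)) :=
      VFo_pow.comp (Computable.const 2) e3
    have e5 : Computable (fun x : (ℕ × ℕ) × (ℕ × ℕ) => B x.1.1 (2 ^ (x.1.1 ^ x.2.2))) :=
      hB.comp e1 e4
    exact Primrec.nat_add.to_comp.comp e2 e5
  exact Computable.nat_rec Computable.snd (Computable.const 0) hh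

theorem win_openV : ∃ F0 : ℕ → ℕ → ℕ, Computable₂ F0 ∧ (∀ a, Wd (F0 a)) ∧
    ∀ a, 0 < a → ∀ s : Set (ℕ → Fin a), IsOpen s → ∃ V, Good (F0 a) V ∧ Dcd V s := by
  obtain ⟨B, hB, hB1⟩ := hj_bound
  refine ⟨VFo_F B, VFo_comp hB, fun a => ⟨rfl, fun i => ?_⟩, fun a ha s hs => ?_⟩
  · show VFo_F B a i < VFo_F B a i + B a (2 ^ (a ^ VFo_F B a i))
    exact Nat.lt_add_of_pos_right (hB1 _ _).1
  · exact windowsV ha (fun f => B a (2 ^ (a ^ f))) (fun f => (hB1 _ _).1)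
      (fun f => (hB1 _ _).2 ha) (VFo_F B a) rfl (fun N => rfl) s hs

end Pool.Agent.DC
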