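import Pool.Agent.H.MP_b2838e_lc.C.VDef

/-!
# Module VGb: the bound is computable

As for `computable₂_ack` in Mathlib/Computability/Ackermann.lean: codes `A m` of `Jo^[m] G`, `A (m + 1) = st (A m)` with `st` primitive
recursive: let `E` be a code of the recursive function `(c, i) ↦ (eval c)^[phi i] i` (`Partrec.nat_rec`, with `eval_part`,
`Code.exists_code`), `st c = curry E (encode c)` (`primrec₂_curry`). `Jo^[m+1] G = Jo (Jo^[m] G)`, `Jo h i = h^[phi i] i`. So
`(m, i) ↦ Jo^[m] G i` is computable (`Partrec.of_eq_tot`), and `gb` is a sum (`Computable.nat_rec`, `Finset.sum_range_succ`). `phi` is primitive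
recursive (`Primrec.nat_mul` and so on; `i ^ i` from `Nat.Primrec.pow` or by `Primrec.nat_rec`).
-/

set_option autoImplicit false

namespace Pool.Agent.DC

open Nat.Partrec Nat.Partrec.Code in
private theorem VGb_phi : Primrec phi := by
  have hp : Primrec₂ ((· ^ ·) : ℕ → ℕ → ℕ) := Primrec₂.unpaired'.1 Nat.Primrec.pow
  have h1 : Primrec fun i : ℕ => i ^ i := hp.comp _root_.Primrec.id _root_.Primrec.id
  have h2 : Primrec fun i : ℕ => i ^ i * i := Primrec.nat_mul.comp h1 _root_.Primrec.id
  have h3 : Primrec fun i : ℕ => i + 2 := Primrec.nat_add.comp _root_.Primrec.id (Primrec.const 2)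
  have h4 : Primrec fun i : ℕ => i + 2 + i ^ i * i := Primrec.nat_add.comp h3 h2
  have h5 : Primrec fun i : ℕ => i * (i + 2 + i ^ i * i) :=
    Primrec.nat_mul.comp _root_.Primrec.id h4
  exact Primrec.nat_add.comp h5 (Primrec.const 2)

/-- iteration of the function with the code `p.1` -/
private def VGb_F (p : Nat.Partrec.Code × ℕ) : Part ℕ :=
  Nat.rec (motive := fun _ => Part ℕ) (Part.some p.2)
    (fun _ IH => IH.bind fun i => p.1.eval i) (phi p.2)

private theorem VGb_Fp : Partrec VGb_F :=
  Partrec.nat_rec (f := fun p : Nat.Partrec.Code × ℕ => phi p.2)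
    (g := fun p : Nat.Partrec.Code × ℕ => Part.some p.2)
    (h := fun (p : Nat.Partrec.Code × ℕ) (q : ℕ × ℕ) => p.1.eval q.2)
    (VGb_phi.to_comp.comp Computable.snd) Computable.snd
    (Nat.Partrec.Code.eval_part.comp (Computable.fst.comp Computable.fst)
      (Computable.snd.comp Computable.snd))

private theorem VGb_Fv {c : Nat.Partrec.Code} {h : ℕ → ℕ} (hc : ∀ i, c.eval i = Part.some (h i))
    (i : ℕ) : VGb_F (c, i) = Part.some (Jo h i) := by
  have h1 : ∀ n : ℕ, (Nat.rec (motive := fun _ => Part ℕ) (Part.some i)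
      (fun _ IH => IH.bind fun i => c.eval i) n : Part ℕ) = Part.some (h^[n] i) := by
    intro n
    induction n with
    | zero => rfl
    | succ n ih =>
      show (Nat.rec (motive := fun _ => Part ℕ) (Part.some i)
        (fun _ IH => IH.bind fun i => c.eval i) n : Part ℕ).bind (fun i => c.eval i) = _
      rw [ih, Part.bind_some, hc, Function.iterate_succ_apply']
  exact h1 (phi i)

private theorem VGb_E : ∃ E : Nat.Partrec.Code, ∀ (c : Nat.Partrec.Code) (i : ℕ),
    (Nat.Partrec.Code.curry E (Encodable.encode c)).eval i = VGb_F (c, i) := by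
  have h1 : Partrec fun n : ℕ => VGb_F (Denumerable.ofNat Nat.Partrec.Code n.unpair.1, n.unpair.2) :=
    VGb_Fp.comp (((Computable.ofNat Nat.Partrec.Code).comp
      (Computable.fst.comp Computable.unpair)).pair (Computable.snd.comp Computable.unpair))
  obtain ⟨E, hE⟩ := Nat.Partrec.Code.exists_code.1 (Partrec.nat_iff.1 h1)
  refine ⟨E, fun c i => ?_⟩
  rw [Nat.Partrec.Code.eval_curry, hE]
  simp only [Nat.unpair_pair, Denumerable.ofNat_encode]

private theorem VGb_sum {F : ℕ → ℕ → ℕ} (h : Computable₂ F) :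
    Computable fun i => ∑ a ∈ Finset.range (i + 1), F a i := by
  have h1 : Computable fun i : ℕ => (Nat.rec (motive := fun _ => ℕ) 0
      (fun y s => s + F y i) (i + 1) : ℕ) :=
    Computable.nat_rec (f := fun i : ℕ => i + 1) (g := fun _ => 0)
      (h := fun (i : ℕ) (p : ℕ × ℕ) => p.2 + F p.1 i) Computable.succ (Computable.const 0)
      (Primrec.nat_add.to_comp.comp (Computable.snd.comp Computable.snd)
        (h.comp (Computable.fst.comp Computable.snd) Computable.fst))
  refine h1.of_eq fun i => ?_
  have h2 : ∀ n : ℕ, (Nat.rec (motive := fun _ => ℕ) 0 (fun y s => s + F y i) n : ℕ) =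
      ∑ a ∈ Finset.range n, F a i := by
    intro n
    induction n with
    | zero => rfl
    | succ n ih =>
      rw [Finset.sum_range_succ, ← ih]
  exact h2 (i + 1)

theorem jo_comp {G : ℕ → ℕ} (hG : Computable G) : Computable₂ fun m i => Jo^[m] G i := by
  obtain ⟨c₀, hc₀⟩ := Nat.Partrec.Code.exists_code.1 (Partrec.nat_iff.1 hG)
  obtain ⟨E, hE⟩ := VGb_E
  obtain ⟨A, hA⟩ : ∃ A : ℕ → Nat.Partrec.Code, ∀ m, A m =
      Nat.rec (motive := fun _ => Nat.Partrec.Code) c₀
        (fun _ c => Nat.Partrec.Code.curry E (Encodable.encode c)) m := ⟨_, fun _ => rfl⟩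
  have hAc : Computable A := by
    have h1 : Computable fun m : ℕ => (Nat.rec (motive := fun _ => Nat.Partrec.Code) c₀
        (fun _ c => Nat.Partrec.Code.curry E (Encodable.encode c)) m : Nat.Partrec.Code) :=
      Computable.nat_rec (f := fun m : ℕ => m) (g := fun _ => c₀)
        (h := fun (_ : ℕ) (p : ℕ × Nat.Partrec.Code) =>
          Nat.Partrec.Code.curry E (Encodable.encode p.2)) Computable.id (Computable.const c₀)
        (Nat.Partrec.Code.primrec₂_curry.to_comp.comp (Computable.const E)
          (Computable.encode.comp (Computable.snd.comp Computable.snd)))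
    exact h1.of_eq fun m => (hA m).symm
  have hv : ∀ m i, (A m).eval i = Part.some (Jo^[m] G i) := by
    intro m
    induction m with
    | zero =>
      intro i
      rw [hA]
      show c₀.eval i = _
      rw [hc₀]
      rfl
    | succ m ih =>
      intro i
      have h1 : A (m + 1) = Nat.Partrec.Code.curry E (Encodable.encode (A m)) := by
        rw [hA, hA]
      rw [h1, hE, VGb_Fv ih, Function.iterate_succ_apply']
  refine Partrec.of_eq_tot (f := fun p : ℕ × ℕ => (A p.1).eval p.2)
    (g := fun p : ℕ × ℕ => Jo^[p.1] G p.2) ?_ ?_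
  · exact Nat.Partrec.Code.eval_part.comp (hAc.comp Computable.fst) Computable.snd
  · intro p
    rw [hv]
    exact Part.mem_some _

theorem gb_comp {G : ℕ → ℕ} (hG : Computable G) : Computable (gb G) := VGb_sum (jo_comp hG)

theorem sum_comp {F0 : ℕ → ℕ → ℕ} (h : Computable₂ F0) :
    Computable fun i => i + 1 + ∑ a ∈ Finset.range (i + 1), F0 a i :=
  Primrec.nat_add.to_comp.comp Computable.succ (VGb_sum h)

end Pool.Agent.DC
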