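import Pool.Agent.H.MP_b2838e_lc.C.USt
import Pool.Agent.H.MP_b2838e_lc.C.UIn
import Pool.Agent.H.MP_b2838e_lc.C.VEx
import Pool.Agent.H.MP_b2838e_lc.C.VFo
import Pool.Agent.H.MP_b2838e_lc.C.VGb

/-!
# Module VFin: fusion for partitions with a computable bound for all classes (as UFs)
-/

set_option autoImplicit false

namespace Pool.Agent.DC

open Pool.Agent.DR

/-- The bounds of the stages. -/
private def VFin_G (F : ℕ → ℕ → ℕ) : ℕ → ℕ → ℕ
  | 0, i => i
  | s + 1, i => VFin_G F s (F s i)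

private theorem VFin_mono {F : ℕ → ℕ → ℕ} (hF : ∀ s, Monotone (F s)) (s : ℕ) : Monotone (VFin_G F s) := by
  induction s with
  | zero => exact fun i j h => h
  | succ s ih => exact fun i j h => ih (hF s h)

private theorem VFin_abs {k l : ℕ} {c : (ℕ → ℕ) → Fin l} (F x θ : ℕ → ℕ → ℕ)
    (h0 : ∀ n, x 0 n = n) (hs : ∀ s n, x (s + 1) n = θ s (x s n)) (hinf : ∀ s, InfPart (x s))
    (hle : ∀ s n, x s n ≤ n) (hθ : ∀ s, ∀ i ≤ s, θ s i = i)
    (hF : ∀ s i, ∃ i' ≤ F s i, θ s i' = i) (hFm : ∀ s, Monotone (F s))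
    (hlast : ∀ s y z, KPart k y → KPart k z → Coarser y (x (s + 1)) → Coarser z (x (s + 1)) →
      (∀ n, x (s + 1) n ≤ s → y n = z n) → (∀ i < k, ∃ n, x (s + 1) n ≤ s ∧ y n = i) → c y = c z) :
    ∃ X, InfPart X ∧ (∀ i, ∃ n ≤ VFin_G F i i, X n = i) ∧
      ∀ y z t, KPart k y → KPart k z → Coarser y X → Coarser z X → (∀ n ≤ t, y n = z n) →
        (∀ i < k, ∃ n ≤ t, y n = i) → c y = c z := by
  -- fact (a)
  have ha : ∀ s i, ∃ n ≤ VFin_G F s i, x s n = i := by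
    intro s
    induction s with
    | zero => exact fun i => ⟨i, le_rfl, h0 i⟩
    | succ s ih =>
      intro i
      obtain ⟨i', hi', e⟩ := hF s i
      obtain ⟨n, hn, en⟩ := ih i'
      refine ⟨n, hn.trans ?_, by rw [hs, en, e]⟩
      exact VFin_mono hFm s hi'
  -- fact (b)
  have hb : ∀ s n, x s n ≤ s → ∀ s', s ≤ s' → x s' n = x s n := by
    intro s n h s' hs'
    induction s', hs' using Nat.le_induction with
    | base => rfl
    | succ s' hs' ih => rw [hs, ih, hθ s' _ (h.trans hs')]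
  -- fact (c)
  have hc : ∀ s m n, x s m = x s n → ∀ s', s ≤ s' → x s' m = x s' n := by
    intro s m n h s' hs'
    induction s', hs' using Nat.le_induction with
    | base => exact h
    | succ s' hs' ih => rw [hs, hs, ih]
  have hd : ∀ n s, n ≤ s → x s n = x n n := fun n s h => hb n n (hle n n) s h
  have hbX : ∀ s n, x s n ≤ s → x n n = x s n := fun s n h => by
    rw [← hd n (max s n) (le_max_right _ _), hb s n h _ (le_max_left _ _)]
  have hX : InfPart (fun n => x n n) := by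
    refine ⟨fun n i hi => ?_, fun i => ?_⟩
    · obtain ⟨m, hm, e⟩ := (hinf n).1 n i hi
      exact ⟨m, hm, by show x m m = i; rw [← hd m n hm.le, e]⟩
    · obtain ⟨n, -, e⟩ := ha i i
      exact ⟨n, by show x n n = i; rw [hbX i n e.le, e]⟩
  refine ⟨fun n => x n n, hX, fun i => ?_, ?_⟩
  · obtain ⟨n, hn, e⟩ := ha i i
    exact ⟨n, hn, by show x n n = i; rw [hbX i n e.le, e]⟩
  · intro y z t hy hz hyX hzX hyz hk
    obtain ⟨n0, hn0, hmax⟩ := Finset.exists_max_image (Finset.range (t + 1)) (fun n => x n n)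
      ⟨0, Finset.mem_range.2 (Nat.succ_pos t)⟩
    have hn0' : n0 ≤ t := Nat.lt_succ_iff.1 (Finset.mem_range.1 hn0)
    have hmax' : ∀ n ≤ t, x n n ≤ x n0 n0 := fun n hn =>
      hmax n (Finset.mem_range.2 (Nat.lt_succ_of_le hn))
    have hcoarse : ∀ w : ℕ → ℕ, Coarser w (fun n => x n n) → ∀ s, Coarser w (x s) := by
      intro w hw s m n h
      apply hw
      show x m m = x n n
      rw [← hd m (max s (max m n)) ((le_max_left _ _).trans (le_max_right _ _)),
        ← hd n (max s (max m n)) ((le_max_right _ _).trans (le_max_right _ _))]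
      exact hc s m n h _ (le_max_left _ _)
    refine hlast (x n0 n0) y z hy hz (hcoarse y hyX _) (hcoarse z hzX _) ?_ ?_
    · intro n hn
      have e : x n n = x (x n0 n0 + 1) n := hbX _ n (hn.trans (Nat.le_succ _))
      have hm : ∃ m ≤ t, x m m = x n n := by
        rcases Nat.lt_or_ge (x n n) (x n0 n0) with h | h
        · obtain ⟨m, hm, em⟩ := hX.1 n0 (x n n) h
          exact ⟨m, hm.le.trans hn0', em⟩
        · exact ⟨n0, hn0', le_antisymm h (by rw [e]; exact hn)⟩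
      obtain ⟨m, hmt, em⟩ := hm
      rw [← hyX m n em, ← hzX m n em, hyz m hmt]
    · intro i hi
      obtain ⟨n, hn, en⟩ := hk i hi
      obtain ⟨m, em⟩ := (hinf (x n0 n0 + 1)).2 (x n n)
      have hle' : x (x n0 n0 + 1) m ≤ x n0 n0 := by rw [em]; exact hmax' n hn
      refine ⟨m, hle', ?_⟩
      have e : x m m = x n n := by rw [hbX _ m (hle'.trans (Nat.le_succ _)), em]
      rw [hyX m n e, en]

/-- The bound of the stage `s`. -/
private def VFin_F (F : ℕ → ℕ → ℕ) (k l s i : ℕ) : ℕ := s + 1 + (F (s + 1))^[k ^ (s + 1) * l] (i + 1)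

private theorem VFin_add {h : ℕ → ℕ} (hh : Mi h) (m i : ℕ) : m + i ≤ h^[m] i := by
  induction m with
  | zero => exact (Nat.zero_add i).le
  | succ m ih =>
    rw [Function.iterate_succ_apply']
    have := hh.lt (h^[m] i)
    omega

private theorem VFin_bd {F : ℕ → ℕ → ℕ} (hF : ∀ a, Wd (F a)) {h : ℕ → ℕ} (hh : Mi h) {n0 : ℕ}
    (hb : ∀ i ≥ n0, ∀ a ≤ i, F a i ≤ h i) (k l : ℕ) (s : ℕ) :
    ∀ i, n0 ≤ i → s ≤ i → VFin_G (VFin_F F k l) s i ≤
      h^[∑ j ∈ Finset.range s, (j + 2 + k ^ (j + 1) * l)] i := by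
  induction s with
  | zero => exact fun i _ _ => le_rfl
  | succ s ih =>
    intro i hi hs
    have h1 : i ≤ VFin_F F k l s i := by
      unfold VFin_F
      have := ((hF (s + 1)).iter (k ^ (s + 1) * l)).mono.le_apply (x := i + 1)
      omega
    have h2 : VFin_F F k l s i ≤ h^[s + 2 + k ^ (s + 1) * l] i := by
      unfold VFin_F
      have h3 : (F (s + 1))^[k ^ (s + 1) * l] (i + 1) ≤ h^[k ^ (s + 1) * l] (i + 1) := by
        refine iter_le_iter hh (fun j => (hF (s + 1)).mono.le_apply) (n := max n0 (s + 1)) ?_ _ _ ?_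
        · intro j hj
          exact hb j ((le_max_left _ _).trans hj) _ ((le_max_right _ _).trans hj)
        · exact max_le (hi.trans (Nat.le_succ i)) (by omega)
      have h4 : h^[k ^ (s + 1) * l] (i + 1) ≤ h^[k ^ (s + 1) * l] (h i) :=
        hh.iter_mono _ (Nat.succ_le_of_lt (hh.lt i))
      calc s + 1 + (F (s + 1))^[k ^ (s + 1) * l] (i + 1)
          ≤ s + 1 + h^[k ^ (s + 1) * l] (h i) := Nat.add_le_add_left (h3.trans h4) _
        _ ≤ h^[s + 1] (h^[k ^ (s + 1) * l] (h i)) := VFin_add hh _ _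
        _ = h^[s + 2 + k ^ (s + 1) * l] i := by
          rw [← Function.iterate_add_apply, ← Function.iterate_succ_apply]
          congr 2
          omega
    calc VFin_G (VFin_F F k l) (s + 1) i = VFin_G (VFin_F F k l) s (VFin_F F k l s i) := rfl
      _ ≤ h^[∑ j ∈ Finset.range s, (j + 2 + k ^ (j + 1) * l)] (VFin_F F k l s i) :=
        ih _ (hi.trans h1) (((Nat.le_succ s).trans hs).trans h1)
      _ ≤ h^[∑ j ∈ Finset.range s, (j + 2 + k ^ (j + 1) * l)] (h^[s + 2 + k ^ (s + 1) * l] i) :=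
        hh.iter_mono _ h2
      _ = h^[∑ j ∈ Finset.range (s + 1), (j + 2 + k ^ (j + 1) * l)] i := by
        rw [← Function.iterate_add_apply, Finset.sum_range_succ]

private theorem VFin_sum {k l i : ℕ} (hk : k ≤ i) (hl : l ≤ i) (hi : 1 ≤ i) :
    ∑ j ∈ Finset.range i, (j + 2 + k ^ (j + 1) * l) ≤ phi i := by
  have h1 : ∑ j ∈ Finset.range i, (j + 2 + k ^ (j + 1) * l) ≤
      ∑ _j ∈ Finset.range i, (i + 2 + i ^ i * i) := by
    refine Finset.sum_le_sum fun j hj => ?_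
    have hj' : j + 1 ≤ i := Finset.mem_range.1 hj
    have h2 : k ^ (j + 1) ≤ i ^ i := (Nat.pow_le_pow_left hk _).trans (Nat.pow_le_pow_right hi hj')
    have h3 : k ^ (j + 1) * l ≤ i ^ i * i := Nat.mul_le_mul h2 hl
    omega
  rw [Finset.sum_const, Finset.card_range, smul_eq_mul] at h1
  unfold phi
  omega

/-- One computable bound for all colourings of a countable class. -/
theorem reductionV : ∃ g : ℕ → ℕ, Computable g ∧ ∀ (k l : ℕ) (c : (ℕ → ℕ) → Fin l),
    (∃ α : Ordinal.{0}, α.card ≤ Cardinal.aleph0 ∧ Cls α k c) →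
    ∃ x, InfPart x ∧ (∃ i₀, ∀ i ≥ i₀, ∃ n ≤ g i, x n = i) ∧
      ∀ y z t, KPart k y → KPart k z → Coarser y x → Coarser z x → (∀ n ≤ t, y n = z n) →
        (∀ i < k, ∃ n ≤ t, y n = i) → c y = c z := by
  classical
  obtain ⟨F0, hF0c, hF0, hO⟩ := win_openV
  obtain ⟨G, hGd⟩ : ∃ G : ℕ → ℕ, G = fun i => i + 1 + ∑ a ∈ Finset.range (i + 1), F0 a i := ⟨_, rfl⟩
  have hGM : Mi G := by
    refine ⟨fun i j hij => ?_, fun i => ?_⟩
    · rw [hGd]
      show i + 1 + ∑ a ∈ Finset.range (i + 1), F0 a i ≤ j + 1 + ∑ a ∈ Finset.range (j + 1), F0 a j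
      have h1 : ∑ a ∈ Finset.range (i + 1), F0 a i ≤ ∑ a ∈ Finset.range (i + 1), F0 a j :=
        Finset.sum_le_sum fun a _ => (hF0 a).mono.monotone hij
      have h2 : ∑ a ∈ Finset.range (i + 1), F0 a j ≤ ∑ a ∈ Finset.range (j + 1), F0 a j :=
        Finset.sum_le_sum_of_subset (Finset.range_mono (by omega))
      omega
    · rw [hGd]
      show i < i + 1 + ∑ a ∈ Finset.range (i + 1), F0 a i
      omega
  have hGF : ∀ i, ∀ a ≤ i, F0 a i ≤ G i := by
    intro i a ha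
    rw [hGd]
    show F0 a i ≤ i + 1 + ∑ a ∈ Finset.range (i + 1), F0 a i
    have := Finset.single_le_sum (f := fun a => F0 a i) (s := Finset.range (i + 1))
      (fun _ _ => Nat.zero_le _) (Finset.mem_range.2 (Nat.lt_succ_of_le ha))
    exact this.trans (Nat.le_add_left _ _)
  have hGc : Computable G := by
    rw [hGd]
    exact sum_comp hF0c
  obtain ⟨C, hC, h0, hh0, n0, hn0⟩ := ex_grV G hGM
  obtain ⟨g, hg⟩ : ∃ g, g = gb G := ⟨_, rfl⟩
  have hgc : Computable g := by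
    rw [hg]
    exact gb_comp hGc
  rw [← hg] at hC
  refine ⟨g, hgc, fun k l c hc => ?_⟩
  obtain ⟨α, hα, hc⟩ := hc
  obtain ⟨F, hF, ⟨h, hh, n1, hn1⟩, hd⟩ := win_clsU hC F0 hF0 hO
    ⟨h0, hh0, n0, fun i hi a ha => (hGF i a ha).trans (hn0 i hi)⟩ α hα
  have hhM := hC.mi h hh
  obtain ⟨h', hh', n2, hn2⟩ := hC.cl h hh
  obtain ⟨n3, hn3⟩ := hC.bd h' hh'
  have hst := fun s : ℕ => stageU (hF (s + 1)) (hd (s + 1) (Nat.succ_pos s)) k l c hc
  let P : Type := {x : ℕ → ℕ // InfPart x ∧ ∀ n, x n ≤ n}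
  have key : ∀ (s : ℕ) (x : P), ∃ θ : ℕ → ℕ, (∀ i ≤ s, θ i = i) ∧ (∀ i, θ i ≤ i) ∧
      InfPart (fun n => θ (x.1 n)) ∧ (∀ i, ∃ i' ≤ VFin_F F k l s i, θ i' = i) ∧
        ∀ y z, KPart k y → KPart k z → Coarser y (fun n => θ (x.1 n)) →
          Coarser z (fun n => θ (x.1 n)) → (∀ n, θ (x.1 n) ≤ s → y n = z n) →
            (∀ i < k, ∃ n, θ (x.1 n) ≤ s ∧ y n = i) → c y = c z :=
    fun s x => hst s x.1 x.2.1 x.2.2
  choose Θ hΘ1 hΘ2 hΘ3 hΘ4 hΘ5 using key
  let X0 : P := ⟨fun n => n, ⟨fun n i hi => ⟨i, hi, rfl⟩, fun i => ⟨i, rfl⟩⟩, fun n => le_rfl⟩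
  let nx : ℕ → P → P := fun s x => ⟨fun n => Θ s x (x.1 n), hΘ3 s x,
    fun n => (hΘ2 s x _).trans (x.2.2 n)⟩
  let X : ℕ → P := fun s => Nat.rec X0 nx s
  have hFm : ∀ s, Monotone (VFin_F F k l s) := by
    intro s i j hij
    unfold VFin_F
    exact Nat.add_le_add_left (((hF (s + 1)).iter _).mono.monotone (Nat.succ_le_succ hij)) _
  obtain ⟨x, hx, hb, hl⟩ := VFin_abs (VFin_F F k l) (fun s => (X s).1) (fun s => Θ s (X s))
    (fun n => rfl) (fun s n => rfl) (fun s => (X s).2.1) (fun s => (X s).2.2)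
    (fun s => hΘ1 s (X s)) (fun s => hΘ4 s (X s)) hFm (fun s => hΘ5 s (X s))
  refine ⟨x, hx, ⟨k + l + 1 + n1 + n2 + n3, fun i hi => ?_⟩, hl⟩
  obtain ⟨n, hn, e⟩ := hb i
  refine ⟨n, hn.trans ?_, e⟩
  calc VFin_G (VFin_F F k l) i i ≤ h^[∑ j ∈ Finset.range i, (j + 2 + k ^ (j + 1) * l)] i :=
        VFin_bd hF hhM hn1 k l i i (by omega) le_rfl
    _ ≤ h^[phi i] i := hhM.iter_le (VFin_sum (by omega) (by omega) (by omega)) i
    _ ≤ h' i := hn2 i (by omega)
    _ ≤ g i := hn3 i (by omega)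

end Pool.Agent.DC
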