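import Pool.Agent.H.MP_b2838e_lc.C.UGr

/-!
# Module VDef: the Hales-Jewett property and the bound, for the proof that the bound is computable
-/

set_option autoImplicit false

namespace Pool.Agent.DC

/-- Hales-Jewett in dimension `r`, alphabet `a`, colours `c`. -/
def HJp (a c r : ℕ) : Prop := ∀ C : (Fin r → Fin a) → Fin c, ∃ L : Fin r → Option (Fin a),
  (∃ i, L i = none) ∧ ∃ q, ∀ b, C (fun i => (L i).getD b) = q

/-- The digit `i` of `n` in base `B`. -/
def dg (B n i : ℕ) : ℕ := n / B ^ i % B

/-- The number of the point `b` of the line with the number `L` (the digit `a` is the variable). -/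
def ptn (a L b r : ℕ) : ℕ :=
  ∑ i ∈ Finset.range r, (if dg (a + 1) L i < a then dg (a + 1) L i else b) * a ^ i

/-- Hales-Jewett for the numbers of colourings and lines. -/
def PP (a c r : ℕ) : Prop := ∀ C < c ^ (a ^ r), ∃ L < (a + 1) ^ r, (∃ i < r, dg (a + 1) L i = a) ∧
  ∀ b < a, dg c C (ptn a L b r) = dg c C (ptn a L 0 r)

/-- The bound. -/
def gb (G : ℕ → ℕ) (i : ℕ) : ℕ := ∑ m ∈ Finset.range (i + 1), Jo^[m] G i

end Pool.Agent.DC
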