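import Pool.Agent.H.MP_b2838e_lc.C.VDef

/-!
# Module VPp: numbers of colourings and lines

`finFunctionFinEquiv : (Fin n → Fin m) ≃ Fin (m ^ n)` has value `∑ i, f i * m ^ i` and inverse `a / m ^ b % m`, which is `dg m a b`.
`pp_of_hj`: for `C < c ^ (a ^ r)` colour `x` by `dg c C (num x)`, `num x = finFunctionFinEquiv x`; if the line is `L`, take the number
of `i ↦ L i` (`none` is the digit `a`). `hj_of_pp`: for `C` take the number of `i ↦ C (finFunctionFinEquiv.symm i)`; if `L` is the number,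
take the line `i ↦ some (dg (a+1) L i)` if `dg (a+1) L i < a`, else `none`. (`c = 0`: vacuous, since `a ^ r > 0`.)
-/

set_option autoImplicit false

namespace Pool.Agent.DC

private theorem VPp_dg {B n : ℕ} (f : Fin n → Fin B) (i : Fin n) :
    dg B (finFunctionFinEquiv f : ℕ) i = f i := by
  have h := congrArg Fin.val (congrFun (finFunctionFinEquiv.symm_apply_apply f) i)
  exact h

private theorem VPp_ptn {a r : ℕ} (l : ℕ) (b : Fin a) (L : Fin r → Option (Fin a))
    (h : ∀ i : Fin r, ((L i).getD b : ℕ) = if dg (a + 1) l i < a then dg (a + 1) l i else b) :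
    ptn a l b r = (finFunctionFinEquiv (fun i => (L i).getD b) : ℕ) := by
  unfold ptn
  rw [Finset.sum_range, finFunctionFinEquiv_apply]
  refine Finset.sum_congr rfl fun i _ => ?_
  rw [h i]

theorem pp_of_hj {a c r : ℕ} (ha : 0 < a) (h : HJp a c r) : PP a c r := by
  intro C hC
  have hc : 0 < c := by
    rcases Nat.eq_zero_or_pos c with h0 | h0
    · subst h0
      rw [zero_pow (pow_pos ha r).ne'] at hC
      exact absurd hC (Nat.not_lt_zero C)
    · exact h0
  obtain ⟨L, ⟨i0, hi0⟩, q, hq⟩ := h fun x =>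
    ⟨dg c C (finFunctionFinEquiv x : ℕ), Nat.mod_lt _ hc⟩
  let L' : Fin r → Fin (a + 1) := fun i => (L i).elim (Fin.last a) Fin.castSucc
  have hd : ∀ i : Fin r, dg (a + 1) (finFunctionFinEquiv L' : ℕ) i = L' i := fun i => VPp_dg L' i
  have hp : ∀ b : Fin a, ptn a (finFunctionFinEquiv L' : ℕ) b r =
      (finFunctionFinEquiv (fun i => (L i).getD b) : ℕ) := by
    intro b
    refine VPp_ptn _ b L fun i => ?_
    rw [hd i]
    show ((L i).getD b : ℕ) = if (((L i).elim (Fin.last a) Fin.castSucc : Fin (a + 1)) : ℕ) < a then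
      (((L i).elim (Fin.last a) Fin.castSucc : Fin (a + 1)) : ℕ) else b
    rcases L i with _ | x
    · show (b : ℕ) = if (Fin.last a : ℕ) < a then (Fin.last a : ℕ) else b
      rw [if_neg (by rw [Fin.val_last]; omega)]
    · show (x : ℕ) = if (x : ℕ) < a then (x : ℕ) else b
      rw [if_pos x.2]
  refine ⟨(finFunctionFinEquiv L' : ℕ), (finFunctionFinEquiv L').2, ⟨i0, i0.2, ?_⟩, ?_⟩
  · rw [hd i0]
    show (((L i0).elim (Fin.last a) Fin.castSucc : Fin (a + 1)) : ℕ) = a
    rw [hi0]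
    rfl
  · intro b hb
    have h1 := congrArg Fin.val ((hq ⟨b, hb⟩).trans (hq ⟨0, ha⟩).symm)
    have h2 := hp ⟨b, hb⟩
    have h3 := hp ⟨0, ha⟩
    have h2' : ptn a (finFunctionFinEquiv L' : ℕ) b r =
      (finFunctionFinEquiv (fun i => (L i).getD ⟨b, hb⟩) : ℕ) := h2
    have h3' : ptn a (finFunctionFinEquiv L' : ℕ) 0 r =
      (finFunctionFinEquiv (fun i => (L i).getD ⟨0, ha⟩) : ℕ) := h3
    rw [h2', h3']
    exact h1

theorem hj_of_pp {a c r : ℕ} (ha : 0 < a) (h : PP a c r) : HJp a c r := by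
  intro C
  obtain ⟨l, hl, ⟨i0, hi0, hd⟩, hb⟩ := h
    (finFunctionFinEquiv (fun i : Fin (a ^ r) => C (finFunctionFinEquiv.symm i)) : ℕ)
    (finFunctionFinEquiv _).2
  have hC : ∀ x : Fin r → Fin a,
      dg c (finFunctionFinEquiv (fun i : Fin (a ^ r) => C (finFunctionFinEquiv.symm i)) : ℕ)
        (finFunctionFinEquiv x : ℕ) = C x := by
    intro x
    rw [VPp_dg (fun i : Fin (a ^ r) => C (finFunctionFinEquiv.symm i)) (finFunctionFinEquiv x),
      Equiv.symm_apply_apply]
  obtain ⟨L, hL⟩ : ∃ L : Fin r → Option (Fin a), ∀ i : Fin r, L i =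
      if h : dg (a + 1) l i < a then some ⟨dg (a + 1) l i, h⟩ else none := ⟨_, fun _ => rfl⟩
  have hp : ∀ b : Fin a, ptn a l b r = (finFunctionFinEquiv (fun i => (L i).getD b) : ℕ) := by
    intro b
    refine VPp_ptn _ b L fun i => ?_
    rw [hL i]
    by_cases h1 : dg (a + 1) l i < a
    · rw [dif_pos h1, if_pos h1]
      rfl
    · rw [dif_neg h1, if_neg h1]
      rfl
  refine ⟨L, ⟨⟨i0, hi0⟩, ?_⟩, C fun i => (L i).getD ⟨0, ha⟩, fun b => ?_⟩
  · rw [hL]
    refine dif_neg ?_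
    show ¬ dg (a + 1) l i0 < a
    omega
  · apply Fin.ext
    rw [← hC, ← hC, ← hp b, ← hp ⟨0, ha⟩]
    exact hb b b.2

end Pool.Agent.DC
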