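import Pool.Agent.H.MP_b2838e_lc.C.VDef
import Pool.Agent.H.MP_b2838e_lc.C.ROp

/-!
# Module VWn: windows from a given Hales-Jewett bound

The proofs of `windows` (C/Hj.lean; `Hj_step` is private there, copy it) for `K = Bool` and of `win_open` (C/ROp.lean, copy the
private lemmas) with the given `R` and `F`. `HJp a (2 ^ (a ^ f)) (R f)` gives the hypothesis `hC` of `Hj_step` for `K' = (Fin f → Fin a) → Bool` through a
bijection `K' ≃ Fin (2 ^ (a ^ f))` (`Fintype.equivFinOfCardEq`, `Fintype.card_fun`).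
-/

set_option autoImplicit false

namespace Pool.Agent.DC

/-- The induction step. -/
private theorem VWn_step {a : ℕ} (ha : 0 < a) {K : Type} (F : ℕ → ℕ) (hmono : StrictMono F) (N r : ℕ)
    (hr : F (N + 1) = F N + r)
    (hC : ∀ C : (Fin r → Fin a) → ((Fin (F N) → Fin a) → K), ∃ L : Fin r → Option (Fin a),
      (∃ i, L i = none) ∧ ∃ q, ∀ b, C (fun i => (L i).getD b) = q)
    (IH : ∀ d : (ℕ → Fin a) → K, (∀ u v, (∀ n < F N, u n = v n) → d u = d v) →
        ∃ V, Good F V ∧ ∀ z z', d (ev V z) = d (ev V z'))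
    (d : (ℕ → Fin a) → K) (hd : ∀ u v, (∀ n < F (N + 1), u n = v n) → d u = d v) :
    ∃ V, Good F V ∧ ∀ z z', d (ev V z) = d (ev V z') := by
  let g : (Fin (F N) → Fin a) → (Fin r → Fin a) → ℕ → Fin a := fun u w n =>
    if h : n < F N then u ⟨n, h⟩ else if h' : n - F N < r then w ⟨n - F N, h'⟩ else ⟨0, ha⟩
  obtain ⟨L, ⟨i0, hi0⟩, q, hq⟩ := hC fun w u => d (g u w)
  obtain ⟨V', hV', hc⟩ := IH (fun u => q fun i => u i) (by
    intro u v huv
    show q _ = q _
    congr 1
    funext i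
    exact huv i i.2)
  let V : ℕ → Fin a ⊕ ℕ := fun n =>
    if h : F N ≤ n ∧ n - F N < r then (L ⟨n - F N, h.2⟩).elim (Sum.inr N) Sum.inl else V' n
  have hV1 : ∀ n (h : F N ≤ n ∧ n - F N < r), V n = (L ⟨n - F N, h.2⟩).elim (Sum.inr N) Sum.inl :=
    fun n h => dif_pos h
  have hV2 : ∀ n, ¬ (F N ≤ n ∧ n - F N < r) → V n = V' n := fun n h => dif_neg h
  refine ⟨V, ⟨?_, ?_⟩, ?_⟩
  · intro n m hn
    by_cases h : F N ≤ n ∧ n - F N < r
    · rw [hV1 n h] at hn
      rcases hL : L ⟨n - F N, h.2⟩ with _ | b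
      · rw [hL] at hn
        have hm : N = m := Sum.inr.inj hn
        subst hm
        omega
      · rw [hL] at hn
        exact absurd hn (by simp)
    · rw [hV2 n h] at hn
      exact hV'.win n m hn
  · intro m
    by_cases hm : m = N
    · subst hm
      refine ⟨F m + i0, ?_⟩
      have h : F m ≤ F m + i0 ∧ F m + i0 - F m < r := by
        have := i0.2
        omega
      rw [hV1 _ h]
      have h2 : (⟨F m + i0 - F m, h.2⟩ : Fin r) = i0 := by
        apply Fin.ext
        show F m + (i0 : ℕ) - F m = i0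
        omega
      rw [h2, hi0]
      rfl
    · obtain ⟨n, hn⟩ := hV'.ex m
      refine ⟨n, ?_⟩
      rw [hV2, hn]
      intro h
      have hw := hV'.win n m hn
      rcases lt_or_gt_of_ne hm with h1 | h1
      · have h3 : F (m + 1) ≤ F N := hmono.monotone h1
        omega
      · have h3 : F (N + 1) ≤ F m := hmono.monotone h1
        omega
  · have key : ∀ z, d (ev V z) = q fun i => ev V' z i := by
      intro z
      rw [← hq (z N)]
      show d (ev V z) = d (g (fun i => ev V' z i) fun i => (L i).getD (z N))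
      apply hd
      intro n hn
      by_cases h1 : n < F N
      · have h2 : g (fun i => ev V' z i) (fun i => (L i).getD (z N)) n = ev V' z n := dif_pos h1
        rw [h2]
        unfold ev
        rw [hV2 n (by omega)]
      · have h3 : n - F N < r := by omega
        have h2 : g (fun i => ev V' z i) (fun i => (L i).getD (z N)) n
            = (L ⟨n - F N, h3⟩).getD (z N) := (dif_neg h1).trans (dif_pos h3)
        rw [h2]
        unfold ev
        rw [hV1 n ⟨not_lt.mp h1, h3⟩]
        rcases L ⟨n - F N, h3⟩ with _ | b <;> rfl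
    intro z z'
    rw [key, key]
    exact hc z z'

private theorem VWn_hj {a f r : ℕ} (h : HJp a (2 ^ (a ^ f)) r)
    (C : (Fin r → Fin a) → ((Fin f → Fin a) → Bool)) : ∃ L : Fin r → Option (Fin a),
      (∃ i, L i = none) ∧ ∃ q, ∀ b, C (fun i => (L i).getD b) = q := by
  classical
  have hcard : Fintype.card ((Fin f → Fin a) → Bool) = 2 ^ (a ^ f) := by
    simp
  let e : ((Fin f → Fin a) → Bool) ≃ Fin (2 ^ (a ^ f)) := Fintype.equivFinOfCardEq hcard
  obtain ⟨L, h1, q, hq⟩ := h fun w => e (C w)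
  refine ⟨L, h1, e.symm q, fun b => ?_⟩
  rw [← hq b, Equiv.symm_apply_apply]

/-- The windows for functions of finitely many coordinates. -/
private theorem VWn_main {a : ℕ} (ha : 0 < a) (R : ℕ → ℕ)
    (hR : ∀ f, HJp a (2 ^ (a ^ f)) (R f)) (F : ℕ → ℕ) (hF0 : F 0 = 0)
    (hF : ∀ N, F (N + 1) = F N + R (F N)) (hmono : StrictMono F) :
    ∀ (N : ℕ) (d : (ℕ → Fin a) → Bool), (∀ u v, (∀ n < N, u n = v n) → d u = d v) →
        ∃ V, Good F V ∧ ∀ z z', d (ev V z) = d (ev V z') := by
  have main : ∀ (N : ℕ) (d : (ℕ → Fin a) → Bool), (∀ u v, (∀ n < F N, u n = v n) → d u = d v) →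
        ∃ V, Good F V ∧ ∀ z z', d (ev V z) = d (ev V z') := by
    intro N
    induction N with
    | zero =>
      intro d hd
      refine ⟨fun n : ℕ => Sum.inr (Nat.findGreatest (fun i : ℕ => F i ≤ n) n), ⟨?_, ?_⟩, ?_⟩
      · intro n m hn
        have hm : Nat.findGreatest (fun i => F i ≤ n) n = m := Sum.inr.inj hn
        have h1 : F (Nat.findGreatest (fun i => F i ≤ n) n) ≤ n :=
          Nat.findGreatest_spec (P := fun i => F i ≤ n) (Nat.zero_le n) (hF0.le.trans (Nat.zero_le n))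
        rw [hm] at h1
        refine ⟨h1, ?_⟩
        by_contra hlt
        have h2 : F (m + 1) ≤ n := not_lt.mp hlt
        have h3 : m + 1 ≤ n := le_trans hmono.le_apply h2
        have h4 : m + 1 ≤ Nat.findGreatest (fun i => F i ≤ n) n :=
          Nat.le_findGreatest h3 h2
        omega
      · intro m
        refine ⟨F m, ?_⟩
        show Sum.inr _ = Sum.inr m
        congr 1
        apply le_antisymm
        · have h1 : F (Nat.findGreatest (fun i => F i ≤ F m) (F m)) ≤ F m :=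
            Nat.findGreatest_spec (P := fun i => F i ≤ F m) (Nat.zero_le _)
              (hF0.le.trans (Nat.zero_le _))
          exact hmono.le_iff_le.mp h1
        · exact Nat.le_findGreatest hmono.le_apply (le_refl _)
      · intro z z'
        exact hd _ _ fun n hn => absurd (hF0 ▸ hn) (Nat.not_lt_zero n)
    | succ N IH =>
      exact fun d hd => VWn_step ha F hmono N (R (F N)) (hF N)
        (fun C => VWn_hj (hR (F N)) C) IH d hd
  intro N d hd
  exact main N d fun u v huv => hd u v fun n hn => huv n (lt_of_lt_of_le hn hmono.le_apply)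

/-- The points `z` such that all points which agree with `z` below `N` are in `s`. -/
private def VWnO {a : ℕ} (s : Set (ℕ → Fin a)) (N : ℕ) : Set (ℕ → Fin a) :=
  {z | ∀ z', (∀ n < N, z' n = z n) → z' ∈ s}

private theorem VWn_sub {a : ℕ} {s : Set (ℕ → Fin a)} {N : ℕ} {z : ℕ → Fin a} (h : z ∈ VWnO s N) :
    z ∈ s := h z fun _ _ => rfl

private theorem VWn_mono {a : ℕ} {s : Set (ℕ → Fin a)} {N M : ℕ} (hNM : N ≤ M) {z : ℕ → Fin a}
    (h : z ∈ VWnO s N) : z ∈ VWnO s M := fun z' hz' => h z' fun n hn => hz' n (hn.trans_le hNM)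

private theorem VWn_dep {a : ℕ} {s : Set (ℕ → Fin a)} {N : ℕ} {u v : ℕ → Fin a}
    (huv : ∀ n < N, u n = v n) (h : u ∈ VWnO s N) : v ∈ VWnO s N := fun z' hz' =>
  h z' fun n hn => (hz' n hn).trans (huv n hn).symm

private theorem VWn_ex {a : ℕ} {s : Set (ℕ → Fin a)} (hs : IsOpen s) {z : ℕ → Fin a} (hz : z ∈ s) :
    ∃ N, z ∈ VWnO s N := by
  obtain ⟨I, u, hu, hI⟩ := isOpen_pi_iff.1 hs z hz
  refine ⟨I.sup id + 1, fun z' hz' => hI fun n hn => ?_⟩
  have h1 : n ≤ I.sup id := Finset.le_sup (f := id) hn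
  rw [hz' n (by omega)]
  exact (hu n hn).2

theorem windowsV {a : ℕ} (ha : 0 < a) (R : ℕ → ℕ) (hR0 : ∀ f, 0 < R f)
    (hR : ∀ f, HJp a (2 ^ (a ^ f)) (R f)) (F : ℕ → ℕ) (hF0 : F 0 = 0)
    (hF : ∀ N, F (N + 1) = F N + R (F N)) :
    ∀ s : Set (ℕ → Fin a), IsOpen s → ∃ V, Good F V ∧ Dcd V s := by
  classical
  have hmono : StrictMono F := strictMono_nat_of_lt_succ fun N => by
    rw [hF N]
    have := hR0 (F N)
    omega
  have hwin := VWn_main ha R hR F hF0 hF hmono
  have hFle : ∀ m, m ≤ F m := fun m => hmono.le_apply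
  intro s hs
  have h1 : ∀ N, ∃ V, Good F V ∧ ∀ z z', decide (ev V z ∈ VWnO s N) = decide (ev V z' ∈ VWnO s N) :=
    fun N => hwin N (fun z => decide (z ∈ VWnO s N)) fun u v huv =>
      decide_eq_decide.2 ⟨VWn_dep huv, VWn_dep fun n hn => (huv n hn).symm⟩
  choose VN hgood hdec using h1
  by_cases hc : ∃ N z0, ev (VN N) z0 ∈ VWnO s N
  · obtain ⟨N, z0, hz0⟩ := hc
    refine ⟨VN N, hgood N, Or.inl fun z => VWn_sub (N := N) ?_⟩
    have h2 := hdec N z0 z
    rw [decide_eq_decide] at h2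
    exact h2.1 hz0
  · push Not at hc
    have hval : ∀ n N, ∃ v ∈ (Set.range (Sum.inl : Fin a → Fin a ⊕ ℕ) ∪
        (Sum.inr '' Set.Iic n : Set (Fin a ⊕ ℕ))), VN N n = v := by
      intro n N
      refine ⟨VN N n, ?_, rfl⟩
      rcases hv : VN N n with b | m
      · exact Or.inl ⟨b, rfl⟩
      · exact Or.inr ⟨m, (hFle m).trans ((hgood N).win n m hv).1, rfl⟩
    have hfin : ∀ n, (Set.range (Sum.inl : Fin a → Fin a ⊕ ℕ) ∪
        (Sum.inr '' Set.Iic n : Set (Fin a ⊕ ℕ))).Finite := fun n =>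
      (Set.finite_range _).union ((Set.finite_Iic n).image _)
    have hlim : ∀ n, ∃ v, ∀ᶠ N in (Filter.hyperfilter ℕ : Filter ℕ), VN N n = v := by
      intro n
      obtain ⟨v, -, hv⟩ := (Ultrafilter.eventually_exists_mem_iff (hfin n)).1
        (Filter.Eventually.of_forall (hval n))
      exact ⟨v, hv⟩
    choose V hV using hlim
    refine ⟨V, ⟨fun n m hm => ?_, fun m => ?_⟩, Or.inr fun z hz => ?_⟩
    · obtain ⟨N, hN⟩ := (hV n).exists
      exact (hgood N).win n m (hN.trans hm)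
    · have h3 : ∀ N, ∃ n ∈ Set.Iio (F (m + 1)), VN N n = Sum.inr m := by
        intro N
        obtain ⟨n, hn⟩ := (hgood N).ex m
        exact ⟨n, ((hgood N).win n m hn).2, hn⟩
      obtain ⟨n, -, hn⟩ := (Ultrafilter.eventually_exists_mem_iff
        (f := Filter.hyperfilter ℕ) (Set.finite_Iio (F (m + 1)))).1
        (Filter.Eventually.of_forall h3)
      obtain ⟨N, hN1, hN2⟩ := ((hV n).and hn).exists
      exact ⟨n, hN1.symm.trans hN2⟩
    · obtain ⟨M, hM⟩ := VWn_ex hs hz
      have h4 : ∀ᶠ N in (Filter.hyperfilter ℕ : Filter ℕ), ∀ n ∈ Set.Iio M, VN N n = V n :=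
        (Filter.eventually_all_finite (Set.finite_Iio M)).2 fun n _ => hV n
      have h5 : ∀ᶠ N in (Filter.hyperfilter ℕ : Filter ℕ), M ≤ N := by
        have h6 : (Filter.hyperfilter ℕ : Filter ℕ) ≤ Filter.atTop := by
          rw [← Nat.cofinite_eq_atTop]
          exact Filter.hyperfilter_le_cofinite
        exact h6 (Filter.eventually_ge_atTop M)
      obtain ⟨N, hN1, hN2⟩ := (h4.and h5).exists
      have h7 : ∀ n < M, ev V z n = ev (VN N) z n := by
        intro n hn
        unfold ev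
        rw [hN1 n hn]
      exact hc N z (VWn_mono hN2 (VWn_dep h7 hM))

end Pool.Agent.DC
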